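import Pool.Agent.MP_f0209c_nt.FF.P2

/-! Lines, weights and the quantitative van der Corput argument. -/

set_option autoImplicit false

open Polynomial Finset Filter
open scoped Classical BigOperators

noncomputable section
namespace Pool.Agent.MP_f0209c_nt.FF
open Pool.Agent.MP_a4a062_nt.C2

section
variable {k : Type} [Field k] [Fintype k]
section EQ

theorem exp_line {n l : ℕ} {g : k[X]} (h : g.natDegree + 2 * l ≤ n + 1) (F : k[X] → ℝ) :
    𝔼 f ∈ mon k n, F f = 𝔼 f ∈ mon k n, 𝔼 s ∈ box k l, F (f + g * s ^ 2) := by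
  rw [Finset.expect_comm]
  have key : ∀ s ∈ box k l, 𝔼 f ∈ mon k n, F (f + g * s ^ 2) = 𝔼 f ∈ mon k n, F f := by
    intro s hs
    refine exp_mon_shift ?_ F
    by_cases h0 : g * s ^ 2 = 0
    · rw [h0, Polynomial.degree_zero]
      exact WithBot.bot_lt_coe _
    · have hs0 : s ≠ 0 := by
        rintro rfl
        exact h0 (by simp)
      have h1 : s.natDegree < l := (Polynomial.natDegree_lt_iff_degree_lt hs0).2 (mem_box.1 hs)
      refine (Polynomial.natDegree_lt_iff_degree_lt h0).1 ?_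
      have h2 : (g * s ^ 2).natDegree ≤ g.natDegree + (s ^ 2).natDegree :=
        Polynomial.natDegree_mul_le
      have h3 : (s ^ 2).natDegree ≤ 2 * s.natDegree := Polynomial.natDegree_pow_le
      omega
  rw [Finset.expect_congr rfl key, Finset.expect_const (box_nonempty l)]

theorem cnt_prs {B : k[X]} (hB : B ≠ 0) {e : ℕ} (he : 0 < e) :
    #{p ∈ prs k e | p ∣ B} ≤ B.natDegree := by
  have hm : ∀ p ∈ {p ∈ prs k e | p ∣ B},
      p.Monic ∧ p.natDegree = e ∧ Irreducible p ∧ p ∣ B := by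
    intro p hp
    rw [Finset.mem_filter] at hp
    obtain ⟨h1, h2⟩ := hp
    unfold prs at h1
    rw [Finset.mem_filter, mem_mon] at h1
    exact ⟨h1.1.1, h1.1.2, h1.2, h2⟩
  have hd : ∏ p ∈ {p ∈ prs k e | p ∣ B}, p ∣ B := by
    refine Finset.prod_dvd_of_coprime ?_ fun p hp => (hm p hp).2.2.2
    intro p hp r hr hne
    obtain ⟨p1, -, p3, -⟩ := hm p hp
    obtain ⟨r1, -, r3, -⟩ := hm r hr
    refine (p3.coprime_iff_not_dvd).2 fun hdv => hne ?_
    exact Polynomial.eq_of_monic_of_associated p1 r1 (p3.associated_of_dvd r3 hdv)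
  have h1 := Polynomial.natDegree_le_of_dvd hd hB
  rw [Polynomial.natDegree_prod_of_monic _ _ fun p hp => (hm p hp).1,
    Finset.sum_congr rfl fun p hp => (hm p hp).2.1, Finset.sum_const, smul_eq_mul] at h1
  exact le_trans (Nat.le_mul_of_pos_right _ he) h1

theorem card_prs_le (e : ℕ) : (#(prs k e) : ℝ) ≤ qq k ^ e := by
  rw [← card_mon]
  exact_mod_cast Finset.card_filter_le _ _

theorem exp_mon_dvd {n : ℕ} {g : k[X]} (hg : g ≠ 0) (hn : g.natDegree ≤ n) {c : k} (hc : c ≠ 0)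
    (h : k[X]) :
    𝔼 f ∈ mon k n, (if g ∣ C c * f + h then (1 : ℝ) else 0) = 1 / qq k ^ g.natDegree := by
  have hu : IsCoprime (C c) g :=
    ⟨C c⁻¹, 0, by rw [← C_mul, inv_mul_cancel₀ hc]; simp⟩
  rw [← exp_box_dvd hg hn hu (C c * X ^ n + h)]
  unfold mon
  rw [Finset.expect_image fun a _ b _ hab => add_right_injective _ hab]
  refine Finset.expect_congr rfl fun a _ => ?_
  rw [show C c * (X ^ n + a) + h = C c * X ^ n + h + C c * a by ring]

theorem lin_mem_mon {n : ℕ} {c : k} {h f : k[X]} (hh : C c * X ^ n + h ∈ mon k n)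
    (hf : f ∈ mon k n) : C c * f + h ∈ mon k n := by
  unfold mon at hh hf ⊢
  obtain ⟨a, ha, ea⟩ := Finset.mem_image.1 hh
  obtain ⟨b, hb, rfl⟩ := Finset.mem_image.1 hf
  refine Finset.mem_image.2 ⟨a + C c * b, ?_, ?_⟩
  · rw [mem_box] at ha hb ⊢
    refine lt_of_le_of_lt (Polynomial.degree_add_le _ _) (max_lt ha ?_)
    rw [← Polynomial.smul_eq_C_mul]
    exact lt_of_le_of_lt (Polynomial.degree_smul_le _ _) hb
  · linear_combination ea

theorem DD_ge {e : ℕ} (he : 0 < e) : 1 / (4 * (e : ℝ) * (e + 1)) ≤ DD k e := by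
  have hq : (0 : ℝ) < qq k := lt_of_lt_of_le (by norm_num) two_le_qq
  have h1 := card_prs (k := k) he
  have h2 := card_prs (k := k) (Nat.succ_pos e)
  have he' : (0 : ℝ) < e := by exact_mod_cast he
  unfold DD
  rw [div_le_div_iff₀ (by positivity) (by positivity), one_mul]
  have h3 := mul_le_mul h1 h2 (by positivity) (by positivity)
  rw [← pow_add, show e + e.succ = 2 * e + 1 by omega] at h3
  refine h3.trans (le_of_eq ?_)
  simp only [Nat.succ_eq_add_one, Nat.cast_add, Nat.cast_one]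
  ring

theorem DD_le (e : ℕ) : DD k e ≤ 1 := by
  have hq : (0 : ℝ) < qq k := lt_of_lt_of_le (by norm_num) two_le_qq
  unfold DD
  rw [div_le_one (by positivity), show 2 * e + 1 = e + (e + 1) by omega, pow_add]
  exact mul_le_mul (card_prs_le e) (card_prs_le (e + 1)) (by positivity) (by positivity)

end EQ
end

section
section
variable {k : Type} [Field k] [Fintype k] [CharP k 2]

omit [Fintype k] in
theorem bb_inj {a b a' b' : k[X]} (h : a ^ 2 + X * b ^ 2 = a' ^ 2 + X * b' ^ 2) :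
    a = a' ∧ b = b' := by
  have d : ∀ a b : k[X], derivative (a ^ 2 + X * b ^ 2) = b ^ 2 := fun a b => by
    simp [derivative_sq, CharTwo.two_eq_zero]
  have hb : b = b' := frobenius_inj k[X] 2 ((d a b).symm.trans (h ▸ d a' b'))
  subst hb
  exact ⟨frobenius_inj k[X] 2 (add_right_cancel h), rfl⟩

theorem ab_spec (h : k[X]) : h = aa h ^ 2 + X * bb h ^ 2 := by
  obtain ⟨a, b, e, -⟩ := exists_ab h
  obtain ⟨b', h1⟩ : ∃ b, h = aa h ^ 2 + X * b ^ 2 :=
    Classical.epsilon_spec (p := fun a => ∃ b, h = a ^ 2 + X * b ^ 2) ⟨a, b, e⟩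
  obtain ⟨a', h2⟩ : ∃ a, h = a ^ 2 + X * bb h ^ 2 :=
    Classical.epsilon_spec (p := fun b => ∃ a, h = a ^ 2 + X * b ^ 2) ⟨b, a, e⟩
  exact (bb_inj (h1.symm.trans h2)).2 ▸ h1

theorem ab_uniq {h a b : k[X]} (e : h = a ^ 2 + X * b ^ 2) : aa h = a ∧ bb h = b :=
  bb_inj ((ab_spec h).symm.trans e)

theorem bb_add (h h' : k[X]) : bb (h + h') = bb h + bb h' :=
  (ab_uniq (a := aa h + aa h') (by
    rw [CharTwo.add_sq, CharTwo.add_sq]
    linear_combination ab_spec h + ab_spec h')).2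

theorem bb_mul_sq (h s : k[X]) : bb (h * s ^ 2) = bb h * s :=
  (ab_uniq (a := aa h * s) (by linear_combination s ^ 2 * ab_spec h)).2

theorem bb_sq (s : k[X]) : bb (s ^ 2) = 0 := (ab_uniq (a := s) (by ring)).2

theorem exists_sqrt {c : k} (hc : c ≠ 0) : ∃ ρ : k, ρ ≠ 0 ∧ ρ ^ 2 = c := by
  obtain ⟨d, rfl⟩ := (Finite.injective_iff_surjective.1 (frobenius_inj k 2)) c
  exact ⟨d, fun e => hc (by rw [e, map_zero]), rfl⟩

theorem bb_lin (ρ : k) (h f g : k[X]) :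
    bb ((C (ρ ^ 2) * f + h) * g) = C ρ * bb (f * g) + bb (h * g) := by
  rw [mul_comm (C ρ), ← bb_mul_sq, ← bb_add, C_pow]
  congr 1
  ring

theorem bb_deg {h : k[X]} {m : ℕ} (hm : h.degree < (2 * m + 1 : ℕ)) : (bb h).degree < m := by
  obtain ⟨a, b, e, hd⟩ := exists_ab h
  exact (ab_uniq e).2.symm ▸ (hd m hm).2

theorem bb_mon {h : k[X]} {m : ℕ} (hm : h ∈ mon k (2 * m + 1)) :
    bb h ∈ mon k m ∧ (aa h).natDegree ≤ m := by
  obtain ⟨h, hh, rfl⟩ := mem_image.1 hm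
  obtain ⟨a, b, rfl, hd⟩ := exists_ab h
  obtain ⟨ha, hb⟩ := hd m (mem_box.1 hh)
  obtain ⟨e1, e2⟩ := ab_uniq (h := X ^ (2 * m + 1) + (a ^ 2 + X * b ^ 2)) (a := a)
    (b := X ^ m + b) (by rw [CharTwo.add_sq]; ring)
  rw [e1, e2]
  refine ⟨mem_image.2 ⟨b, mem_box.2 hb, rfl⟩, natDegree_le_iff_coeff_eq_zero.2 fun i hi => ?_⟩
  exact (degree_lt_iff_coeff_zero _ _).1 ha i hi

theorem bb_ne {γ : ℕ} {g g' : k[X]} (hg : g ∈ prs k γ) (hg' : g' ∈ prs k γ) (h : g ≠ g') :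
    bb (g' * g) ≠ 0 := fun e => by
  obtain ⟨m1, i1⟩ := mem_filter.1 hg
  obtain ⟨m2, i2⟩ := mem_filter.1 hg'
  have e2 : g' * g = aa (g' * g) ^ 2 := by simpa [e] using ab_spec (g' * g)
  obtain ⟨t, ht⟩ := i1.prime.dvd_of_dvd_pow (n := 2) (e2 ▸ dvd_mul_left g g')
  refine h (eq_of_monic_of_associated (mem_mon.1 m1).1 (mem_mon.1 m2).1
    (i1.associated_of_dvd i2 ⟨t ^ 2, mul_right_cancel₀ i1.ne_zero ?_⟩))
  rw [e2, ht]
  ring

theorem bb_bad {γ : ℕ} {h g g' : k[X]} (hh : h ≠ 0) (hg : g ∈ prs k γ) (hg' : g' ∈ prs k γ)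
    (h1 : bb (h * g) = 0) (h2 : bb (h * g') = 0) : g = g' := by
  by_contra e
  have e1 : h * g = aa (h * g) ^ 2 := by simpa [h1] using ab_spec (h * g)
  have e2 : h * g' = aa (h * g') ^ 2 := by simpa [h2] using ab_spec (h * g')
  refine mul_ne_zero (bb_ne hg hg' e) hh ?_
  rw [← bb_mul_sq, ← bb_sq (aa (h * g) * aa (h * g')), mul_pow, ← e1, ← e2]
  congr 1
  ring

end
end

section
variable {k : Type} [Field k] [Fintype k]
variable [CharP k 2]
section

omit [CharP k 2] in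
theorem equi_prs {γ : ℕ} {g : k[X]} (hg : g ∈ prs k γ) : g.Monic ∧ g.natDegree = γ :=
  mem_mon.1 (Finset.mem_filter.1 hg).1

omit [CharP k 2] in
theorem equi_mul_mon {a b : ℕ} {f g : k[X]} (hf : f ∈ mon k a) (hg : g ∈ prs k b) :
    f * g ∈ mon k (a + b) := by
  obtain ⟨h1, h2⟩ := mem_mon.1 hf
  obtain ⟨h3, h4⟩ := equi_prs hg
  exact mem_mon.2 ⟨h1.mul h3, by rw [h1.natDegree_mul h3, h2, h4]⟩

theorem equi_cop {γ : ℕ} {g g' M : k[X]} (hg : g ∈ prs k γ) (hg' : g' ∈ prs k γ) (h : g ≠ g')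
    (hP : ∀ P, Irreducible P → P ∣ M → γ ≤ P.natDegree) : IsCoprime (bb (g' * g)) M := by
  have h0 : bb (g' * g) ≠ 0 := bb_ne hg hg' h
  have hm := mem_mon.1 (equi_mul_mon (Finset.mem_filter.1 hg').1 hg)
  have hd : (bb (g' * g)).degree < γ := by
    apply bb_deg
    rw [degree_eq_natDegree hm.1.ne_zero, hm.2]
    exact_mod_cast (by omega)
  have hd' : (bb (g' * g)).natDegree < γ := (natDegree_lt_iff_degree_lt h0).2 hd
  refine isCoprime_of_irreducible_dvd (fun hh => h0 hh.1) fun P hi h1 h2 => ?_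
  have := natDegree_le_of_dvd h1 h0
  have := hP P hi h2
  omega

theorem equi {γ l : ℕ} {g g' M : k[X]} (hg : g ∈ prs k γ) (hg' : g' ∈ prs k γ) (h : g ≠ g')
    (hM : M ≠ 0) (hl : M.natDegree ≤ l) (hP : ∀ P, Irreducible P → P ∣ M → γ ≤ P.natDegree)
    (f b : k[X]) : 𝔼 s ∈ box k l, (if M ∣ bb ((f + g' * s ^ 2) * g) - b then (1 : ℝ) else 0) =
      1 / qq k ^ M.natDegree := by
  rw [← exp_box_dvd hM hl (equi_cop hg hg' h hP) (bb (f * g) - b)]
  refine Finset.expect_congr rfl fun s _ => ?_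
  have e : bb ((f + g' * s ^ 2) * g) - b = bb (f * g) - b + bb (g' * g) * s := by
    rw [show (f + g' * s ^ 2) * g = f * g + g' * g * s ^ 2 by ring, bb_add, bb_mul_sq]
    ring
  rw [e]

theorem equi_mon {n γ l : ℕ} {g g' M : k[X]} (hg : g ∈ prs k γ) (hg' : g' ∈ prs k γ) (h : g ≠ g')
    (hn : γ + 2 * l ≤ n + 1) (hM : M ≠ 0) (hl : M.natDegree ≤ l)
    (hP : ∀ P, Irreducible P → P ∣ M → γ ≤ P.natDegree) (b : k[X]) :
    𝔼 f ∈ mon k n, (if M ∣ bb (f * g) - b then (1 : ℝ) else 0) = 1 / qq k ^ M.natDegree := by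
  have hn' : g'.natDegree + 2 * l ≤ n + 1 := by rw [(equi_prs hg').2]; exact hn
  rw [exp_line hn' fun f => if M ∣ bb (f * g) - b then (1 : ℝ) else 0,
    Finset.expect_congr rfl fun f _ => equi hg hg' h hM hl hP f b]
  exact Finset.expect_const (mon_nonempty n) _

omit [CharP k 2] in
theorem ww_nonneg (c : k) (h : k[X]) (e : ℕ) (g f : k[X]) : 0 ≤ ww c h e g f :=
  Finset.sum_nonneg fun _ _ => Finset.sum_nonneg fun _ _ => by split_ifs <;> norm_num

omit [CharP k 2] in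
theorem equi_cnt {m e : ℕ} {B : k[X]} (hB : B ∈ mon k m) (he : 0 < e) :
    ∑ p ∈ prs k e, (if p ∣ B then (1 : ℝ) else 0) ≤ m := by
  obtain ⟨h1, h2⟩ := mem_mon.1 hB
  have := cnt_prs h1.ne_zero he
  rw [Finset.sum_boole, ← h2]
  exact_mod_cast this

theorem ww_le {n m γ e : ℕ} {c : k} {h g f : k[X]} (hn : n + γ = 2 * m + 1) (he : 0 < e)
    (hh : C c * X ^ n + h ∈ mon k n) (hg : g ∈ prs k γ) (hf : f ∈ mon k n) :
    ww c h e g f ≤ (m : ℝ) ^ 2 := by
  have h1 := equi_cnt (bb_mon (hn ▸ equi_mul_mon hf hg)).1 he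
  have h2 := equi_cnt (bb_mon (hn ▸ equi_mul_mon (lin_mem_mon hh hf) hg)).1 (Nat.succ_pos e)
  have e1 : ww c h e g f = (∑ p ∈ prs k e, if p ∣ bb (f * g) then (1 : ℝ) else 0) *
      ∑ p ∈ prs k (e + 1), if p ∣ bb ((C c * f + h) * g) then (1 : ℝ) else 0 := by
    rw [ww, Finset.sum_mul_sum]
    refine Finset.sum_congr rfl fun p _ => Finset.sum_congr rfl fun p₂ _ => ?_
    by_cases a : p ∣ bb (f * g) <;> by_cases b : p₂ ∣ bb ((C c * f + h) * g) <;> simp [a, b]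
  rw [e1, sq]
  exact mul_le_mul h1 h2 (Finset.sum_nonneg fun _ _ => by split_ifs <;> norm_num)
    (Nat.cast_nonneg m)

theorem ww_line (c : k) (h : k[X]) (e : ℕ) (g f s : k[X]) :
    ww c h e g (f + g * s ^ 2) = ww c h e g f := by
  obtain ⟨ρ, hρ⟩ : ∃ ρ : k, ρ ^ 2 = c := by
    by_cases hc : c = 0
    · exact ⟨0, by simp [hc]⟩
    · obtain ⟨ρ, -, hρ⟩ := exists_sqrt hc
      exact ⟨ρ, hρ⟩
  have e1 : bb ((f + g * s ^ 2) * g) = bb (f * g) := by
    rw [show (f + g * s ^ 2) * g = f * g + (g * s) ^ 2 by ring, bb_add, bb_sq, add_zero]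
  have e2 : bb ((C c * (f + g * s ^ 2) + h) * g) = bb ((C c * f + h) * g) := by
    rw [show (C c * (f + g * s ^ 2) + h) * g = (C c * f + h) * g + (C ρ * g * s) ^ 2 by
      rw [← hρ, C_pow]; ring, bb_add, bb_sq, add_zero]
  rw [ww, ww, e1, e2]

end
end

section
section
variable {k : Type} [Field k] [Fintype k]

theorem ww_prs {e : ℕ} {p : k[X]} (h : p ∈ prs k e) :
    p.Monic ∧ p.natDegree = e ∧ Irreducible p :=
  ⟨(mem_mon.1 (mem_filter.1 h).1).1, (mem_mon.1 (mem_filter.1 h).1).2, (mem_filter.1 h).2⟩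

omit [Fintype k] in
theorem ww_crt {p r : k[X]} (h : IsCoprime p r) {ρ : k} (hρ : ρ ≠ 0) (b : k[X]) :
    ∃ a, ∀ B, (p ∣ B ∧ r ∣ C ρ * B + b) ↔ p * r ∣ B - a := by
  obtain ⟨u, v, e⟩ := id h
  have e' : C ρ * C ρ⁻¹ = (1 : k[X]) := by rw [← C_mul, mul_inv_cancel₀ hρ, C_1]
  refine ⟨-(C ρ⁻¹ * b) * u * p, fun B => ⟨fun ⟨h1, t, h2⟩ => h.mul_dvd
    (dvd_sub h1 (dvd_mul_left _ _)) ⟨C ρ⁻¹ * (t - b * v), ?_⟩, fun ⟨t, ht⟩ =>
    ⟨⟨r * t - C ρ⁻¹ * b * u, ?_⟩, ⟨C ρ * p * t + b * v, ?_⟩⟩⟩⟩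
  · linear_combination C ρ⁻¹ * h2 + C ρ⁻¹ * b * e - B * e'
  · linear_combination ht
  · linear_combination C ρ * ht - b * e - b * u * p * e'

variable [CharP k 2]

theorem ww_mean {γ l e : ℕ} {c : k} {g g' : k[X]} (hc : c ≠ 0) (hg : g ∈ prs k γ)
    (hg' : g' ∈ prs k γ) (hne : g ≠ g') (he : γ ≤ e) (hl : 2 * e + 1 ≤ l) (h f : k[X]) :
    𝔼 s ∈ box k l, ww c h e g (f + g' * s ^ 2) = DD k e := by
  obtain ⟨ρ, hρ, rfl⟩ := exists_sqrt hc
  simp only [ww, bb_lin, expect_sum_comm]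
  rw [sum_congr rfl fun p hp => sum_congr rfl fun r hr => (?_ : _ = 1 / qq k ^ (2 * e + 1))]
  · simp only [sum_const, nsmul_eq_mul, DD]
    ring
  obtain ⟨p1, p2, p3⟩ := ww_prs hp
  obtain ⟨r1, r2, r3⟩ := ww_prs hr
  have hd : (p * r).natDegree = 2 * e + 1 := by rw [p1.natDegree_mul r1]; omega
  obtain ⟨a, ha⟩ := ww_crt (r3.coprime_iff_not_dvd.2 fun e => by
    have := natDegree_le_of_dvd e p1.ne_zero
    omega).symm hρ (bb (h * g))
  simp only [ha]
  rw [← hd]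
  refine equi hg hg' hne (mul_ne_zero p1.ne_zero r1.ne_zero) (by omega) (fun P hP e => ?_) f a
  rcases hP.prime.dvd_or_dvd e with e | e
  · rw [natDegree_eq_of_degree_eq (degree_eq_degree_of_associated (hP.associated_of_dvd p3 e))]
    omega
  · rw [natDegree_eq_of_degree_eq (degree_eq_degree_of_associated (hP.associated_of_dvd r3 e))]
    omega

theorem ww_exp {n γ l e : ℕ} {c : k} {g g' : k[X]} (hc : c ≠ 0) (hg : g ∈ prs k γ)
    (hg' : g' ∈ prs k γ) (hne : g ≠ g') (he : γ ≤ e) (hl : 2 * e + 1 ≤ l)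
    (hn : γ + 2 * l ≤ n + 1) (h : k[X]) : 𝔼 f ∈ mon k n, ww c h e g f = DD k e := by
  rw [exp_line (g := g') (l := l) (by rwa [(ww_prs hg').2.1])]
  simp only [ww_mean hc hg hg' hne he hl, expect_const (mon_nonempty n)]

theorem ww_pair {n γ l e : ℕ} {c : k} {g g' : k[X]} (hc : c ≠ 0) (hg : g ∈ prs k γ)
    (hg' : g' ∈ prs k γ) (hne : g ≠ g') (he : γ ≤ e) (hl : 2 * e + 1 ≤ l)
    (hn : γ + 2 * l ≤ n + 1) (h : k[X]) :
    𝔼 f ∈ mon k n, ww c h e g f * ww c h e g' f = DD k e ^ 2 := by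
  rw [exp_line (g := g') (l := l) (by rwa [(ww_prs hg').2.1])]
  simp only [ww_line, ← expect_mul, ww_mean hc hg hg' hne he hl, ← mul_expect,
    ww_exp hc hg' hg hne.symm he hl hn, sq (DD k e)]

end
end

section
section
variable {k : Type} [Field k] [Fintype k]
variable [CharP k 2]

theorem baseq_prod (p : k[X]) (S : Finset k[X]) (f : k[X] → k[X]) :
    ∏ a ∈ S, psi (tau p (f a)) = psi (tau p (∑ a ∈ S, f a)) := by
  induction S using Finset.induction_on with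
  | empty =>
    have h : tau p (0 : k[X]) = 0 := by simp [tau]
    rw [Finset.prod_empty, Finset.sum_empty, h, psi, if_pos ⟨0, by simp⟩]
  | insert a S ha ih => rw [Finset.prod_insert ha, Finset.sum_insert ha, tau_add, psi_add, ih]

theorem baseq_sq {ι : Type} {s : Finset ι} (hs : s.Nonempty) (f : ι → ℝ) :
    (𝔼 i ∈ s, f i) ^ 2 ≤ 𝔼 i ∈ s, f i ^ 2 := by
  have h := Finset.expect_mul_sq_le_sq_mul_sq s f fun _ => (1 : ℝ)
  simpa [Finset.expect_const hs] using h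

theorem baseq_four {ι : Type} {s : Finset ι} (hs : s.Nonempty) (f : ι → ℝ) :
    (𝔼 i ∈ s, f i) ^ 4 ≤ 𝔼 i ∈ s, f i ^ 4 := by
  calc (𝔼 i ∈ s, f i) ^ 4 = ((𝔼 i ∈ s, f i) ^ 2) ^ 2 := by ring
    _ ≤ (𝔼 i ∈ s, f i ^ 2) ^ 2 := pow_le_pow_left₀ (sq_nonneg _) (baseq_sq hs f) 2
    _ ≤ 𝔼 i ∈ s, (f i ^ 2) ^ 2 := baseq_sq hs _
    _ = _ := Finset.expect_congr rfl fun i _ => by ring

theorem baseQ {p κ : k[X]} {Φ : k[X] → ℝ} {l : ℕ} {S : Finset k[X]} (hp : p.Monic)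
    (hi : Irreducible p) (hκ : ¬ p ∣ κ) (hl : 2 * p.natDegree ≤ l) (h1 : ∀ A, Φ A * Φ A = 1)
    (h2 : ∀ A y z U, p ∣ A * U - 1 →
      Φ A * Φ (A + p * y) * Φ (A + p * z) * Φ (A + p * y + p * z) =
        psi (tau p (κ * U * (y ^ 2 * z + y * z ^ 2)))) (h0 : S.Nonempty) (hS : Inc p S) :
    (𝔼 A ∈ box k l, ∏ a ∈ S, Φ (A + a)) ^ 4 ≤ (2 * (#S : ℝ) + 4) / qq k ^ p.natDegree := by
  have hΦ1 : ∀ A, |Φ A| = 1 := fun A => by
    rcases mul_self_eq_one_iff.1 (h1 A) with h | h <;> simp [h]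
  have hΨ1 : ∀ A, |∏ a ∈ S, Φ (A + a)| = 1 := fun A => by
    rw [Finset.abs_prod]
    exact Finset.prod_eq_one fun a _ => hΦ1 _
  have hdeg : ∀ x ∈ box k p.natDegree, (p * x).degree < (l : ℕ) := by
    intro x hx
    rcases eq_or_ne (p * x) 0 with h | h
    · rw [h, degree_zero]
      exact WithBot.bot_lt_coe _
    have hx0 : x ≠ 0 := right_ne_zero_of_mul h
    rw [mem_box, ← natDegree_lt_iff_degree_lt hx0] at hx
    rw [← natDegree_lt_iff_degree_lt h]
    have h1 := natDegree_mul_le (p := p) (q := x)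
    omega
  have e1 : 𝔼 A ∈ box k l, ∏ a ∈ S, Φ (A + a) =
      𝔼 A ∈ box k l, 𝔼 x ∈ box k p.natDegree, ∏ a ∈ S, Φ (A + p * x + a) := by
    rw [Finset.expect_comm, Finset.expect_congr rfl fun x hx =>
      exp_box_shift (hdeg x hx) fun A => ∏ a ∈ S, Φ (A + a),
      Finset.expect_const (box_nonempty _)]
  have hq0 : 0 ≤ 4 / qq k ^ p.natDegree := by
    have := two_le_qq (k := k)
    positivity
  have e2 : ∀ A ∈ box k l, (𝔼 x ∈ box k p.natDegree, ∏ a ∈ S, Φ (A + p * x + a)) ^ 4 ≤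
      4 / qq k ^ p.natDegree +
        (if ∃ U : k[X] → k[X], (∀ a ∈ S, p ∣ (A + a) * U a - 1) ∧ ¬ p ∣ ∑ a ∈ S, U a
          then (0 : ℝ) else 1) := by
    intro A _
    split_ifs with h
    · obtain ⟨U, hU, hU'⟩ := h
      have hκ' : ¬ p ∣ κ * ∑ a ∈ S, U a := fun h => (hi.prime.dvd_or_dvd h).elim hκ hU'
      rw [add_zero]
      refine (quad_le (J := p.natDegree) (fun x => ∏ a ∈ S, Φ (A + p * x + a))
        (fun y z => psi (tau p ((κ * ∑ a ∈ S, U a) * (y ^ 2 * z + y * z ^ 2))))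
        fun x _ y _ z _ => ?_).trans (rad_le hp hi hκ')
      rw [Finset.mul_sum, Finset.sum_mul, ← baseq_prod, ← Finset.prod_mul_distrib,
        ← Finset.prod_mul_distrib, ← Finset.prod_mul_distrib]
      refine Finset.prod_congr rfl fun a ha => ?_
      have hd : p ∣ (A + p * x + a) * U a - 1 := by
        rw [show (A + p * x + a) * U a - 1 = (A + a) * U a - 1 + p * (x * U a) by ring]
        exact dvd_add (hU a ha) (dvd_mul_right _ _)
      rw [← h2 _ y z _ hd,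
        show A + p * (x + y) + a = A + p * x + a + p * y by ring,
        show A + p * (x + z) + a = A + p * x + a + p * z by ring,
        show A + p * (x + y + z) + a = A + p * x + a + p * y + p * z by ring]
    · have h3 : |𝔼 x ∈ box k p.natDegree, ∏ a ∈ S, Φ (A + p * x + a)| ≤ 1 := by
        refine (Finset.abs_expect_le _ _).trans ?_
        rw [Finset.expect_congr rfl fun x _ => hΨ1 _, Finset.expect_const (box_nonempty _)]
      have h4 := pow_le_one₀ (n := 4) (abs_nonneg _) h3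
      rw [← abs_pow] at h4
      linarith [le_abs_self ((𝔼 x ∈ box k p.natDegree, ∏ a ∈ S, Φ (A + p * x + a)) ^ 4)]
  rw [e1]
  refine (baseq_four (box_nonempty _) _).trans ((Finset.expect_le_expect e2).trans ?_)
  rw [Finset.expect_add_distrib, Finset.expect_const (box_nonempty _), add_div]
  have h5 := kap_le hp hi h0 hS (l := l) (by omega)
  linarith

end
end

section
section
variable {k : Type} [Field k] [Fintype k]

theorem vdcq_deg {W t : k[X]} {K l : ℕ} (hW : W.natDegree + K ≤ l) (ht : t ∈ box k K) :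
    (W * t).degree < l := by
  rw [mem_box] at ht
  by_cases h0 : t = 0
  · rw [h0, mul_zero, degree_zero]; exact WithBot.bot_lt_coe _
  have h1 : t.natDegree < K := (natDegree_lt_iff_degree_lt h0).2 ht
  have h2 : (W * t).natDegree < l := lt_of_le_of_lt natDegree_mul_le (by omega)
  exact lt_of_le_of_lt degree_le_natDegree (by exact_mod_cast h2)

/-- Cauchy-Schwarz along `W * box K`, with an invariant bounded weight. -/
theorem vdcq_cs {W : k[X]} {K l : ℕ} (hW : W.natDegree + K ≤ l) (u φ : k[X] → ℝ)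
    (hu : ∀ A, |u A| ≤ 1) (hinv : ∀ A s, u (A + W * s) = u A) :
    (𝔼 A ∈ box k l, u A * φ A) ^ 2 ≤
      𝔼 t ∈ box k K, 𝔼 A ∈ box k l, φ A * φ (A + W * t) := by
  have e1 : 𝔼 A ∈ box k l, u A * φ A
      = 𝔼 A ∈ box k l, u A * 𝔼 t ∈ box k K, φ (A + W * t) := by
    have : ∀ t ∈ box k K, 𝔼 A ∈ box k l, u A * φ (A + W * t) = 𝔼 A ∈ box k l, u A * φ A := by
      intro t ht
      rw [← exp_box_shift (vdcq_deg hW ht) (fun A => u A * φ A)]
      exact expect_congr rfl fun A _ => by rw [hinv]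
    calc 𝔼 A ∈ box k l, u A * φ A = 𝔼 t ∈ box k K, 𝔼 A ∈ box k l, u A * φ (A + W * t) := by
          rw [expect_congr rfl this, expect_const (box_nonempty K)]
      _ = _ := by
          rw [expect_comm]
          exact expect_congr rfl fun A _ => by rw [mul_expect]
  have e2 : 𝔼 A ∈ box k l, (𝔼 t ∈ box k K, φ (A + W * t)) ^ 2
      = 𝔼 t ∈ box k K, 𝔼 A ∈ box k l, φ A * φ (A + W * t) := by
    have a1 : ∀ A, (𝔼 t ∈ box k K, φ (A + W * t)) ^ 2
        = 𝔼 t ∈ box k K, 𝔼 t' ∈ box k K, φ (A + W * t) * φ (A + W * t') := by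
      intro A; rw [sq, expect_mul_expect]
    have a2 : ∀ t ∈ box k K,
        𝔼 A ∈ box k l, 𝔼 t' ∈ box k K, φ (A + W * t) * φ (A + W * t')
          = 𝔼 t' ∈ box k K, 𝔼 A ∈ box k l, φ A * φ (A + W * t') := by
      intro t ht
      rw [expect_comm, ← exp_box_shift (mem_box.1 ht)
        (fun t' => 𝔼 A ∈ box k l, φ (A + W * t) * φ (A + W * t'))]
      refine expect_congr rfl fun t' _ => ?_
      rw [← exp_box_shift (vdcq_deg hW ht) (fun A => φ A * φ (A + W * t'))]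
      refine expect_congr rfl fun A _ => ?_
      congr 2; ring
    rw [expect_congr rfl fun A _ => a1 A, expect_comm, expect_congr rfl a2,
      expect_const (box_nonempty K)]
  have e3 : 𝔼 A ∈ box k l, u A ^ 2 ≤ 1 := by
    refine expect_le (box_nonempty l) fun A _ => ?_
    have := hu A
    rw [← sq_abs]; exact pow_le_one₀ (abs_nonneg _) this
  have e4 : 0 ≤ 𝔼 A ∈ box k l, (𝔼 t ∈ box k K, φ (A + W * t)) ^ 2 :=
    expect_nonneg fun A _ => sq_nonneg _
  rw [e1, ← e2]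
  refine (expect_mul_sq_le_sq_mul_sq _ _ _).trans ?_
  exact mul_le_of_le_one_left e4 e3

theorem vdcq_one {p W b : k[X]} {K : ℕ} (hp : Irreducible p) (hK : K ≤ p.natDegree)
    (hW : ¬ p ∣ W) :
    𝔼 t ∈ box k K, (if p ∣ b + W * t then (1 : ℝ) else 0) ≤ 1 / qq k ^ K := by
  rw [expect_eq_sum_div_card, card_box, sum_boole]
  have hq : (0 : ℝ) < qq k ^ K := pow_pos (lt_of_lt_of_le two_pos two_le_qq) _
  refine div_le_div_of_nonneg_right ?_ hq.le
  have : #{t ∈ box k K | p ∣ b + W * t} ≤ 1 := by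
    refine card_le_one.2 fun t ht t' ht' => ?_
    rw [mem_filter, mem_box] at ht ht'
    have h1 : p ∣ W * (t - t') := by
      have := dvd_sub ht.2 ht'.2
      rwa [show b + W * t - (b + W * t') = W * (t - t') by ring] at this
    have h2 : p ∣ t - t' := (hp.prime.dvd_or_dvd h1).resolve_left hW
    have h3 : (t - t').degree < p.degree := by
      refine lt_of_lt_of_le (lt_of_le_of_lt (degree_sub_le _ _) (max_lt ht.1 ht'.1)) ?_
      rw [degree_eq_natDegree hp.ne_zero]; exact_mod_cast hK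
    exact sub_eq_zero.1 (eq_zero_of_dvd_of_degree_lt h2 h3)
  exact_mod_cast this

theorem vdcq_abs_psi (c : k) : |psi c| = 1 := by
  unfold psi; split_ifs <;> simp

/-- `0` = the factor is absent, `n + 1` = a phase of degree `n`. -/
def vdcq_Kl : ℕ → k[X] → (k[X] → ℝ) → Prop
  | 0, _, Θ => ∀ A, Θ A = 1
  | n + 1, W, Θ => Kill n W Θ

theorem vdcq_Kl_abs {n : ℕ} {W : k[X]} {Θ : k[X] → ℝ} (h : vdcq_Kl n W Θ) (A : k[X]) : |Θ A| ≤ 1 := by
  cases n with
  | zero => rw [h A]; simp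
  | succ n =>
    obtain ⟨c, F, hc, -, hF⟩ := h A
    have := hF 0
    rw [mul_zero, add_zero] at this
    rw [this, abs_mul, vdcq_abs_psi, mul_one]; exact hc

variable [CharP k 2]

theorem vdcq_Kl_dlt {n : ℕ} {W : k[X]} {Θ : k[X] → ℝ} (h : vdcq_Kl n W Θ) (t : k[X]) :
    vdcq_Kl n W fun A => Θ A * Θ (A + t) := by
  cases n with
  | zero => intro A; show Θ A * Θ (A + t) = 1; rw [h A, h (A + t), mul_one]
  | succ n =>
    intro A
    obtain ⟨c, F, hc, hF, e⟩ := h A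
    obtain ⟨c', F', hc', hF', e'⟩ := h (A + t)
    refine ⟨c * c', fun s => F s + F' s, ?_, hF.add hF', fun s => ?_⟩
    · rw [abs_mul]; exact mul_le_one₀ hc (abs_nonneg _) hc'
    · show Θ (A + W * s) * Θ (A + W * s + t) = _
      rw [show A + W * s + t = A + t + W * s by ring, e, e', psi_add]; ring

theorem vdcq_Kl_low {n : ℕ} {W : k[X]} {Θ : k[X] → ℝ} (h : vdcq_Kl (n + 2) W Θ) (t : k[X]) :
    vdcq_Kl (n + 1) W fun A => Θ A * Θ (A + W * t) := by
  intro A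
  obtain ⟨c, F, hc, hF, e⟩ := h A
  refine ⟨c * c, fun s => F (s + t) - F s, ?_, hF t, fun s => ?_⟩
  · rw [abs_mul]; exact mul_le_one₀ hc (abs_nonneg _) hc
  · show Θ (A + W * s) * Θ (A + W * s + W * t) = c * c * psi (F (s + t) - F s)
    rw [show A + W * s + W * t = A + W * (s + t) by ring, e, e, CharTwo.sub_eq_add, psi_add]; ring

omit [CharP k 2] in
theorem vdcq_Kl_inv {W : k[X]} {Θ : k[X] → ℝ} (h : vdcq_Kl 1 W Θ) (A s : k[X]) :
    Θ (A + W * s) = Θ A := by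
  obtain ⟨c, F, -, hF, e⟩ := h A
  have := e 0
  rw [mul_zero, add_zero] at this
  rw [this, e, hF s 0]

omit [Fintype k] [CharP k 2] in
theorem vdcq_double {p h : k[X]} {S : Finset k[X]} (hS : Inc p S)
    (hh : ∀ a ∈ S, ∀ b ∈ S, ¬ p ∣ a - b + h) :
    Inc p (S ∪ S.image (· + h)) ∧ ∀ (Φ : k[X] → ℝ) (A : k[X]),
      ∏ a ∈ S ∪ S.image (· + h), Φ (A + a) = (∏ a ∈ S, Φ (A + a)) * ∏ a ∈ S, Φ (A + h + a) := by
  constructor
  · intro a ha b hb hab
    rw [mem_union, mem_image] at ha hb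
    rcases ha with ha | ⟨a, ha, rfl⟩ <;> rcases hb with hb | ⟨b, hb, rfl⟩
    · exact hS a ha b hb hab
    · refine absurd ?_ (hh b hb a ha)
      have := dvd_neg.2 hab
      rwa [show -(a - (b + h)) = b - a + h by ring] at this
    · refine absurd ?_ (hh a ha b hb)
      rwa [show a + h - b = a - b + h by ring] at hab
    · rw [hS a ha b hb (by rwa [show a + h - (b + h) = a - b by ring] at hab)]
  · intro Φ A
    rw [prod_union, prod_image fun a _ b _ hab => add_right_cancel hab]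
    · congr 1
      exact prod_congr rfl fun a _ => by rw [show A + (a + h) = A + h + a by ring]
    · rw [disjoint_left]
      intro a ha hb
      obtain ⟨b, hb', rfl⟩ := mem_image.1 hb
      refine hh b hb' (b + h) ha ?_
      rw [show b - (b + h) + h = 0 by ring]; exact dvd_zero p

theorem vdcq_gen (ι : Type) [Fintype ι] (K N : ℕ) : ∀ (s : ℕ) (ρ : ℝ), 0 < ρ → ρ ≤ 1 →
    ((2 : ℝ) ^ N * s) ^ 2 ≤ ρ ^ 2 ^ N * qq k ^ K →
    ∀ (d : ι → ℕ) (W : ι → k[X]) (Θ : ι → k[X] → ℝ) (p : k[X])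
      (Φ : k[X] → ℝ) (l : ℕ), ∑ i, d i = N → Irreducible p → K ≤ p.natDegree →
      (∀ i, ¬ p ∣ W i) → (∀ i, (W i).natDegree + K ≤ l) → (∀ i, vdcq_Kl (d i) (W i) (Θ i)) →
      (∀ A, |Φ A| ≤ 1) →
      (∀ S : Finset k[X], S.Nonempty → #S ≤ 2 ^ N * s → Inc p S →
        |𝔼 A ∈ box k l, ∏ a ∈ S, Φ (A + a)| ≤ ρ ^ 2 ^ N) →
      ∀ S : Finset k[X], S.Nonempty → #S ≤ s → Inc p S →
        |𝔼 A ∈ box k l, (∏ a ∈ S, Φ (A + a)) * ∏ i, Θ i A| ≤ 2 * ρ := by
  induction N with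
  | zero =>
    intro s ρ hρ _ _ d W Θ p Φ l hd _ _ _ _ hK _ hb S h1 h2 h3
    have h0 : ∀ i A, Θ i A = 1 := fun i => by
      have : d i = 0 := (sum_eq_zero_iff.1 hd) i (mem_univ i)
      have h := hK i
      rw [this] at h; exact h
    have := hb S h1 (by simpa using h2) h3
    simp only [h0, prod_const_one, mul_one]
    simp only [pow_zero, pow_one] at this
    linarith
  | succ N ih =>
    intro s ρ hρ hρ1 hq d W Θ p Φ l hd hp hK hW hl hΘ hΦ hb S h1 h2 h3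
    have ep : (ρ ^ 2) ^ 2 ^ N = ρ ^ 2 ^ (N + 1) := by rw [← pow_mul, pow_succ, mul_comm]
    have es : 2 ^ N * (2 * s) = 2 ^ (N + 1) * s := by ring
    have H := ih (2 * s) (ρ ^ 2) (by positivity) (pow_le_one₀ hρ.le hρ1) (by
      rw [ep]; refine le_trans (le_of_eq ?_) hq; push_cast; ring)
    rw [ep, es] at H
    obtain ⟨i₀, hi₀⟩ : ∃ i₀, d i₀ ≠ 0 := by
      by_contra hc
      push Not at hc
      simp [hc] at hd
    -- split off the invariant factor
    obtain ⟨u, Θ', hu, hinv, hprod, hΘ'⟩ : ∃ (u : k[X] → ℝ) (Θ' : ι → k[X] → ℝ),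
        (∀ A, |u A| ≤ 1) ∧ (∀ A t, u (A + W i₀ * t) = u A) ∧
        (∀ A, ∏ i, Θ i A = u A * ∏ i, Θ' i A) ∧
        ∀ t i, vdcq_Kl (Function.update d i₀ (d i₀ - 1) i) (W i)
          fun A => Θ' i A * Θ' i (A + W i₀ * t) := by
      by_cases h1 : d i₀ = 1
      · have hk := hΘ i₀
        rw [h1] at hk
        refine ⟨Θ i₀, Function.update Θ i₀ fun _ => 1, vdcq_Kl_abs hk, vdcq_Kl_inv hk, fun A => ?_,
          fun t i => ?_⟩
        · rw [← mul_prod_erase univ _ (mem_univ i₀),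
            ← mul_prod_erase univ (fun i => Function.update Θ i₀ (fun _ => 1) i A) (mem_univ i₀),
            Function.update_self, one_mul]
          congr 1
          exact prod_congr rfl fun i hi => by rw [Function.update_of_ne (ne_of_mem_erase hi)]
        · by_cases hi : i = i₀
          · subst hi
            rw [Function.update_self, Function.update_self, h1]
            intro A; simp
          · rw [Function.update_of_ne hi, Function.update_of_ne hi]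
            exact vdcq_Kl_dlt (hΘ i) _
      · refine ⟨fun _ => 1, Θ, by simp, by simp, by simp, fun t i => ?_⟩
        by_cases hi : i = i₀
        · subst hi
          obtain ⟨n, hn⟩ : ∃ n, d i = n + 2 := ⟨d i - 2, by omega⟩
          have hk := hΘ i
          rw [hn] at hk
          rw [Function.update_self, hn]
          exact vdcq_Kl_low hk t
        · rw [Function.update_of_ne hi]
          exact vdcq_Kl_dlt (hΘ i) _
    have hsum : ∑ i, Function.update d i₀ (d i₀ - 1) i = N := by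
      rw [sum_update_of_mem (mem_univ i₀)]
      rw [← add_sum_erase univ d (mem_univ i₀), ← sdiff_singleton_eq_erase] at hd
      omega
    set φ : k[X] → ℝ := fun A => (∏ a ∈ S, Φ (A + a)) * ∏ i, Θ' i A with hφ
    have cs := vdcq_cs (hl i₀) u φ hu hinv
    have hF : ∀ A, |∏ a ∈ S, Φ (A + a)| ≤ 1 := fun A => by
      rw [abs_prod]; exact prod_le_one (fun _ _ => abs_nonneg _) fun a _ => hΦ _
    have key : ∀ t ∈ box k K, 𝔼 A ∈ box k l, φ A * φ (A + W i₀ * t) ≤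
        2 * ρ ^ 2 + ∑ a ∈ S, ∑ b ∈ S, (if p ∣ a - b + W i₀ * t then (1 : ℝ) else 0) := by
      intro t _
      have hnn : ∀ a ∈ S, (0 : ℝ) ≤ ∑ b ∈ S, (if p ∣ a - b + W i₀ * t then (1 : ℝ) else 0) :=
        fun a _ => sum_nonneg fun b _ => by split_ifs <;> norm_num
      have hsplit : ∀ A, φ A * φ (A + W i₀ * t) =
          ((∏ a ∈ S, Φ (A + a)) * ∏ a ∈ S, Φ (A + W i₀ * t + a)) *
            ∏ i, (Θ' i A * Θ' i (A + W i₀ * t)) := fun A => by
        rw [prod_mul_distrib]; simp only [hφ]; ring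
      by_cases hg : ∀ a ∈ S, ∀ b ∈ S, ¬ p ∣ a - b + W i₀ * t
      · obtain ⟨g1, g2⟩ := vdcq_double h3 hg
        have := H _ W (fun i A => Θ' i A * Θ' i (A + W i₀ * t)) p Φ l hsum hp hK hW
          hl (hΘ' t) hΦ hb _ (h1.mono subset_union_left)
          ((card_union_le _ _).trans (by have := card_image_le (s := S) (f := (· + W i₀ * t)); omega))
          g1
        simp only [g2] at this
        simp only [hsplit]
        have h0 := sum_nonneg hnn
        linarith [le_abs_self (𝔼 A ∈ box k l, ((∏ a ∈ S, Φ (A + a)) *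
          ∏ a ∈ S, Φ (A + W i₀ * t + a)) * ∏ i, (Θ' i A * Θ' i (A + W i₀ * t)))]
      · push Not at hg
        obtain ⟨a, ha, b, hb', hab⟩ := hg
        have g1 : (1 : ℝ) ≤ ∑ a ∈ S, ∑ b ∈ S, (if p ∣ a - b + W i₀ * t then (1 : ℝ) else 0) := by
          refine le_trans ?_ (single_le_sum hnn ha)
          refine le_trans ?_ (single_le_sum (f := fun b =>
            if p ∣ a - b + W i₀ * t then (1 : ℝ) else 0)
            (fun b _ => by split_ifs <;> norm_num) hb')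
          simp [hab]
        have g2 : 𝔼 A ∈ box k l, φ A * φ (A + W i₀ * t) ≤ 1 := by
          refine expect_le (box_nonempty l) fun A _ => (le_abs_self _).trans ?_
          rw [hsplit, abs_mul, abs_mul]
          refine mul_le_one₀ (mul_le_one₀ (hF _) (abs_nonneg _) (hF _)) (abs_nonneg _) ?_
          rw [abs_prod]
          exact prod_le_one (fun _ _ => abs_nonneg _) fun i _ => vdcq_Kl_abs (hΘ' t i) A
        have : 0 < ρ ^ 2 := by positivity
        linarith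
    have tot : 𝔼 t ∈ box k K, 𝔼 A ∈ box k l, φ A * φ (A + W i₀ * t) ≤ (2 * ρ) ^ 2 := by
      refine (expect_le_expect key).trans ?_
      rw [expect_add_distrib, expect_const (box_nonempty _), expect_sum_comm]
      have b1 : ∑ a ∈ S, 𝔼 t ∈ box k K,
          ∑ b ∈ S, (if p ∣ a - b + W i₀ * t then (1 : ℝ) else 0)
            ≤ ∑ a ∈ S, ∑ b ∈ S, 1 / qq k ^ K := by
        refine sum_le_sum fun a _ => ?_
        rw [expect_sum_comm]
        exact sum_le_sum fun b _ => vdcq_one hp hK (hW i₀)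
      rw [sum_const, sum_const, nsmul_eq_mul, nsmul_eq_mul] at b1
      have hs : (#S : ℝ) ≤ 2 ^ (N + 1) * s := by
        have a1 : (#S : ℝ) ≤ s := by exact_mod_cast h2
        have a2 : (1 : ℝ) ≤ 2 ^ (N + 1) := one_le_pow₀ one_le_two
        exact a1.trans (le_mul_of_one_le_left (Nat.cast_nonneg _) a2)
      have hq0 : (0 : ℝ) < qq k ^ K := pow_pos (lt_of_lt_of_le two_pos two_le_qq) _
      have hr : ρ ^ 2 ^ (N + 1) ≤ ρ ^ 2 :=
        pow_le_pow_of_le_one hρ.le hρ1 (by rw [pow_succ]; have := Nat.one_le_two_pow (n := N); omega)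
      have b2 : (#S : ℝ) * (#S * (1 / qq k ^ K)) ≤ ρ ^ 2 := by
        rw [← mul_assoc, mul_one_div, div_le_iff₀ hq0, ← sq]
        exact (pow_le_pow_left₀ (Nat.cast_nonneg _) hs 2).trans
          (hq.trans (mul_le_mul_of_nonneg_right hr hq0.le))
      nlinarith [sq_nonneg ρ]
    have e : 𝔼 A ∈ box k l, (∏ a ∈ S, Φ (A + a)) * ∏ i, Θ i A = 𝔼 A ∈ box k l, u A * φ A :=
      expect_congr rfl fun A _ => by rw [hprod]; simp only [hφ]; ring
    rw [e]
    exact abs_le_of_sq_le_sq' (cs.trans tot) (by positivity) |> abs_le.2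

theorem vdcQ (ι : Type) [Fintype ι] (δ s : ℕ) : ∃ s' : ℕ, ∀ c₀ : ℝ, ∃ c₁ : ℝ,
    ∀ (W : ι → k[X]) (Θ : ι → k[X] → ℝ) (p : k[X]) (Φ : k[X] → ℝ) (l K : ℕ) (x : ℝ),
      Irreducible p → K ≤ p.natDegree → (∀ i, ¬ p ∣ W i) → (∀ i, (W i).natDegree + K ≤ l) →
      (∀ i, Kill δ (W i) (Θ i)) → (∀ A, |Φ A| ≤ 1) → 0 ≤ x → x ≤ 1 →
      1 / qq k ^ K ≤ x ^ 2 ^ (Fintype.card ι * (δ + 1)) →
      (∀ S : Finset k[X], S.Nonempty → #S ≤ s' → Inc p S →
        |𝔼 A ∈ box k l, ∏ a ∈ S, Φ (A + a)| ≤ c₀ * x ^ 2 ^ (Fintype.card ι * (δ + 1))) →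
      ∀ S : Finset k[X], S.Nonempty → #S ≤ s → Inc p S →
        |𝔼 A ∈ box k l, (∏ a ∈ S, Φ (A + a)) * ∏ i, Θ i A| ≤ c₁ * x := by
  obtain ⟨N, hN⟩ : ∃ N, Fintype.card ι * (δ + 1) = N := ⟨_, rfl⟩
  rw [hN]
  refine ⟨2 ^ N * s, fun c₀ => ?_⟩
  obtain ⟨a, a1, a2, a3⟩ : ∃ a : ℝ, 1 ≤ a ∧ c₀ ≤ a ∧ ((2 : ℝ) ^ N * s) ^ 2 ≤ a :=
    ⟨max 1 (max c₀ _), le_max_left _ _, le_max_of_le_right (le_max_left _ _),
      le_max_of_le_right (le_max_right _ _)⟩
  refine ⟨2 * a, fun W Θ p Φ l K x hp hK hW hl hΘ hΦ hx0 hx1 hq hb S h1 h2 h3 => ?_⟩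
  have hq0 : (0 : ℝ) < qq k ^ K := pow_pos (lt_of_lt_of_le two_pos two_le_qq) _
  have hxN : 0 < x ^ 2 ^ N := lt_of_lt_of_le (by positivity) hq
  have hx : 0 < x := lt_of_le_of_ne hx0 fun h => by
    rw [← h, zero_pow (by positivity)] at hxN; exact lt_irrefl _ hxN
  have ha : a * x ^ 2 ^ N ≤ (a * x) ^ 2 ^ N := by
    rw [mul_pow]
    exact mul_le_mul_of_nonneg_right (le_self_pow₀ a1 (by positivity)) hxN.le
  by_cases hρ : a * x ≤ 1
  · rw [mul_assoc]
    refine vdcq_gen ι K N s (a * x) (by positivity) hρ ?_ (fun _ => δ + 1) W Θ p Φ l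
      (by simpa using hN) hp hK hW hl hΘ hΦ (fun S g1 g2 g3 => (hb S g1 g2 g3).trans
        ((mul_le_mul_of_nonneg_right a2 hxN.le).trans ha)) S h1 h2 h3
    rw [div_le_iff₀ hq0] at hq
    calc ((2 : ℝ) ^ N * s) ^ 2 ≤ a * (x ^ 2 ^ N * qq k ^ K) :=
          a3.trans (le_mul_of_one_le_right (by linarith) hq)
      _ ≤ _ := by rw [← mul_assoc]; exact mul_le_mul_of_nonneg_right ha hq0.le
  · refine (abs_expect_le _ _).trans ((expect_le (box_nonempty l) fun A _ => ?_).trans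
      (by linarith : (1 : ℝ) ≤ 2 * a * x))
    rw [abs_mul, abs_prod, abs_prod]
    exact mul_le_one₀ (prod_le_one (fun _ _ => abs_nonneg _) fun a _ => hΦ _)
      (prod_nonneg fun _ _ => abs_nonneg _) (prod_le_one (fun _ _ => abs_nonneg _)
        fun i _ => vdcq_Kl_abs (n := δ + 1) (W := W i) (hΘ i) A)

end
end

section
section
variable {k : Type} [Field k] [Fintype k]

theorem line_kill {n : ℕ} {W : k[X]} {Θ : k[X] → ℝ} (h : Kill n W Θ) (A g : k[X]) :
    Kill n W fun s => if IsCoprime (A + g * s) W then Θ (A + g * s) else 0 := by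
  intro s
  have e : ∀ t, A + g * (s + W * t) = A + g * s + W * (g * t) := fun t => by ring
  by_cases hc : IsCoprime (A + g * s) W
  · obtain ⟨c, F, h1, h2, h3⟩ := h (A + g * s)
    refine ⟨c, fun t => F (g * t), h1, h2.comp _ fun a b => mul_add _ _ _, fun t => ?_⟩
    simp only [e, IsCoprime.add_mul_left_left_iff, if_pos hc, h3]
  · refine ⟨0, fun _ => 0, by simp, PDeg.const _ _, fun t => ?_⟩
    simp only [e, IsCoprime.add_mul_left_left_iff, if_neg hc, zero_mul]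

theorem line_abs {n : ℕ} {W : k[X]} {Θ : k[X] → ℝ} (h : Kill n W Θ) (A : k[X]) : |Θ A| ≤ 1 := by
  obtain ⟨c, F, h1, -, h3⟩ := h A
  have := h3 0
  rw [mul_zero, add_zero] at this
  rw [this, abs_mul]
  unfold psi
  split_ifs <;> simpa using h1

theorem line_deg {A g s : k[X]} {m l : ℕ} (hA : A.natDegree ≤ m) (hg : g.natDegree + l ≤ m + 1)
    (hs : s ∈ box k l) : (A + g * s).natDegree ≤ m := by
  rcases eq_or_ne s 0 with rfl | h0
  · simpa using hA
  rw [mem_box, ← natDegree_lt_iff_degree_lt h0] at hs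
  have := natDegree_mul_le (p := g) (q := s)
  exact (natDegree_add_le _ _).trans (max_le hA (by omega))

variable [CharP k 2]

theorem line : ∃ c₀ : ℝ, ∀ (p r₁ p₂ r₂ g A₁ A₂ : k[X]) (ρ : k) (m l K : ℕ) (x : ℝ),
    p.Monic → Irreducible p → p₂.Monic → Irreducible p₂ → r₁.Monic → r₂.Monic →
    (p * r₁).natDegree = m → (p₂ * r₂).natDegree = m → ¬ p ∣ r₁ → ¬ p₂ ∣ r₂ → ¬ p ∣ p₂ * r₂ →
    ¬ p ∣ g → A₁.natDegree ≤ m → A₂.natDegree ≤ m → g.natDegree + l ≤ m + 1 →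
    2 * p.natDegree ≤ l → K ≤ p.natDegree → r₁.natDegree + K ≤ l → p₂.natDegree + K ≤ l →
    r₂.natDegree + K ≤ l → 0 ≤ x → x ≤ 1 → 1 / qq k ^ K ≤ x ^ 2 ^ 59 →
    |𝔼 s ∈ box k l, mu ((A₁ + g * s) ^ 2 + X * (p * r₁) ^ 2) *
      mu ((A₂ + C ρ * g * s) ^ 2 + X * (p₂ * r₂) ^ 2)| ≤ c₀ * x := by
  obtain ⟨s', hs'⟩ := vdcQ (k := k) (Fin 3) 18 1
  have n1 : 2 ^ (Fintype.card (Fin 3) * (18 + 1)) * 4 = 2 ^ 59 := by norm_num
  have n2 : 2 ^ (Fintype.card (Fin 3) * (18 + 1)) ≠ 0 := by norm_num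
  generalize 2 ^ (Fintype.card (Fin 3) * (18 + 1)) = M at hs' n1 n2
  generalize 2 ^ 59 = N at n1
  subst n1
  obtain ⟨c₁, hc₁⟩ := hs' (2 * s' + 4)
  refine ⟨c₁ + 1, fun p r₁ p₂ r₂ g A₁ A₂ ρ m l K x hp hi hp₂ hi₂ hr₁ hr₂ d₁ d₂ n₁ n₂ n₃ n₄ a₁ a₂
    hl l₁ l₂ l₃ l₄ l₅ x0 x1 hx => ?_⟩
  obtain ⟨Φ, Θ, f1, -, f3, f4, f5⟩ := loc hp hi hr₁ n₁
  obtain ⟨Φ₂, Θ₂, -, g2, g3, g4, -⟩ := loc hp₂ hi₂ hr₂ n₂
  have q2 := two_le_qq (k := k)
  have q1 : 1 ≤ qq k := by linarith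
  have pg : IsCoprime p g := hi.coprime_iff_not_dvd.2 n₄
  obtain ⟨u, g', hg'⟩ := pg
  obtain ⟨v, G, hG⟩ : IsCoprime p r₁ := hi.coprime_iff_not_dvd.2 n₁
  have pG : ¬ p ∣ G := fun h => hi.not_dvd_one (hG ▸ dvd_add (dvd_mul_left _ _) (h.mul_right _))
  have pp : ¬ p ∣ derivative p := fun h =>
    hi.not_isUnit ((PerfectField.separable_of_irreducible hi).isUnit_of_dvd' dvd_rfl h)
  set α := A₁ * g' with hα
  set Ψ : k[X] → ℝ := fun s => Φ (A₁ + g * (s - α)) with hΨ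
  have Φ1 : ∀ A, |Φ A| = 1 := fun A => by
    rcases mul_self_eq_one_iff.1 (f1 A) with h | h <;> simp [h]
  have hκ : ¬ p ∣ derivative p ^ 2 * G ^ 2 * g ^ 2 := fun h => by
    rcases hi.prime.dvd_or_dvd h with h | h
    · rcases hi.prime.dvd_or_dvd h with h | h
      · exact pp (hi.prime.dvd_of_dvd_pow h)
      · exact pG (hi.prime.dvd_of_dvd_pow h)
    · exact n₄ (hi.prime.dvd_of_dvd_pow h)
  have d2 : ∀ A y z U, p ∣ A * U - 1 →
      Ψ A * Ψ (A + p * y) * Ψ (A + p * z) * Ψ (A + p * y + p * z) =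
        psi (tau p (derivative p ^ 2 * G ^ 2 * g ^ 2 * U * (y ^ 2 * z + y * z ^ 2))) := by
    rintro A y z U ⟨t, ht⟩
    have := f5 (A₁ + g * (A - α)) (g * y) (g * z) (g' * U) G
      ⟨t + u * (A₁ * g' * U - A * U), by
        rw [hα]
        linear_combination ht + (A * U - A₁ * g' * U) * hg'⟩ ⟨-v, by linear_combination hG⟩
    simp only [hΨ]
    rw [show A₁ + g * (A + p * y - α) = A₁ + g * (A - α) + p * (g * y) by ring,
      show A₁ + g * (A + p * z - α) = A₁ + g * (A - α) + p * (g * z) by ring,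
      show A₁ + g * (A + p * y + p * z - α) = A₁ + g * (A - α) + p * (g * y) + p * (g * z) by ring,
      this]
    congr 1
    exact tau_congr hp ⟨-u * (derivative p ^ 2 * G ^ 2 * g ^ 2 * U * (y ^ 2 * z + y * z ^ 2)), by
      linear_combination (derivative p ^ 2 * G ^ 2 * g ^ 2 * U * (y ^ 2 * z + y * z ^ 2)) * hg'⟩
  have e1 : 1 / qq k ^ p.natDegree ≤ x ^ (M * 4) :=
    (one_div_le_one_div_of_le (by positivity) (pow_le_pow_right₀ q1 l₂)).trans hx
  have key := hc₁ ![r₁, p₂, r₂]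
    ![fun s => if IsCoprime (A₁ + g * s) r₁ then Θ (A₁ + g * s) else 0,
      fun s => if IsCoprime (A₂ + C ρ * g * s) p₂ then Φ₂ (A₂ + C ρ * g * s) else 0,
      fun s => if IsCoprime (A₂ + C ρ * g * s) r₂ then Θ₂ (A₂ + C ρ * g * s) else 0]
    p Ψ l K x hi l₂ (fun i => by
      fin_cases i
      · exact n₁
      · exact fun h => n₃ (Dvd.dvd.mul_right h _)
      · exact fun h => n₃ (Dvd.dvd.mul_left h _)) (fun i => by
      fin_cases i
      exacts [l₃, l₄, l₅]) (fun i => by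
      fin_cases i
      exacts [line_kill f3 _ _, line_kill g2 _ _, line_kill g3 _ _]) (fun A => (Φ1 _).le) x0 x1
    (hx.trans (pow_le_pow_of_le_one x0 x1 (by omega))) (fun S h0 hS hI => by
      have b := baseQ hp hi hκ l₁ (Φ := Ψ) (fun A => f1 _) d2 h0 hI
      have s1 : (#S : ℝ) ≤ s' := by exact_mod_cast hS
      have s2 : (1 : ℝ) ≤ 2 * s' + 4 := by linarith [Nat.cast_nonneg (α := ℝ) s']
      refine le_of_pow_le_pow_left₀ (n := 4) (by norm_num) (by positivity) ?_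
      rw [← abs_pow, abs_of_nonneg (by positivity), mul_pow, ← pow_mul]
      refine b.trans ?_
      rw [div_eq_mul_one_div]
      exact mul_le_mul ((by linarith : _ ≤ 2 * (s' : ℝ) + 4).trans
        (le_self_pow₀ s2 (by norm_num))) e1 (by positivity) (by positivity))
    {α} (singleton_nonempty _) (by simp) (fun a ha b hb _ => by
      rw [mem_singleton.1 ha, mem_singleton.1 hb])
  simp only [prod_singleton, hΨ, add_sub_cancel_right, Fin.prod_univ_three, Matrix.cons_val_zero,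
    Matrix.cons_val_one, Matrix.cons_val_two, Matrix.head_cons, Matrix.tail_cons] at key
  have e2 := exp_box_dvd hp.ne_zero (show p.natDegree ≤ l by omega)
    (show IsCoprime g p from ⟨g', u, by linear_combination hg'⟩) A₁
  have e3 : x ^ (M * 4) ≤ x := pow_le_of_le_one x0 x1 (by omega)
  set T : k[X] → ℝ := fun s => Φ (A₁ + g * s) *
    ((if IsCoprime (A₁ + g * s) r₁ then Θ (A₁ + g * s) else 0) *
      (if IsCoprime (A₂ + C ρ * g * s) p₂ then Φ₂ (A₂ + C ρ * g * s) else 0) *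
      if IsCoprime (A₂ + C ρ * g * s) r₂ then Θ₂ (A₂ + C ρ * g * s) else 0) with hT
  have T1 : ∀ s, |T s| ≤ 1 := fun s => by
    simp only [hT, abs_mul, Φ1, one_mul]
    exact mul_le_one₀ (mul_le_one₀ (line_abs (line_kill f3 A₁ g) s) (abs_nonneg _)
      (line_abs (line_kill g2 A₂ (C ρ * g)) s)) (abs_nonneg _)
      (line_abs (line_kill g3 A₂ (C ρ * g)) s)
  have pt : ∀ s ∈ box k l, |mu ((A₁ + g * s) ^ 2 + X * (p * r₁) ^ 2) *
      mu ((A₂ + C ρ * g * s) ^ 2 + X * (p₂ * r₂) ^ 2) - T s| ≤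
        if p ∣ A₁ + g * s then (1 : ℝ) else 0 := by
    intro s hs
    have b1 := line_deg a₁ hl hs
    have b2 := line_deg a₂ ((Nat.add_le_add_right (natDegree_C_mul_le ρ g) l).trans hl) hs
    rw [mu_ab, mu_ab]
    by_cases c0 : p ∣ A₁ + g * s
    · rw [if_pos c0, if_neg fun h : IsCoprime _ (p * r₁) =>
        hi.not_isUnit (h.isUnit_of_dvd' c0 (dvd_mul_right _ _)), zero_mul, zero_sub, abs_neg]
      exact T1 s
    have c1 : IsCoprime (A₁ + g * s) p := (hi.coprime_iff_not_dvd.2 c0).symm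
    rw [if_neg c0, abs_nonpos_iff, sub_eq_zero]
    simp only [hT, IsCoprime.mul_right_iff, c1, true_and]
    by_cases c2 : IsCoprime (A₁ + g * s) r₁
    swap
    · simp [c2]
    by_cases c3 : IsCoprime (A₂ + C ρ * g * s) p₂
    swap
    · simp [c3]
    by_cases c4 : IsCoprime (A₂ + C ρ * g * s) r₂
    swap
    · simp [c4]
    simp only [c2, c3, c4, if_true, and_self]
    rw [f4 _ (d₁ ▸ b1) (c1.mul_right c2), g4 _ (d₂ ▸ b2) (c3.mul_right c4)]
    ring
  have fin := (Finset.abs_expect_le _ _).trans (Finset.expect_le_expect pt)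
  rw [Finset.expect_sub_distrib, e2] at fin
  have := abs_sub_abs_le_abs_sub (𝔼 s ∈ box k l, mu ((A₁ + g * s) ^ 2 + X * (p * r₁) ^ 2) *
      mu ((A₂ + C ρ * g * s) ^ 2 + X * (p₂ * r₂) ^ 2)) (𝔼 s ∈ box k l, T s)
  linarith

end
end

end Pool.Agent.MP_f0209c_nt.FF
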