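import Pool.Agent.MP_a4a062_nt.C2.Defs

/-! Definitions for small gaps between zeros of Dirichlet `L`-functions in characteristic two. -/

set_option autoImplicit false

open Polynomial Finset Filter
open scoped Classical BigOperators

noncomputable section
namespace Pool.Agent.MP_f0209c_nt.FF
open Pool.Agent.MP_a4a062_nt.C2

variable {k : Type} [Field k] [Fintype k]

/-- The Moebius function. -/
def mu (f : k[X]) : ℝ := if Squarefree f then lam f else 0

/-- The even half of `h = a ^ 2 + X * b ^ 2`. -/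
def aa (h : k[X]) : k[X] := Classical.epsilon fun a => ∃ b, h = a ^ 2 + X * b ^ 2

/-- The odd half of `h = a ^ 2 + X * b ^ 2`. -/
def bb (h : k[X]) : k[X] := Classical.epsilon fun b => ∃ a, h = a ^ 2 + X * b ^ 2

/-- The weight attached to the direction `g`. -/
def ww (c : k) (h : k[X]) (e : ℕ) (g f : k[X]) : ℝ := ∑ p ∈ prs k e, ∑ p₂ ∈ prs k (e + 1),
  if p ∣ bb (f * g) ∧ p₂ ∣ bb ((C c * f + h) * g) then 1 else 0

/-- The generic situation on a line. -/
def Good (c : k) (h g f p p₂ : k[X]) : Prop := ¬ g ∣ f ∧ ¬ g ∣ C c * f + h ∧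
  ¬ p ^ 2 ∣ bb (f * g) ∧ ¬ p₂ ^ 2 ∣ bb ((C c * f + h) * g) ∧ ¬ p ∣ bb (h * g)

/-- The characters modulo `Q` that are trivial on the constants. -/
def ev (Q : k[X]) : Finset (MulChar (AdjoinRoot Q) ℂ) :=
  if h : {χ : MulChar (AdjoinRoot Q) ℂ | ∀ c : k, c ≠ 0 → χ (AdjoinRoot.mk Q (C c)) = 1}.Finite
  then h.toFinset else ∅

/-- Coefficients of the `L`-function. -/
def AA (Q : k[X]) (χ : MulChar (AdjoinRoot Q) ℂ) (n : ℕ) : ℂ :=
  ∑ f ∈ mon k n, χ (AdjoinRoot.mk Q f)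

/-- Coefficients of the inverse of the `L`-function. -/
def MM (Q : k[X]) (χ : MulChar (AdjoinRoot Q) ℂ) (n : ℕ) : ℂ :=
  ∑ f ∈ mon k n, (mu f : ℂ) * χ (AdjoinRoot.mk Q f)

/-- Coefficients of the inverse of the unitarised `L`-function without its trivial zero. -/
def HH (Q : k[X]) (χ : MulChar (AdjoinRoot Q) ℂ) (n : ℕ) : ℂ :=
  (MM Q χ n - if n = 0 then 0 else MM Q χ (n - 1)) / ((√(qq k) : ℝ) : ℂ) ^ n

variable (k)

/-- The mean of the weight. -/
def DD (e : ℕ) : ℝ := (#(prs k e) : ℝ) * (#(prs k (e + 1)) : ℝ) / qq k ^ (2 * e + 1)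

/-- The number of squarefree monic polynomials of degree `n`. -/
def sqf (n : ℕ) : ℝ := ∑ f ∈ mon k n, mu f ^ 2

end Pool.Agent.MP_f0209c_nt.FF
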