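import Pool.Agent.MP_f0209c_nt.FF.Defs

/-! The sign inequality on the circle, power series, numerics and a law of large numbers. -/

set_option autoImplicit false

open Polynomial Finset Filter
open scoped Classical BigOperators

noncomputable section
namespace Pool.Agent.MP_f0209c_nt.FF
open Pool.Agent.MP_a4a062_nt.C2

section
section RowSIGN
open Complex

theorem sign_one_sub (x : ℝ) :
    1 - exp (x * I) = -2 * I * exp ((x / 2 : ℝ) * I) * (Real.sin (x / 2) : ℝ) := by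
  have h1 : exp (x * I) = exp ((x / 2 : ℝ) * I) * exp ((x / 2 : ℝ) * I) := by
    rw [← exp_add]; congr 1; push_cast; ring
  have h2 : exp ((x / 2 : ℝ) * I) * exp (-((x / 2 : ℝ) : ℂ) * I) = 1 := by
    rw [← exp_add]; simp
  have h3 : ((Real.sin (x / 2) : ℝ) : ℂ)
      = (exp (-((x / 2 : ℝ) : ℂ) * I) - exp ((x / 2 : ℝ) * I)) * I / 2 := by
    rw [ofReal_sin, Complex.sin]
  rw [h1, h3]
  have h4 : I * I = -1 := I_mul_I
  linear_combination (-1) * h2 +
    (exp ((x / 2 : ℝ) * I) * (exp (-((x / 2 : ℝ) : ℂ) * I) - exp ((x / 2 : ℝ) * I))) * h4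

theorem sign_fac (φ h : ℝ) (hh : 0 < h) (H : ∀ m : ℤ, h < |φ - 2 * Real.pi * m|) :
    ∃ t : ℝ, 0 ≤ t ∧ 1 - exp (φ * I) ≠ 0 ∧
      1 - exp (h * I) * exp (φ * I) = exp ((h / 2 : ℝ) * I) * t * (1 - exp (φ * I)) := by
  have hpi := Real.pi_pos
  set m : ℤ := ⌊φ / (2 * Real.pi)⌋ with hm
  set ψ : ℝ := φ - 2 * Real.pi * m with hψ
  have h0 : 0 ≤ ψ := by
    have := Int.floor_le (φ / (2 * Real.pi))
    rw [le_div_iff₀ (by positivity)] at this
    rw [hψ]; linarith
  have h1 : ψ < 2 * Real.pi := by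
    have := Int.lt_floor_add_one (φ / (2 * Real.pi))
    rw [div_lt_iff₀ (by positivity)] at this
    rw [hψ]; linarith
  have h2 : h < ψ := by
    have := H m
    rwa [abs_of_nonneg h0] at this
  have h3 : ψ + h < 2 * Real.pi := by
    have := H (m + 1)
    push_cast at this
    rw [abs_of_nonpos (by linarith)] at this
    linarith
  have he : exp (φ * I) = exp (ψ * I) := by
    have : (φ : ℂ) * I = ψ * I + m * (2 * Real.pi * I) := by
      rw [hψ]; push_cast; ring
    rw [this, exp_add, exp_int_mul_two_pi_mul_I, mul_one]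
  have s1 : 0 < Real.sin (ψ / 2) := Real.sin_pos_of_pos_of_lt_pi (by linarith) (by linarith)
  have s2 : 0 < Real.sin ((ψ + h) / 2) := Real.sin_pos_of_pos_of_lt_pi (by linarith) (by linarith)
  have s1' : ((Real.sin (ψ / 2) : ℝ) : ℂ) ≠ 0 := by exact_mod_cast s1.ne'
  refine ⟨Real.sin ((ψ + h) / 2) / Real.sin (ψ / 2), by positivity, ?_, ?_⟩
  · rw [he, sign_one_sub]
    exact mul_ne_zero (mul_ne_zero (mul_ne_zero (by norm_num) I_ne_zero) (exp_ne_zero _)) s1'
  · have e1 : exp (h * I) * exp (ψ * I) = exp (((ψ + h : ℝ) : ℂ) * I) := by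
      rw [← exp_add]; congr 1; push_cast; ring
    have e2 : exp ((((ψ + h) / 2 : ℝ) : ℂ) * I) = exp ((h / 2 : ℝ) * I) * exp ((ψ / 2 : ℝ) * I) := by
      rw [← exp_add]; congr 1; push_cast; ring
    rw [he, e1, sign_one_sub, sign_one_sub, e2, ofReal_div (Real.sin _) (Real.sin _)]
    field_simp

theorem sign_lin (a : ℂ) (ha : a ≠ 0) :
    (1 - C a * X : ℂ[X]).degree = 1 ∧ (1 - C a * X : ℂ[X]).leadingCoeff = -a := by
  have : (1 - C a * X : ℂ[X]) = C (-a) * X + C 1 := by simp; ring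
  rw [this]
  exact ⟨degree_linear (neg_ne_zero.2 ha), leadingCoeff_linear (neg_ne_zero.2 ha)⟩

theorem sign_lagr {N : ℕ} (z : Fin N → ℂ) (w : ℂ) (hw : w ≠ 0) (hz : ∀ j, z j ≠ 0)
    (c : Fin N → ℂ) (hne : ∀ j l, l ≠ j → 1 - z l * (z j)⁻¹ ≠ 0)
    (hc : ∀ j, c j * ∏ l ∈ univ.erase j, (1 - z l * (z j)⁻¹) = ∏ l, (1 - w * z l * (z j)⁻¹)) :
    (∏ l, (1 - C (w * z l) * X) : ℂ[X]) = C (w ^ N) * ∏ l, (1 - C (z l) * X)
      + ∑ j, C (c j) * ∏ l ∈ univ.erase j, (1 - C (z l) * X) := by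
  have hinj : Set.InjOn (fun j => (z j)⁻¹) (univ : Finset (Fin N)) := by
    intro i _ j _ hij
    by_contra hn
    apply hne j i hn
    simp only at hij
    rw [← hij, mul_inv_cancel₀ (hz i), sub_self]
  have d1 : (∏ l, (1 - C (w * z l) * X) : ℂ[X]).degree = N := by
    rw [degree_prod, sum_congr rfl fun l _ => (sign_lin _ (mul_ne_zero hw (hz l))).1]
    simp
  have d2 : (C (w ^ N) * ∏ l, (1 - C (z l) * X) : ℂ[X]).degree = N := by
    rw [degree_C_mul (pow_ne_zero _ hw), degree_prod, sum_congr rfl fun l _ => (sign_lin _ (hz l)).1]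
    simp
  have l1 : (∏ l, (1 - C (w * z l) * X) : ℂ[X]).leadingCoeff
      = (C (w ^ N) * ∏ l, (1 - C (z l) * X) : ℂ[X]).leadingCoeff := by
    rw [leadingCoeff_mul, leadingCoeff_C, leadingCoeff_prod, leadingCoeff_prod,
      prod_congr rfl fun l _ => (sign_lin _ (mul_ne_zero hw (hz l))).2,
      prod_congr rfl fun l _ => (sign_lin _ (hz l)).2]
    have : ∀ l, -(w * z l) = w * (-(z l)) := fun l => by ring
    simp only [this, prod_mul_distrib, prod_const, card_univ, Fintype.card_fin]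
  have n1 : (∏ l, (1 - C (w * z l) * X) : ℂ[X]) ≠ 0 := by
    intro h0; rw [h0] at d1; simp at d1
  have d3 := degree_sub_lt_left (d1.trans d2.symm) n1 l1
  rw [d1] at d3
  have d4 : (∑ j, C (c j) * ∏ l ∈ univ.erase j, (1 - C (z l) * X) : ℂ[X]).degree < N := by
    refine lt_of_le_of_lt (degree_sum_le _ _) ?_
    refine (Finset.sup_lt_iff (WithBot.bot_lt_coe N)).2 ?_
    intro j _
    refine lt_of_le_of_lt (degree_mul_le _ _) ?_
    rw [degree_prod, sum_congr rfl fun l _ => (sign_lin _ (hz l)).1]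
    have hN : 0 < N := j.pos
    simp only [sum_const, card_erase_of_mem (mem_univ j), card_univ, Fintype.card_fin,
      nsmul_eq_mul, mul_one]
    calc (C (c j)).degree + ((N - 1 : ℕ) : WithBot ℕ) ≤ 0 + ((N - 1 : ℕ) : WithBot ℕ) := by
          gcongr; exact degree_C_le
      _ < N := by rw [zero_add]; exact_mod_cast Nat.sub_lt hN one_pos
  refine eq_of_degree_sub_lt_of_eval_index_eq (s := univ) hinj ?_ ?_
  · rw [← sub_sub, card_univ, Fintype.card_fin]
    exact lt_of_le_of_lt (degree_sub_le _ _) (max_lt d3 d4)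
  · intro j _
    simp only [eval_add, eval_mul, eval_C, eval_prod, eval_sub, eval_one, eval_X, eval_finsetSum]
    have hz0 : ∀ s : Finset (Fin N), j ∈ s → ∏ l ∈ s, (1 - z l * (z j)⁻¹) = 0 := fun s hs =>
      prod_eq_zero hs (by rw [mul_inv_cancel₀ (hz j), sub_self])
    rw [hz0 _ (mem_univ j), mul_zero, zero_add, sum_eq_single j, hc]
    · intro i _ hij
      rw [hz0 _ (mem_erase.2 ⟨hij.symm, mem_univ j⟩), mul_zero]
    · simp

theorem sign_ex (b : ℕ → ℂ) (z : ℂ) :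
    ∃ B : ℕ → ℂ, B 0 = b 0 ∧ ∀ n, B (n + 1) = z * B n + b (n + 1) :=
  ⟨fun n => Nat.rec (b 0) (fun n x => z * x + b (n + 1)) n, rfl, fun _ => rfl⟩

theorem sign_B (b B : ℕ → ℂ) (z : ℂ) (h0 : B 0 = b 0) (h1 : ∀ n, B (n + 1) = z * B n + b (n + 1)) :
    PowerSeries.mk B * (1 - PowerSeries.C z * PowerSeries.X) = PowerSeries.mk b := by
  ext n
  rw [mul_sub, mul_one, ← mul_assoc, map_sub]
  cases n with
  | zero => simp [h0]
  | succ n => rw [PowerSeries.coeff_succ_mul_X, PowerSeries.coeff_mul_C]; simp [h1]; ring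

theorem sign_rec {N : ℕ} (z : Fin N → ℂ) (w : ℂ) (hw : w ≠ 0) (hz : ∀ j, z j ≠ 0)
    (c : Fin N → ℂ) (hne : ∀ j l, l ≠ j → 1 - z l * (z j)⁻¹ ≠ 0)
    (hc : ∀ j, c j * ∏ l ∈ univ.erase j, (1 - z l * (z j)⁻¹) = ∏ l, (1 - w * z l * (z j)⁻¹))
    (H : ℕ → ℂ) (hH : PowerSeries.mk H * ∏ l, (1 - PowerSeries.C (z l) * PowerSeries.X) = 1)
    (B : Fin N → ℕ → ℂ) (B0 : ∀ j, B j 0 = w ^ 0 * H 0)
    (B1 : ∀ j n, B j (n + 1) = z j * B j n + w ^ (n + 1) * H (n + 1)) :
    1 = w ^ N + ∑ j, c j ∧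
    ∀ n, H n = w ^ N * (w ^ n * H n) + ∑ j, c j * B j n := by
  have L := sign_lagr z w hw hz c hne hc
  constructor
  · have := congrArg (Polynomial.eval 0) L
    simpa [Polynomial.eval_prod, Polynomial.eval_finsetSum] using this
  have L' : (∏ l, (1 - PowerSeries.C (w * z l) * PowerSeries.X) : PowerSeries ℂ)
      = PowerSeries.C (w ^ N) * ∏ l, (1 - PowerSeries.C (z l) * PowerSeries.X)
      + ∑ j, PowerSeries.C (c j) * ∏ l ∈ univ.erase j, (1 - PowerSeries.C (z l) * PowerSeries.X) := by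
    have := congrArg Polynomial.coeToPowerSeries.ringHom L
    simpa only [map_prod, map_add, map_sum, map_mul, map_sub, map_one,
      Polynomial.coeToPowerSeries.ringHom_apply, Polynomial.coe_C, Polynomial.coe_X] using this
  have hW : PowerSeries.mk (fun m => w ^ m * H m) * ∏ l, (1 - PowerSeries.C (w * z l) * PowerSeries.X) = 1 := by
    have := congrArg (PowerSeries.rescale w) hH
    rw [map_mul, map_one, map_prod, PowerSeries.rescale_mk] at this
    have e : ∀ l, PowerSeries.rescale w (1 - PowerSeries.C (z l) * PowerSeries.X) = 1 - PowerSeries.C (w * z l) * PowerSeries.X := by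
      intro l
      ext n
      simp only [map_sub, PowerSeries.coeff_rescale, PowerSeries.coeff_C_mul, PowerSeries.coeff_one,
        PowerSeries.coeff_X]
      split_ifs with h1 h2 h2
      · omega
      · simp [h1]
      · simp [h2]
      · simp
    simpa only [e] using this
  have key : PowerSeries.mk H = PowerSeries.C (w ^ N) * PowerSeries.mk (fun m => w ^ m * H m)
      + ∑ j, PowerSeries.C (c j) * PowerSeries.mk (B j) := by
    have e : ∀ j, PowerSeries.C (c j) * PowerSeries.mk (B j)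
        = PowerSeries.mk H * PowerSeries.mk (fun m => w ^ m * H m) *
          (PowerSeries.C (c j) * ∏ l ∈ univ.erase j, (1 - PowerSeries.C (z l) * PowerSeries.X)) := by
      intro j
      rw [← sign_B (fun m => w ^ m * H m) (B j) (z j) (B0 j) (B1 j)]
      rw [← mul_prod_erase univ _ (mem_univ j)] at hH
      linear_combination (-(PowerSeries.C (c j) *
        PowerSeries.mk (B j))) * hH
    rw [sum_congr rfl fun j _ => e j, ← mul_sum]
    linear_combination (-PowerSeries.mk H) * hW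
      + (PowerSeries.mk H * PowerSeries.mk (fun m => w ^ m * H m)) * L'
      + (PowerSeries.C (w ^ N) * PowerSeries.mk (fun m => w ^ m * H m)) * hH
  intro n
  have := congrArg (PowerSeries.coeff n) key
  simpa only [map_add, map_sum, PowerSeries.coeff_C_mul, PowerSeries.coeff_mk] using this

theorem sign_main {N : ℕ} (th : Fin N → ℝ) (h : ℝ) (h0 : 0 < h) (h1 : h < 2 * Real.pi)
    (hsep : ∀ i j, i ≠ j → ∀ m : ℤ, h < |th i - th j - 2 * Real.pi * m|)
    (H : ℕ → ℂ)
    (hH : PowerSeries.mk H * ∏ l, (1 - PowerSeries.C (exp (th l * I)) * PowerSeries.X) = 1)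
    (Y : ℕ) : 0 ≤ ∑ n ∈ range (Y + 1), ‖H n‖ ^ 2 * Real.sin ((n + N / 2) * h) := by
  set z : Fin N → ℂ := fun l => exp (th l * I) with hz
  set w : ℂ := exp (h * I) with hw
  have hq : ∀ j l, z l * (z j)⁻¹ = exp (((th l - th j : ℝ) : ℂ) * I) := by
    intro j l
    simp only [hz]
    rw [← exp_neg, ← exp_add]; congr 1; push_cast; ring
  have F : ∀ j l, ∃ t : ℝ, 0 ≤ t ∧ (l ≠ j → 1 - z l * (z j)⁻¹ ≠ 0 ∧
      1 - w * z l * (z j)⁻¹ = exp ((h / 2 : ℝ) * I) * t * (1 - z l * (z j)⁻¹)) := by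
    intro j l
    by_cases hl : l = j
    · exact ⟨0, le_rfl, fun h => absurd hl h⟩
    · obtain ⟨t, t0, t1, t2⟩ := sign_fac (th l - th j) h h0 (hsep l j hl)
      refine ⟨t, t0, fun _ => ?_⟩
      rw [mul_assoc w, hq]
      exact ⟨t1, t2⟩
  choose t t0 ht using F
  set E : ℂ := exp ((h / 2 : ℝ) * I) with hE
  set s : Fin N → ℝ := fun j => 2 * Real.sin (h / 2) * ∏ l ∈ univ.erase j, t j l with hs
  have s0 : ∀ j, 0 ≤ s j := fun j =>
    mul_nonneg (mul_nonneg two_pos.le (Real.sin_pos_of_pos_of_lt_pi (by linarith) (by linarith)).le)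
      (prod_nonneg fun l _ => t0 j l)
  have hz0 : ∀ j, z j ≠ 0 := fun j => exp_ne_zero _
  have hc : ∀ j, (-I * E ^ N * s j) * ∏ l ∈ univ.erase j, (1 - z l * (z j)⁻¹)
      = ∏ l, (1 - w * z l * (z j)⁻¹) := by
    intro j
    rw [← mul_prod_erase univ _ (mem_univ j),
      prod_congr rfl fun l hl => (ht j l (mem_erase.1 hl).1).2, prod_mul_distrib, prod_mul_distrib,
      prod_const, card_erase_of_mem (mem_univ j), card_univ, Fintype.card_fin, mul_assoc w,
      mul_inv_cancel₀ (hz0 j), mul_one, hw, sign_one_sub, ← hE]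
    have hN : E ^ N = E * E ^ (N - 1) := by
      rw [← pow_succ', Nat.sub_add_cancel j.pos]
    rw [hN]
    simp only [hs]
    push_cast
    ring
  choose B B0 B1 using fun j => sign_ex (fun m => w ^ m * H m) (z j)
  obtain ⟨R0, R⟩ := sign_rec z w (exp_ne_zero _) hz0 (fun j => -I * E ^ N * s j)
    (fun j l hl => (ht j l hl).1) hc H hH B B0 B1
  have hwE : w = E ^ 2 := by
    rw [hw, hE, ← exp_nat_mul]; congr 1; push_cast; ring
  have hzn : ∀ j, normSq (z j) = 1 := fun j => by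
    rw [normSq_eq_norm_sq, hz]; simp only [norm_exp_ofReal_mul_I]; norm_num
  set b : ℕ → ℂ := fun m => w ^ m * H m with hb
  -- the one-step identity
  have step : ∀ n, ∑ j, s j * (normSq (B j n) - normSq (B j n - b n))
      = 2 * (‖H n‖ ^ 2 * Real.sin ((n + N / 2) * h)) := by
    intro n
    set e : ℂ := E ^ N with he
    have eN : e = exp (((N * (h / 2) : ℝ) : ℂ) * I) := by
      rw [he, hE, ← exp_nat_mul]; congr 1; push_cast; ring
    have ee : e * (starRingEnd ℂ) e = 1 := by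
      rw [mul_conj, normSq_eq_norm_sq, eN, norm_exp_ofReal_mul_I]; norm_num
    have eW : e * w ^ n = exp ((((n + N / 2) * h : ℝ) : ℂ) * I) := by
      rw [eN, hw, ← exp_nat_mul, ← exp_add]; congr 1; push_cast; ring
    have eS : I * ((starRingEnd ℂ) (e * w ^ n) - e * w ^ n)
        = 2 * ((Real.sin ((n + N / 2) * h) : ℝ) : ℂ) := by
      rw [eW, ← exp_conj, map_mul, conj_ofReal, conj_I, ofReal_sin, Complex.sin, mul_neg, neg_mul]
      ring
    have wN : w ^ N = e ^ 2 := by rw [hwE, he, ← pow_mul, ← pow_mul, mul_comm]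
    have hI : I * I = -1 := I_mul_I
    have S1 : (∑ j, (s j : ℂ)) = I * ((starRingEnd ℂ) e - e) := by
      have : (1 : ℂ) = e ^ 2 + -I * e * ∑ j, (s j : ℂ) := by
        rw [mul_sum, ← wN]; exact R0
      generalize (∑ j, (s j : ℂ)) = S at this
      linear_combination (-I * (starRingEnd ℂ) e) * this + (-S - I * e) * ee
        + (S * e * (starRingEnd ℂ) e) * hI
    have S2 : (∑ j, (s j : ℂ) * B j n) = I * ((starRingEnd ℂ) e * H n - e * b n) := by
      have : H n = e ^ 2 * b n + -I * e * ∑ j, (s j : ℂ) * B j n := by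
        rw [mul_sum, ← wN]
        refine (R n).trans ?_
        congr 1
        exact sum_congr rfl fun j _ => by ring
      generalize (∑ j, (s j : ℂ) * B j n) = S at this
      linear_combination (-I * (starRingEnd ℂ) e) * this + (-S - I * e * b n) * ee
        + (S * e * (starRingEnd ℂ) e) * hI
    have S3 : (∑ j, (s j : ℂ) * (starRingEnd ℂ) (B j n))
        = -I * (e * (starRingEnd ℂ) (H n) - (starRingEnd ℂ) e * (starRingEnd ℂ) (b n)) := by
      have := congrArg (starRingEnd ℂ) S2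
      simpa only [map_sum, map_mul, map_sub, conj_ofReal, conj_I, conj_conj] using this
    apply ofReal_injective
    have e1 : ∀ j, ((s j * (normSq (B j n) - normSq (B j n - b n)) : ℝ) : ℂ)
        = (starRingEnd ℂ) (b n) * ((s j : ℂ) * B j n)
          + b n * ((s j : ℂ) * (starRingEnd ℂ) (B j n))
          - b n * (starRingEnd ℂ) (b n) * (s j : ℂ) := by
      intro j
      rw [ofReal_mul, ofReal_sub, ← mul_conj, ← mul_conj, map_sub]
      ring
    rw [ofReal_sum, sum_congr rfl fun j _ => e1 j, sum_sub_distrib, sum_add_distrib, ← mul_sum,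
      ← mul_sum, ← mul_sum, S1, S2, S3, ← normSq_eq_norm_sq, ofReal_mul, ofReal_mul, ← mul_conj]
    rw [map_mul] at eS
    have hbn : b n = w ^ n * H n := rfl
    rw [hbn, map_mul]
    push_cast at eS ⊢
    linear_combination (H n * (starRingEnd ℂ) (H n)) * eS
  have tel : ∀ Y, ∑ j, s j * normSq (B j Y)
      = 2 * ∑ n ∈ range (Y + 1), ‖H n‖ ^ 2 * Real.sin ((n + N / 2) * h) := by
    intro Y
    induction Y with
    | zero =>
      rw [sum_range_one, ← step 0]
      refine sum_congr rfl fun j _ => ?_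
      rw [B0 j]
      simp [hb]
    | succ Y ih =>
      rw [sum_range_succ, mul_add, ← ih, ← step (Y + 1), ← sum_add_distrib]
      refine sum_congr rfl fun j _ => ?_
      have : B j (Y + 1) - b (Y + 1) = z j * B j Y := by rw [B1 j]; simp [hb]
      rw [this, map_mul, hzn]
      ring
  have := tel Y
  have h2 : 0 ≤ ∑ j, s j * normSq (B j Y) :=
    sum_nonneg fun j _ => mul_nonneg (s0 j) (normSq_nonneg _)
  linarith

theorem sign {N : ℕ} (θ : Fin N → ℝ) {t : ℝ} (ht : 0 < t) (ht' : t ≤ Real.pi)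
    (hg : ∀ i j, i ≠ j → ∀ m : ℤ, t < |θ i - θ j - 2 * Real.pi * m|) (H : ℕ → ℂ)
    (hH : PowerSeries.mk H *
      ∏ j, (1 - PowerSeries.C (Complex.exp (θ j * Complex.I)) * PowerSeries.X) = 1) (Y : ℕ) :
    0 ≤ ∑ n ∈ range Y, ‖H n‖ ^ 2 * Real.sin (((n : ℝ) + (N : ℝ) / 2) * t) := by
  cases Y with
  | zero => simp
  | succ Y => exact sign_main θ t ht (by linarith [Real.pi_pos]) hg H hH Y

end RowSIGN
end

section
section

theorem eval_ser {N : ℕ} {A : ℕ → ℂ} {z : Fin N → ℂ} (hA : PowerSeries.mk A =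
      (1 - PowerSeries.X) * ∏ j, (1 - PowerSeries.C (z j) * PowerSeries.X)) (u : ℂ) :
    ∑ n ∈ range (N + 2), A n * u ^ n = (1 - u) * ∏ j, (1 - z j * u) := by
  have e : (((1 - X) * ∏ j, (1 - C (z j) * X) : ℂ[X]) : PowerSeries ℂ) = PowerSeries.mk A := by
    rw [hA, ← coeToPowerSeries.ringHom_apply, map_mul, map_prod]
    simp
  have d1 : (1 - X : ℂ[X]).natDegree ≤ 1 := by compute_degree
  have d2 : (∏ j, (1 - C (z j) * X) : ℂ[X]).natDegree ≤ N :=
    (natDegree_prod_le _ _).trans ((sum_le_card_nsmul _ _ 1 fun j _ => by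
      compute_degree).trans (by simp))
  have h := eval_eq_sum_range' (p := ((1 - X) * ∏ j, (1 - C (z j) * X) : ℂ[X])) (n := N + 2)
    (natDegree_mul_le.trans_lt (by omega)) u
  rw [eval_mul, eval_prod] at h
  simp only [eval_sub, eval_one, eval_X, eval_mul, eval_C] at h
  rw [h]
  refine sum_congr rfl fun n _ => ?_
  rw [← Polynomial.coeff_coe, e, PowerSeries.coeff_mk]

theorem inv_ser {N : ℕ} {A M : ℕ → ℂ} {z : Fin N → ℂ} {R : ℂ} (hR : R ≠ 0)
    (hA : PowerSeries.mk A =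
      (1 - PowerSeries.X) * ∏ j, (1 - PowerSeries.C (R * z j) * PowerSeries.X))
    (hM : PowerSeries.mk A * PowerSeries.mk M = 1) :
    (PowerSeries.mk fun n => (M n - if n = 0 then 0 else M (n - 1)) / R ^ n) *
      ∏ j, (1 - PowerSeries.C (z j) * PowerSeries.X) = 1 := by
  have e1 : (PowerSeries.mk fun n => (M n - if n = 0 then 0 else M (n - 1)) / R ^ n) =
      PowerSeries.rescale R⁻¹ (PowerSeries.mk M * (1 - PowerSeries.X)) := by
    ext n
    rw [PowerSeries.coeff_rescale]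
    cases n <;> simp [mul_sub, PowerSeries.coeff_succ_mul_X, div_eq_inv_mul]
  have e2 : ∀ j, 1 - PowerSeries.C (z j) * PowerSeries.X =
      PowerSeries.rescale R⁻¹ (1 - PowerSeries.C (R * z j) * PowerSeries.X) := fun j => by
    ext n
    rw [PowerSeries.coeff_rescale]
    simp only [map_sub, PowerSeries.coeff_C_mul, PowerSeries.coeff_one, PowerSeries.coeff_X]
    rcases n with _ | _ | n <;> simp [hR]
  rw [e1, prod_congr rfl fun j _ => e2 j, ← map_prod, ← map_mul, mul_assoc, ← hA, mul_comm, hM,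
    map_one]

end
end

section
section RowNUM

theorem num_head (N : ℕ) (h : ℝ) (hs : 0 ≤ Real.sin (N * h)) :
    ∑ n ∈ range (N + 1), Real.sin ((n + (N : ℝ) / 2) * h) ≤ (N + 1) * Real.sin (N * h) := by
  have r := sum_range_reflect (fun n : ℕ => Real.sin ((n + (N : ℝ) / 2) * h)) (N + 1)
  have b : ∑ n ∈ range (N + 1), (Real.sin ((n + (N : ℝ) / 2) * h)
      + Real.sin ((((N + 1 - 1 - n : ℕ) : ℝ) + (N : ℝ) / 2) * h))
      ≤ ∑ _n ∈ range (N + 1), 2 * Real.sin (N * h) := by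
    refine sum_le_sum fun n hn => ?_
    have hn' : n ≤ N := Nat.lt_succ_iff.1 (mem_range.1 hn)
    rw [Nat.add_sub_cancel, Nat.cast_sub hn']
    have e1 : ((n : ℝ) + N / 2) * h = N * h + (n - N / 2) * h := by ring
    have e2 : ((N : ℝ) - n + N / 2) * h = N * h - (n - N / 2) * h := by ring
    rw [e1, e2, Real.sin_add, Real.sin_sub]
    nlinarith [Real.cos_le_one ((n - N / 2) * h)]
  rw [sum_add_distrib, r, sum_const, card_range, nsmul_eq_mul] at b
  push_cast at b
  linarith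

theorem num_tail (x : ℝ) (h1 : 7 / 6 * Real.pi ≤ x) (h2 : x ≤ 11 / 6 * Real.pi) :
    Real.sin x ≤ -1 / 2 := by
  have hpi := Real.pi_pos
  have e : Real.sin x = -Real.cos |x - 3 / 2 * Real.pi| := by
    rw [Real.cos_abs]
    have : x = (x - 3 / 2 * Real.pi) + Real.pi / 2 + Real.pi := by ring
    conv_lhs => rw [this]
    rw [Real.sin_add_pi, Real.sin_add_pi_div_two]
  have l : |x - 3 / 2 * Real.pi| ≤ Real.pi / 3 := abs_le.2 ⟨by linarith, by linarith⟩
  have := Real.cos_le_cos_of_nonneg_of_le_pi (abs_nonneg _) (by linarith) l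
  rw [Real.cos_pi_div_three] at this
  linarith

theorem num_hd {N : ℕ} {h a B : ℝ} {u : ℕ → ℝ} (a0 : 0 ≤ a) (a1 : a ≤ 1)
    (hs : 0 ≤ Real.sin (N * h)) (hB : ∀ n, n ≤ 2 → |u n| ≤ B)
    (hu : ∀ n, 3 ≤ n → n < N + 2 → u n = a) :
    ∑ n ∈ range (N + 1), u n * Real.sin ((n + (N : ℝ) / 2) * h)
      ≤ (N + 1) * Real.sin (N * h) + 3 * (B + 1) := by
  have B0 : 0 ≤ B := (abs_nonneg _).trans (hB 0 (by omega))
  have head : ∑ n ∈ range (N + 1), u n * Real.sin ((n + (N : ℝ) / 2) * h)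
      ≤ ∑ n ∈ range (N + 1), (a * Real.sin ((n + (N : ℝ) / 2) * h)
        + if n < 3 then B + 1 else 0) := by
    refine sum_le_sum fun n hn => ?_
    have hn' : n < N + 1 := mem_range.1 hn
    have c1 := Real.abs_sin_le_one ((n + (N : ℝ) / 2) * h)
    generalize Real.sin ((n + (N : ℝ) / 2) * h) = s at c1
    split_ifs with h2
    · have b1 := hB n (by omega)
      have u1 : u n * s ≤ B := by
        refine (le_abs_self _).trans ?_
        rw [abs_mul]
        calc |u n| * |s| ≤ B * 1 := by gcongr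
          _ = B := mul_one B
      have u2 : a * (-1) ≤ a * s := mul_le_mul_of_nonneg_left (abs_le.1 c1).1 a0
      linarith
    · rw [hu n (by omega) (by omega), add_zero]
  have e4 : ∑ n ∈ range (N + 1), (if n < 3 then B + 1 else 0) ≤ 3 * (B + 1) := by
    rw [← sum_filter, sum_const, nsmul_eq_mul]
    have : ((range (N + 1)).filter (· < 3)).card ≤ (range 3).card :=
      card_le_card fun n hn => mem_range.2 (mem_filter.1 hn).2
    rw [card_range] at this
    have : (((range (N + 1)).filter (· < 3)).card : ℝ) ≤ 3 := by exact_mod_cast this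
    gcongr
  rw [sum_add_distrib, ← mul_sum] at head
  have H := num_head N h hs
  have v : 0 ≤ (N + 1) * Real.sin (N * h) := by positivity
  have u1 := mul_le_mul_of_nonneg_left H a0
  have u2 := mul_le_mul_of_nonneg_right a1 v
  linarith

theorem num {θ : ℝ} (h0 : 0 < θ) (h1 : θ ≤ 1 / 10) (B : ℝ) : ∀ᶠ d : ℕ in atTop,
    ∀ (u : ℕ → ℝ) (a : ℝ), 0 ≤ a → a ≤ 1 → (∀ n, n ≤ 2 → |u n| ≤ B) →
      (∀ n, 3 ≤ n → n < d → u n = a) → (∀ n, d ≤ n → (n : ℝ) ≤ d + θ * d → 1 / 30 ≤ u n) →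
      ∑ n ∈ range (d + ⌊θ * d⌋₊), u n * Real.sin (((n : ℝ) + ((d - 2 : ℕ) : ℝ) / 2) *
        ((1 / 2 - θ / 1000) * (2 * Real.pi / ((d : ℝ) - 2)))) ≤ -(θ * d / 200) := by
  have hpi := Real.pi_pos
  have hp4 := Real.pi_le_four
  rw [eventually_atTop]
  refine ⟨⌈300 * (3 * |B| + 4) / θ⌉₊ + 2, fun d hd u a a0 a1 hB hu hl => ?_⟩
  obtain ⟨N, rfl⟩ : ∃ N, d = N + 2 := ⟨d - 2, by omega⟩
  have B0 : 0 ≤ B := (abs_nonneg _).trans (hB 0 (by omega))
  rw [abs_of_nonneg B0] at hd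
  have hN1 : 300 * (3 * B + 4) / θ ≤ N :=
    (Nat.le_ceil _).trans (by exact_mod_cast (by omega : ⌈300 * (3 * B + 4) / θ⌉₊ ≤ N))
  rw [div_le_iff₀ h0] at hN1
  have hN0 : (0 : ℝ) ≤ N := Nat.cast_nonneg N
  have hNθ : N * θ ≤ N * (1 / 10) := mul_le_mul_of_nonneg_left h1 hN0
  have hN2 : (12000 : ℝ) ≤ N := by linarith
  have hNp : (0 : ℝ) < N := by linarith
  have eN : (((N + 2 : ℕ) : ℝ) - 2) = N := by push_cast; ring
  rw [Nat.add_sub_cancel, eN]
  set T : ℕ := ⌊θ * ((N + 2 : ℕ) : ℝ)⌋₊ with hT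
  have T1 : (T : ℝ) ≤ θ * ((N + 2 : ℕ) : ℝ) := Nat.floor_le (by positivity)
  have T2 : θ * ((N + 2 : ℕ) : ℝ) < T + 1 := Nat.lt_floor_add_one _
  set h : ℝ := (1 / 2 - θ / 1000) * (2 * Real.pi / N) with hh
  have hNh : N * h = Real.pi - θ / 500 * Real.pi := by rw [hh]; field_simp; ring
  have hp : 0 < h := mul_pos (by linarith) (by positivity)
  have q0 : 0 < θ * Real.pi := mul_pos h0 hpi
  have q1 : θ * Real.pi ≤ 1 / 10 * Real.pi := mul_le_mul_of_nonneg_right h1 hpi.le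
  have q2 : θ * Real.pi ≤ θ * 4 := mul_le_mul_of_nonneg_left hp4 h0.le
  have s0 : 0 ≤ Real.sin (N * h) :=
    Real.sin_nonneg_of_nonneg_of_le_pi (by positivity) (by linarith)
  have s1 : Real.sin (N * h) ≤ θ / 125 := by
    rw [hNh, Real.sin_pi_sub]
    have := Real.sin_le (x := θ / 500 * Real.pi) (by positivity)
    linarith
  have p1 : 7 / 6 * Real.pi ≤ 3 / 2 * (N * h) := by linarith
  have p2 : 7 / 4 * (N * h) ≤ 11 / 6 * Real.pi := by linarith
  have sn : ∀ x : ℝ, N ≤ x → x ≤ 5 / 4 * N → Real.sin ((x + N / 2) * h) ≤ -1 / 2 := by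
    intro x x1 x2
    refine num_tail _ ?_ ?_
    · have e : 3 / 2 * (N : ℝ) ≤ x + N / 2 := by linarith
      have := mul_le_mul_of_nonneg_right e hp.le
      linarith
    · have e : x + N / 2 ≤ 7 / 4 * N := by linarith
      have := mul_le_mul_of_nonneg_right e hp.le
      linarith
  have H := num_hd a0 a1 s0 hB hu
  have H2 : ((N : ℝ) + 1) * Real.sin (N * h) ≤ (N + 1) * (θ / 125) := by gcongr
  have N3 : 3 ≤ N + 1 := by
    have : ((2 : ℕ) : ℝ) ≤ N := by push_cast; linarith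
    have := Nat.cast_le.1 this
    omega
  clear_value h T
  have mid : u (N + 1) * Real.sin ((((N + 1 : ℕ) : ℝ) + (N : ℝ) / 2) * h) ≤ 0 := by
    rw [hu (N + 1) N3 (by omega)]
    have := sn ((N + 1 : ℕ) : ℝ) (by push_cast; linarith) (by push_cast; linarith)
    exact mul_nonpos_of_nonneg_of_nonpos a0 (by linarith)
  have tail : ∑ n ∈ range T, u (N + 2 + n) *
      Real.sin ((((N + 2 + n : ℕ) : ℝ) + (N : ℝ) / 2) * h) ≤ ∑ _n ∈ range T, (-1 / 60 : ℝ) := by
    refine sum_le_sum fun n hn => ?_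
    have hnr : (n : ℝ) + 1 ≤ T := by exact_mod_cast mem_range.1 hn
    have n0 : (0 : ℝ) ≤ n := Nat.cast_nonneg n
    have b1 := hl (N + 2 + n) (by omega) (by rw [Nat.cast_add (N + 2) n]; linarith)
    have b2 := sn ((N + 2 + n : ℕ) : ℝ) (by push_cast; linarith)
      (by push_cast at T1 ⊢; linarith)
    generalize Real.sin ((((N + 2 + n : ℕ) : ℝ) + (N : ℝ) / 2) * h) = s at b2
    generalize u (N + 2 + n) = x at b1
    nlinarith [mul_nonneg (sub_nonneg.2 b1) (show 0 ≤ -1 / 2 - s by linarith)]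
  rw [sum_const, card_range, nsmul_eq_mul] at tail
  rw [sum_range_add, sum_range_succ]
  generalize ∑ n ∈ range (N + 1), u n * Real.sin ((n + (N : ℝ) / 2) * h) = S1 at H ⊢
  generalize ∑ n ∈ range T, u (N + 2 + n) *
    Real.sin ((((N + 2 + n : ℕ) : ℝ) + (N : ℝ) / 2) * h) = S2 at tail ⊢
  generalize u (N + 1) * Real.sin ((((N + 1 : ℕ) : ℝ) + (N : ℝ) / 2) * h) = S3 at mid ⊢
  push_cast at T2 ⊢
  linarith

end RowNUM
end

section
section

theorem lln_cs {Ω : Type} {s : Finset Ω} (hs : s.Nonempty) (f : Ω → ℝ) :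
    𝔼 x ∈ s, |f x| ≤ √(𝔼 x ∈ s, f x ^ 2) := by
  have hc : (0 : ℝ) < #s := by exact_mod_cast hs.card_pos
  apply Real.le_sqrt_of_sq_le
  rw [Finset.expect_eq_sum_div_card, Finset.expect_eq_sum_div_card, div_pow, div_le_div_iff₀
    (by positivity) hc]
  have := sq_sum_le_card_mul_sum_sq (s := s) (f := fun x => |f x|)
  simp only [sq_abs] at this
  nlinarith

theorem lln {Ω ι : Type} {s : Finset Ω} {G : Finset ι} (hG : G.Nonempty) (w : ι → Ω → ℝ)
    (T : Ω → ℝ) {D W ε : ℝ} (hD : 0 < D) (h0 : ∀ g ∈ G, ∀ x ∈ s, 0 ≤ w g x)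
    (hW : ∀ g ∈ G, ∀ x ∈ s, w g x ≤ W) (h1 : ∀ g ∈ G, 𝔼 x ∈ s, w g x = D)
    (h2 : ∀ g ∈ G, ∀ g' ∈ G, g ≠ g' → 𝔼 x ∈ s, w g x * w g' x = D ^ 2)
    (hT : ∀ x ∈ s, |T x| ≤ 1) (h3 : ∀ g ∈ G, |𝔼 x ∈ s, w g x * T x| ≤ ε) :
    |𝔼 x ∈ s, T x| ≤ √(W / ((#G : ℝ) * D)) + ε / D := by
  have hM : (0 : ℝ) < #G := by exact_mod_cast hG.card_pos
  have hs : s.Nonempty := by
    obtain ⟨g, hg⟩ := hG
    rcases s.eq_empty_or_nonempty with rfl | hs
    · have := h1 g hg
      rw [Finset.expect_empty] at this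
      exact absurd this hD.ne
    · exact hs
  have hMD : 0 < (#G : ℝ) * D := by positivity
  have e1 : 𝔼 x ∈ s, ∑ g ∈ G, w g x = #G * D := by
    rw [Finset.expect_sum_comm, Finset.sum_congr rfl h1]; simp
  have e2 : 𝔼 x ∈ s, (∑ g ∈ G, w g x) ^ 2 ≤ #G * (W * D + #G * D ^ 2) := by
    simp_rw [sq (∑ g ∈ G, _), Finset.sum_mul_sum, Finset.expect_sum_comm]
    calc _ ≤ ∑ _g ∈ G, (W * D + #G * D ^ 2) := Finset.sum_le_sum fun g hg => ?_
      _ = _ := by rw [Finset.sum_const, nsmul_eq_mul]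
    rw [← Finset.add_sum_erase G _ hg]
    refine add_le_add ?_ ?_
    · rw [← h1 g hg, Finset.mul_expect]
      exact Finset.expect_le_expect fun x hx =>
        mul_le_mul_of_nonneg_right (hW g hg x hx) (h0 g hg x hx)
    · rw [Finset.sum_congr rfl fun g' hg' =>
        h2 g hg g' (mem_of_mem_erase hg') (ne_of_mem_erase hg').symm, Finset.sum_const,
        nsmul_eq_mul]
      gcongr
      exact erase_subset _ _
  have e3 : 𝔼 x ∈ s, (1 - (∑ g ∈ G, w g x) / (#G * D)) ^ 2 ≤ W / (#G * D) := by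
    have : ∀ x, (1 - (∑ g ∈ G, w g x) / (#G * D)) ^ 2 = 1 - (∑ g ∈ G, w g x) / (#G * D) -
        (∑ g ∈ G, w g x) / (#G * D) + (∑ g ∈ G, w g x) ^ 2 / (#G * D) ^ 2 := fun x => by ring
    simp_rw [this]
    rw [Finset.expect_add_distrib, Finset.expect_sub_distrib, Finset.expect_sub_distrib,
      Finset.expect_const hs, ← Finset.expect_div, ← Finset.expect_div, e1, div_self hMD.ne']
    have h4 : (𝔼 x ∈ s, (∑ g ∈ G, w g x) ^ 2) / (#G * D) ^ 2 ≤
        #G * (W * D + #G * D ^ 2) / (#G * D) ^ 2 := by gcongr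
    have h5 : #G * (W * D + #G * D ^ 2) / (#G * D) ^ 2 = W / (#G * D) + 1 := by field_simp
    linarith
  have e4 : 𝔼 x ∈ s, T x = 𝔼 x ∈ s, (1 - (∑ g ∈ G, w g x) / (#G * D)) * T x +
      (∑ g ∈ G, 𝔼 x ∈ s, w g x * T x) / (#G * D) := by
    rw [← Finset.expect_sum_comm, Finset.expect_div, ← Finset.expect_add_distrib]
    refine Finset.expect_congr rfl fun x _ => ?_
    rw [← Finset.sum_mul]
    ring
  rw [e4]
  refine (abs_add_le _ _).trans (add_le_add ?_ ?_)
  · refine (Finset.abs_expect_le _ _).trans (le_trans ?_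
      ((lln_cs hs _).trans (Real.sqrt_le_sqrt e3)))
    refine Finset.expect_le_expect fun x hx => ?_
    rw [abs_mul]
    exact mul_le_of_le_one_right (abs_nonneg _) (hT x hx)
  · rw [abs_div, abs_of_pos hMD, div_le_div_iff₀ hMD hD]
    have := (Finset.abs_sum_le_sum_abs _ _).trans (Finset.sum_le_sum h3)
    rw [Finset.sum_const, nsmul_eq_mul] at this
    nlinarith

end
end

end Pool.Agent.MP_f0209c_nt.FF
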