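import Pool.Agent.MP_f0209c_nt.FF.P1
import Pool.Agent.MP_a4a062_nt.C2.P3
import Pool.Agent.MP_1609a8_nt.H76.Weil

/-! Moebius sums, orthogonality, zeros on the critical circle and mean squares. -/

set_option autoImplicit false

open Polynomial Finset Filter
open scoped Classical BigOperators

noncomputable section
namespace Pool.Agent.MP_f0209c_nt.FF
open Pool.Agent.MP_a4a062_nt.C2

section
section
variable {k : Type} [Field k] [Fintype k]

omit [Fintype k] in
theorem mob_div (f : k[X]) (hf : f.Monic) (D : Finset k[X])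
    (hD : ∀ d, d ∈ D ↔ d.Monic ∧ d ∣ f) :
    ∑ d ∈ D, UniqueFactorizationMonoid.moebius d = if f = 1 then 1 else 0 := by
  split_ifs with h
  · subst h
    have : D = {1} := by
      ext d
      rw [hD, mem_singleton]
      exact ⟨fun h => h.1.isUnit_iff.1 (isUnit_of_dvd_one h.2), fun h => by subst h; exact ⟨monic_one, dvd_rfl⟩⟩
    rw [this, sum_singleton, UniqueFactorizationMonoid.moebius_one]
  · obtain ⟨p, pm, pi, pd⟩ := Polynomial.exists_monic_irreducible_factor f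
      (fun u => h (hf.isUnit_iff.1 u))
    rw [← sum_filter_add_sum_filter_not D (fun d => p ∣ d),
      ← sum_filter_add_sum_filter_not (D.filter fun d => p ∣ d) (fun d => p * p ∣ d)]
    have a1 : ∑ d ∈ (D.filter fun d => p ∣ d).filter (fun d => p * p ∣ d), UniqueFactorizationMonoid.moebius d = 0 :=
      sum_eq_zero fun d hd => UniqueFactorizationMonoid.moebius_of_not_squarefree fun s =>
        pi.not_isUnit (s p (mem_filter.1 hd).2)
    have a2 : ∑ d ∈ D.filter (fun d => ¬ p ∣ d), -UniqueFactorizationMonoid.moebius d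
        = ∑ d ∈ (D.filter fun d => p ∣ d).filter (fun d => ¬ p * p ∣ d), UniqueFactorizationMonoid.moebius d := by
      refine sum_bij (fun d _ => p * d) ?_ ?_ ?_ ?_
      · intro d hd
        obtain ⟨h1, h2⟩ := mem_filter.1 hd
        obtain ⟨h3, h4⟩ := (hD d).1 h1
        refine mem_filter.2 ⟨mem_filter.2 ⟨(hD _).2 ⟨pm.mul h3, ?_⟩, dvd_mul_right _ _⟩, ?_⟩
        · exact (pi.coprime_iff_not_dvd.2 h2).mul_dvd pd h4
        · exact fun h5 => h2 ((mul_dvd_mul_iff_left pi.ne_zero).1 h5)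
      · intro a _ b _ hab
        exact mul_left_cancel₀ pi.ne_zero hab
      · intro d hd
        obtain ⟨h1, h2⟩ := mem_filter.1 hd
        obtain ⟨h3, e, rfl⟩ := mem_filter.1 h1
        obtain ⟨h4, h5⟩ := (hD _).1 h3
        exact ⟨e, mem_filter.2 ⟨(hD e).2 ⟨pm.of_mul_monic_left h4, (dvd_mul_left _ _).trans h5⟩,
          fun h6 => h2 (mul_dvd_mul_left p h6)⟩, rfl⟩
      · intro d hd
        rw [(pi.isRelPrime_iff_not_dvd.2 (mem_filter.1 hd).2).moebius_mul, pi.moebius_eq]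
        ring
    rw [a1, ← a2, sum_neg_distrib]
    ring

omit [Fintype k] in
theorem mob_coeff (S : ℕ → Finset k[X]) (hS : ∀ n f, f ∈ S n ↔ f.Monic ∧ f.natDegree = n)
    (φ : k[X] → ℂ) (φ1 : φ 1 = 1) (φm : ∀ a b, φ (a * b) = φ a * φ b) (n : ℕ) :
    ∑ ij ∈ antidiagonal n, (∑ d ∈ S ij.1, (UniqueFactorizationMonoid.moebius d : ℂ) * φ d) * ∑ e ∈ S ij.2, φ e
      = if n = 0 then 1 else 0 := by
  let T : Finset (Σ _ : ℕ × ℕ, k[X] × k[X]) :=
    (antidiagonal n).sigma fun ij => S ij.1 ×ˢ S ij.2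
  let Dv : k[X] → Finset k[X] := fun f => ((range (n + 1)).biUnion S).filter (· ∣ f)
  let U : Finset (Σ _ : k[X], k[X]) := (S n).sigma Dv
  have hDv : ∀ f ∈ S n, ∀ d, d ∈ Dv f ↔ d.Monic ∧ d ∣ f := fun f hf d => by
    obtain ⟨f1, f2⟩ := (hS _ _).1 hf
    simp only [Dv, mem_filter, mem_biUnion, mem_range, hS]
    refine ⟨fun ⟨⟨_, _, h, _⟩, h2⟩ => ⟨h, h2⟩, fun ⟨h, h2⟩ => ⟨⟨_, ?_, h, rfl⟩, h2⟩⟩
    have := natDegree_le_of_dvd h2 f1.ne_zero
    omega
  have e1 : ∑ ij ∈ antidiagonal n, (∑ d ∈ S ij.1, (UniqueFactorizationMonoid.moebius d : ℂ) * φ d) * ∑ e ∈ S ij.2, φ e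
      = ∑ t ∈ T, (UniqueFactorizationMonoid.moebius t.2.1 : ℂ) * φ (t.2.1 * t.2.2) := by
    rw [sum_sigma]
    refine sum_congr rfl fun ij _ => ?_
    rw [sum_mul_sum, sum_product]
    exact sum_congr rfl fun d _ => sum_congr rfl fun e _ => by rw [φm, mul_assoc]
  have e2 : ∑ t ∈ T, (UniqueFactorizationMonoid.moebius t.2.1 : ℂ) * φ (t.2.1 * t.2.2)
      = ∑ u ∈ U, (UniqueFactorizationMonoid.moebius u.2 : ℂ) * φ u.1 := by
    refine sum_bij (fun t _ => ⟨t.2.1 * t.2.2, t.2.1⟩) ?_ ?_ ?_ ?_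
    · rintro ⟨⟨i, j⟩, d, e⟩ ht
      simp only [T, mem_sigma, HasAntidiagonal.mem_antidiagonal, mem_product, hS] at ht
      obtain ⟨h1, ⟨h2, h3⟩, h4, h5⟩ := ht
      have hm : d * e ∈ S n := (hS _ _).2 ⟨h2.mul h4, by rw [h2.natDegree_mul h4, h3, h5, h1]⟩
      exact mem_sigma.2 ⟨hm, (hDv _ hm _).2 ⟨h2, dvd_mul_right _ _⟩⟩
    · rintro ⟨⟨i, j⟩, d, e⟩ ht ⟨⟨i', j'⟩, d', e'⟩ ht' h
      simp only [T, mem_sigma, HasAntidiagonal.mem_antidiagonal, mem_product, hS] at ht ht'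
      obtain ⟨_, ⟨h2, h3⟩, _, h5⟩ := ht
      obtain ⟨_, ⟨_, h3'⟩, _, h5'⟩ := ht'
      simp only [Sigma.mk.injEq, heq_eq_eq] at h
      obtain ⟨a, rfl⟩ := h
      obtain rfl : e = e' := mul_left_cancel₀ h2.ne_zero a
      subst h3 h5 h3' h5'
      rfl
    · rintro ⟨f, d⟩ hu
      obtain ⟨h1, h2⟩ : f ∈ S n ∧ d ∈ Dv f := mem_sigma.1 hu
      obtain ⟨h3, e, rfl⟩ := (hDv _ h1 _).1 h2
      obtain ⟨h4, h5⟩ := (hS _ _).1 h1
      have h6 : e.Monic := h3.of_mul_monic_left h4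
      refine ⟨⟨(d.natDegree, e.natDegree), d, e⟩, ?_, rfl⟩
      simp only [T, mem_sigma, HasAntidiagonal.mem_antidiagonal, mem_product, hS]
      exact ⟨by rw [← h5, h3.natDegree_mul h6], ⟨h3, trivial⟩, h6, trivial⟩
    · intro _ _
      rfl
  have e3 : ∑ u ∈ U, (UniqueFactorizationMonoid.moebius u.2 : ℂ) * φ u.1 = ∑ f ∈ S n, if f = 1 then 1 else 0 := by
    rw [sum_sigma]
    refine sum_congr rfl fun f hf => ?_
    dsimp only
    rw [← sum_mul, ← Int.cast_sum, mob_div f ((hS _ _).1 hf).1 _ (hDv f hf)]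
    split_ifs with h
    · simp [h, φ1]
    · simp
  rw [e1, e2, e3, sum_ite_eq']
  refine if_congr ?_ rfl rfl
  rw [hS, natDegree_one]
  exact ⟨fun h => h.2.symm, fun h => ⟨monic_one, h.symm⟩⟩

omit [Fintype k] in
theorem mob_series (S : ℕ → Finset k[X]) (hS : ∀ n f, f ∈ S n ↔ f.Monic ∧ f.natDegree = n)
    (φ : k[X] → ℂ) (φ1 : φ 1 = 1) (φm : ∀ a b, φ (a * b) = φ a * φ b) :
    (PowerSeries.mk fun n => ∑ d ∈ S n, (UniqueFactorizationMonoid.moebius d : ℂ) * φ d)
      * (PowerSeries.mk fun n => ∑ e ∈ S n, φ e) = 1 := by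
  ext n
  rw [PowerSeries.coeff_mul, PowerSeries.coeff_one]
  simp only [PowerSeries.coeff_mk]
  exact mob_coeff S hS φ φ1 φm n


omit [Fintype k] in
theorem mob_eq (f : k[X]) : mu f = (UniqueFactorizationMonoid.moebius f : ℝ) := by
  by_cases h : Squarefree f
  · rw [mu, if_pos h, h.moebius_eq, lam]
    push_cast
    rfl
  · rw [mu, if_neg h, UniqueFactorizationMonoid.moebius_of_not_squarefree h, Int.cast_zero]

theorem abs_mu (f : k[X]) : |mu f| ≤ 1 := by
  rw [mu, lam]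
  split_ifs <;> simp

theorem mu_mul {f g : k[X]} (h : IsCoprime f g) : mu (f * g) = mu f * mu g := by
  rw [mob_eq, mob_eq, mob_eq, h.isRelPrime.moebius_mul, Int.cast_mul]

theorem mu_irr {g : k[X]} (h : Irreducible g) : mu g = -1 := by
  rw [mob_eq, h.moebius_eq]
  simp

theorem mu_ab [CharP k 2] (A B : k[X]) :
    mu (A ^ 2 + X * B ^ 2) = if IsCoprime A B then lam (A ^ 2 + X * B ^ 2) else 0 := by
  rw [mu]
  refine if_congr ⟨fun h => ?_, fun h => ?_⟩ rfl rfl
  · refine IsRelPrime.isCoprime fun d ⟨a, ha⟩ ⟨b, hb⟩ => h d ⟨a ^ 2 + X * b ^ 2, ?_⟩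
    rw [ha, hb]
    ring
  · have h2 : (2 : k[X]) = 0 := CharTwo.two_eq_zero
    have e : derivative (A ^ 2 + X * B ^ 2) = B ^ 2 := by
      simp only [sq, derivative_add, derivative_mul, derivative_X]
      linear_combination (A * derivative A + X * B * derivative B) * h2
    refine Separable.squarefree ?_
    rw [separable_def, e]
    exact (h.pow (m := 2) (n := 2)).add_mul_right_left X

theorem mu_conv (l : k[X] →* ℂ) : (PowerSeries.mk fun n => ∑ f ∈ mon k n, l f) *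
    (PowerSeries.mk fun n => ∑ f ∈ mon k n, (mu f : ℂ) * l f) = 1 := by
  rw [mul_comm]
  simp only [mob_eq, Complex.ofReal_intCast]
  exact mob_series (mon k) (fun _ _ => mem_mon) l l.map_one l.map_mul

theorem sum_mu {n : ℕ} (hn : 2 ≤ n) : ∑ f ∈ mon k n, mu f = 0 := by
  have e := mu_conv (k := k) 1
  simp only [MonoidHom.one_apply, mul_one, sum_const, nsmul_eq_mul] at e
  have c : ∀ m, (#(mon k m) : ℂ) = ((qq k : ℝ) : ℂ) ^ m := fun m => by
    exact_mod_cast card_mon (k := k) m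
  simp only [c] at e
  have g : (1 - PowerSeries.C ((qq k : ℝ) : ℂ) * PowerSeries.X) *
      (PowerSeries.mk fun m => ((qq k : ℝ) : ℂ) ^ m) = 1 := by
    ext m
    rw [sub_mul, one_mul, mul_assoc, map_sub, PowerSeries.coeff_C_mul]
    rcases m with _ | m
    · simp
    · simp [PowerSeries.coeff_succ_X_mul, pow_succ', PowerSeries.coeff_one]
  have e2 : (PowerSeries.mk fun m => ∑ f ∈ mon k m, (mu f : ℂ))
      = 1 - PowerSeries.C ((qq k : ℝ) : ℂ) * PowerSeries.X := by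
    have := congrArg ((1 - PowerSeries.C ((qq k : ℝ) : ℂ) * PowerSeries.X) * ·) e
    simpa only [← mul_assoc, g, one_mul, mul_one] using this
  have e3 := congrArg (PowerSeries.coeff n) e2
  rw [PowerSeries.coeff_mk, map_sub, PowerSeries.coeff_C_mul, PowerSeries.coeff_one,
    PowerSeries.coeff_X, if_neg (by omega), if_neg (by omega), mul_zero, sub_zero] at e3
  exact_mod_cast e3

end
end

section
section
variable {k : Type} [Field k] [Fintype k]

theorem sqf_card (n : ℕ) : sqf k n = (#{f ∈ mon k n | Squarefree f} : ℝ) := by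
  rw [sqf, card_filter, Nat.cast_sum]
  refine sum_congr rfl fun f _ => ?_
  unfold mu
  split_ifs
  · rw [sq, lam_mul_self, Nat.cast_one]
  · simp

omit [Fintype k] in
theorem sqf_dvd {a b c e : k[X]} (ha : a ≠ 0) (he : Squarefree e) (h : a ^ 2 * b = c ^ 2 * e) :
    a ∣ c := by
  obtain ⟨a₁, c₁, g, h1, rfl, rfl⟩ := UniqueFactorizationMonoid.exists_reduced_factors a ha c
  have hg : g ≠ 0 := left_ne_zero_of_mul ha
  have h2 : a₁ ^ 2 * b = c₁ ^ 2 * e :=
    mul_left_cancel₀ (pow_ne_zero 2 hg) (by linear_combination h)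
  have h3 : a₁ ^ 2 ∣ e := (h1.pow (m := 2) (n := 2)).dvd_of_dvd_mul_left ⟨b, h2.symm⟩
  exact mul_dvd_mul_left g (he a₁ (sq a₁ ▸ h3)).dvd

omit [Fintype k] in
theorem sqf_ex (f : k[X]) : f ≠ 0 → ∃ a b : k[X], a ^ 2 * b = f ∧ Squarefree b := by
  induction f using (wellFounded_dvdNotUnit (α := k[X])).induction with
  | _ f ih =>
    intro hf
    by_cases h : Squarefree f
    · exact ⟨1, f, by simp, h⟩
    · obtain ⟨x, ⟨y, rfl⟩, hx⟩ : ∃ x, x * x ∣ f ∧ ¬ IsUnit x := by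
        simpa [Squarefree] using h
      have hy := right_ne_zero_of_mul hf
      obtain ⟨a, b, rfl, hb⟩ := ih y ⟨hy, x * x, fun h1 => hx (isUnit_of_mul_isUnit_left h1),
        mul_comm _ _⟩ hy
      exact ⟨x * a, b, by ring, hb⟩

omit [Fintype k] in
theorem sqf_dec {f : k[X]} (hf : f.Monic) :
    ∃ a b : k[X], a.Monic ∧ b.Monic ∧ Squarefree b ∧ a ^ 2 * b = f := by
  obtain ⟨a, b, h1, h2⟩ := sqf_ex f hf.ne_zero
  have ha : a ≠ 0 := fun h => hf.ne_zero (by rw [← h1, h]; simp)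
  have hl : a.leadingCoeff ≠ 0 := leadingCoeff_ne_zero.2 ha
  have hm := monic_mul_leadingCoeff_inv ha
  have h3 : (a * C a.leadingCoeff⁻¹) ^ 2 * (C (a.leadingCoeff ^ 2) * b) = f := by
    have h4 : (C a.leadingCoeff⁻¹ * C a.leadingCoeff : k[X]) = 1 := by
      rw [← C_mul, inv_mul_cancel₀ hl, C_1]
    rw [← h1, C_pow]
    linear_combination (a ^ 2 * b * (C a.leadingCoeff⁻¹ * C a.leadingCoeff + 1)) * h4
  refine ⟨_, _, hm, (hm.pow 2).of_mul_monic_left (h3 ▸ hf), ?_, h3⟩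
  exact (associated_unit_mul_left b _ (isUnit_C.2 (pow_ne_zero 2 hl).isUnit)).squarefree_iff.2 h2

theorem sqf_sum (n : ℕ) :
    qq k ^ n = ∑ j ∈ range (n / 2 + 1), qq k ^ j * sqf k (n - 2 * j) := by
  have h : #((range (n / 2 + 1)).sigma fun j =>
      mon k j ×ˢ {f ∈ mon k (n - 2 * j) | Squarefree f}) = #(mon k n) := by
    refine card_bij (fun x _ => x.2.1 ^ 2 * x.2.2) ?_ ?_ ?_
    · rintro ⟨j, a, b⟩ hx
      simp only [mem_sigma, mem_range, mem_product, mem_filter, mem_mon] at hx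
      obtain ⟨h1, h2, h3, -⟩ := hx
      refine mem_mon.2 ⟨(h2.1.pow 2).mul h3.1, ?_⟩
      rw [(h2.1.pow 2).natDegree_mul h3.1, h2.1.natDegree_pow, h2.2, h3.2]
      omega
    · rintro ⟨j, a, b⟩ hx ⟨i, c, e⟩ hy h
      simp only [mem_sigma, mem_range, mem_product, mem_filter, mem_mon] at hx hy h
      obtain ⟨-, h2, -, h3⟩ := hx
      obtain ⟨-, h4, -, h5⟩ := hy
      obtain rfl : a = c := eq_of_monic_of_associated h2.1 h4.1 (associated_of_dvd_dvd
        (sqf_dvd h2.1.ne_zero h5 h) (sqf_dvd h4.1.ne_zero h3 h.symm))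
      obtain rfl : j = i := h2.2.symm.trans h4.2
      rw [mul_left_cancel₀ (pow_ne_zero 2 h2.1.ne_zero) h]
    · intro f hf
      obtain ⟨h1, h2⟩ := mem_mon.1 hf
      obtain ⟨a, b, ha, hb, hs, rfl⟩ := sqf_dec h1
      rw [(ha.pow 2).natDegree_mul hb, ha.natDegree_pow] at h2
      refine ⟨⟨a.natDegree, a, b⟩, ?_, rfl⟩
      simp only [mem_sigma, mem_range, mem_product, mem_filter, mem_mon]
      exact ⟨by omega, ⟨ha, trivial⟩, ⟨hb, by omega⟩, hs⟩
  rw [← card_mon, ← h, card_sigma, Nat.cast_sum]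
  exact sum_congr rfl fun j _ => by rw [card_product, Nat.cast_mul, card_mon, sqf_card]

theorem sqf_eq {n : ℕ} (hn : 2 ≤ n) : sqf k n = qq k ^ n - qq k ^ (n - 1) := by
  obtain ⟨m, rfl⟩ := Nat.exists_eq_add_of_le' hn
  have h1 := sqf_sum (k := k) (m + 2)
  have h2 := sqf_sum (k := k) m
  rw [show (m + 2) / 2 + 1 = m / 2 + 1 + 1 by omega, sum_range_succ'] at h1
  have h3 : ∑ j ∈ range (m / 2 + 1), qq k ^ (j + 1) * sqf k (m + 2 - 2 * (j + 1)) =
      qq k ^ (m + 1) := by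
    rw [pow_succ' (qq k) m, h2, mul_sum]
    exact sum_congr rfl fun j _ => by
      rw [show m + 2 - 2 * (j + 1) = m - 2 * j by omega]; ring
  rw [h3] at h1
  rw [show m + 2 - 1 = m + 1 from rfl, h1]
  simp

end
end

section
section OrthA
variable {K F : Type*} [Field K] [Field F] [Algebra K F] [Finite F]

theorem orth_sep {x : F} (hx : x ≠ 0) (h : ¬ ∃ c : K, c ≠ 0 ∧ x = algebraMap K F c) :
    ∃ χ : MulChar F ℂ, (∀ c : K, c ≠ 0 → χ (algebraMap K F c) = 1) ∧ χ x ≠ 1 := by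
  by_contra hc
  push Not at hc
  let H : Subgroup Fˣ := (Units.map (algebraMap K F : K →* F)).range
  have e := (MulChar.subgroupOrderIsoSubgroupMulChar F ℂ).symm_apply_apply H
  have hm : Units.mk0 x hx ∈ H := by
    rw [← e]
    refine (MulChar.mem_subgroupOrderIsoSubgroupMulChar_symm_iff
      (X := (MulChar.subgroupOrderIsoSubgroupMulChar F ℂ H).ofDual)).2 fun χ hχ => ?_
    refine hc χ fun c c0 => ?_
    exact MulChar.mem_subgroupOrderIsoSubgroupMulChar_iff.1 hχ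
      (Units.map (algebraMap K F : K →* F) (Units.mk0 c c0)) ⟨_, rfl⟩
  obtain ⟨u, hu⟩ := hm
  exact h ⟨u, u.ne_zero, (congrArg Units.val hu).symm⟩

theorem orth_one (E : Finset (MulChar F ℂ))
    (hE : ∀ χ, χ ∈ E ↔ ∀ c : K, c ≠ 0 → χ (algebraMap K F c) = 1) (x : F) :
    ∑ χ ∈ E, χ x = if ∃ c : K, c ≠ 0 ∧ x = algebraMap K F c then (E.card : ℂ) else 0 := by
  split_ifs with h
  · obtain ⟨c, c0, rfl⟩ := h
    rw [sum_congr rfl fun χ hχ => (hE χ).1 hχ c c0]
    simp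
  · by_cases hx : x = 0
    · subst hx
      simp [MulChar.map_zero]
    obtain ⟨ψ, h1, h2⟩ := orth_sep hx h
    have e : ∑ χ ∈ E, χ x = ∑ χ ∈ E, (ψ * χ) x := by
      refine (sum_bij (fun χ _ => ψ * χ) ?_ ?_ ?_ ?_).symm
      · intro χ hχ
        refine (hE _).2 fun c c0 => ?_
        rw [MulChar.mul_apply, h1 c c0, (hE χ).1 hχ c c0, one_mul]
      · intro a _ b _ hab
        exact mul_left_cancel hab
      · intro χ hχ
        refine ⟨ψ⁻¹ * χ, (hE _).2 fun c c0 => ?_, by rw [mul_inv_cancel_left]⟩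
        rw [MulChar.mul_apply, MulChar.inv_apply_eq_inv', h1 c c0, (hE χ).1 hχ c c0]
        simp
      · intro _ _
        rfl
    simp only [MulChar.mul_apply, ← mul_sum] at e
    have : (1 - ψ x) * ∑ χ ∈ E, χ x = 0 := by linear_combination e
    exact (mul_eq_zero.1 this).resolve_left (sub_ne_zero.2 h2.symm)

theorem orth_two (E : Finset (MulChar F ℂ))
    (hE : ∀ χ, χ ∈ E ↔ ∀ c : K, c ≠ 0 → χ (algebraMap K F c) = 1) (x y : F) :
    ∑ χ ∈ E, χ y * (starRingEnd ℂ) (χ x)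
      = if x ≠ 0 ∧ ∃ c : K, c ≠ 0 ∧ y = algebraMap K F c * x then (E.card : ℂ) else 0 := by
  have e : ∀ χ : MulChar F ℂ, χ y * (starRingEnd ℂ) (χ x) = χ (y * x⁻¹) := fun χ => by
    rw [map_mul, ← MulChar.inv_apply', ← MulChar.star_apply']
    rfl
  simp only [e]
  rw [orth_one (K := K) E hE]
  refine if_congr ⟨?_, ?_⟩ rfl rfl
  · rintro ⟨c, c0, hc⟩
    have hx : x ≠ 0 := by
      rintro rfl
      rw [inv_zero, mul_zero] at hc
      exact c0 ((map_eq_zero (algebraMap K F)).1 hc.symm)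
    exact ⟨hx, c, c0, by rw [← hc, inv_mul_cancel_right₀ hx]⟩
  · rintro ⟨hx, c, c0, hc⟩
    exact ⟨c, c0, by rw [hc, mul_inv_cancel_right₀ hx]⟩

theorem orth_card (E : Finset (MulChar F ℂ))
    (hE : ∀ χ, χ ∈ E ↔ ∀ c : K, c ≠ 0 → χ (algebraMap K F c) = 1) :
    E.card * (Nat.card K - 1) = Nat.card F - 1 := by
  let H : Subgroup Fˣ := (Units.map (algebraMap K F : K →* F)).range
  have h1 : Nat.card (MulChar.subgroupOrderIsoSubgroupMulChar F ℂ H).ofDual = E.card := by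
    rw [← Nat.card_eq_finsetCard]
    refine Nat.card_congr (Equiv.subtypeEquivRight fun χ => ?_)
    rw [MulChar.mem_subgroupOrderIsoSubgroupMulChar_iff, hE]
    constructor
    · intro h c c0
      exact h (Units.map (algebraMap K F : K →* F) (Units.mk0 c c0)) ⟨_, rfl⟩
    · rintro h _ ⟨u, rfl⟩
      exact h u u.ne_zero
  have h2 : Nat.card H = Nat.card K - 1 := by
    rw [← Nat.card_units]
    exact (Nat.card_congr (MonoidHom.ofInjective
      (Units.map_injective (algebraMap K F).injective)).toEquiv).symm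
  rw [← h1, ← h2, MulChar.card_subgroupOrderIsoSubgroupMulChar,
    ← Subgroup.card_eq_card_quotient_mul_card_subgroup, Nat.card_units]

end OrthA

section Orth
variable {k : Type} [Field k] [Fintype k]

theorem orth_fin {Q : k[X]} (hQ : Q.Monic) : Finite (AdjoinRoot Q) :=
  have := hQ.finite_adjoinRoot
  Module.finite_of_finite k

theorem mem_ev {Q : k[X]} (hQ : Q.Monic) {χ : MulChar (AdjoinRoot Q) ℂ} :
    χ ∈ ev Q ↔ ∀ c : k, c ≠ 0 → χ (AdjoinRoot.mk Q (C c)) = 1 := by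
  have := orth_fin hQ
  have hf : Finite (MulChar (AdjoinRoot Q) ℂ) := inferInstance
  rw [ev, dif_pos (Set.toFinite _), Set.Finite.mem_toFinset]
  rfl

theorem one_mem_ev {Q : k[X]} (hQ : Q.Monic) : 1 ∈ ev Q :=
  (mem_ev hQ).2 fun c hc => MulChar.one_apply
    ((isUnit_C.2 (IsUnit.mk0 c hc)).map (AdjoinRoot.mk Q))

theorem norm_chi_le {Q : k[X]} (hQ : Q.Monic) (χ : MulChar (AdjoinRoot Q) ℂ) (x : AdjoinRoot Q) :
    ‖χ x‖ ≤ 1 := by
  have := orth_fin hQ
  by_cases hx : IsUnit x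
  · obtain ⟨u, rfl⟩ := hx
    have h1 : χ u ^ orderOf u = 1 := by
      rw [← map_pow, ← Units.val_pow_eq_pow_val, pow_orderOf_eq_one, Units.val_one, map_one]
    exact (Complex.norm_eq_one_of_pow_eq_one h1 (orderOf_pos u).ne').le
  · rw [χ.map_nonunit hx, norm_zero]
    exact zero_le_one

theorem orth {Q : k[X]} (hQ : Q.Monic) (hi : Irreducible Q) (a b : k[X]) :
    ∑ χ ∈ ev Q, χ (AdjoinRoot.mk Q a) * (starRingEnd ℂ) (χ (AdjoinRoot.mk Q b)) =
      if ¬ Q ∣ b ∧ ∃ c : k, c ≠ 0 ∧ Q ∣ a - C c * b then (#(ev Q) : ℂ) else 0 := by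
  have := orth_fin hQ
  have : Fact (Irreducible Q) := ⟨hi⟩
  rw [orth_two (K := k) (ev Q) (fun χ => mem_ev hQ)]
  have e : (AdjoinRoot.mk Q b ≠ 0 ∧ ∃ c : k, c ≠ 0 ∧ AdjoinRoot.mk Q a =
      algebraMap k (AdjoinRoot Q) c * AdjoinRoot.mk Q b) ↔
      (¬ Q ∣ b ∧ ∃ c : k, c ≠ 0 ∧ Q ∣ a - C c * b) := by
    refine and_congr (not_congr AdjoinRoot.mk_eq_zero)
      (exists_congr fun c => and_congr_right fun _ => ?_)
    rw [← AdjoinRoot.mk_eq_mk, map_mul]
    rfl
  by_cases h : ¬ Q ∣ b ∧ ∃ c : k, c ≠ 0 ∧ Q ∣ a - C c * b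
  · rw [if_pos h, if_pos (e.2 h)]
  · rw [if_neg h, if_neg (mt e.1 h)]

theorem card_ev {Q : k[X]} (hQ : Q.Monic) (hi : Irreducible Q) :
    qq k ^ (Q.natDegree - 1) ≤ (#(ev Q) : ℝ) := by
  have := orth_fin hQ
  have : Fact (Irreducible Q) := ⟨hi⟩
  have h1 := orth_card (K := k) (ev Q) (fun χ => mem_ev hQ)
  have h2 : Nat.card (AdjoinRoot Q) = Nat.card k ^ Q.natDegree := by
    rw [Module.natCard_eq_pow_finrank (K := k), (AdjoinRoot.powerBasis' hQ).finrank]
    rfl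
  obtain ⟨d, hd⟩ : ∃ d, Q.natDegree = d + 1 := ⟨_, (Nat.succ_pred_eq_of_pos hi.natDegree_pos).symm⟩
  obtain ⟨r, hr⟩ : ∃ r, Nat.card k = r + 2 :=
    ⟨_, (Nat.sub_add_cancel (Finite.one_lt_card (α := k))).symm⟩
  rw [qq, ← Nat.card_eq_fintype_card, hd, Nat.add_sub_cancel, hr]
  rw [h2, hd, hr, pow_succ] at h1
  have h3 : 0 < (r + 2) ^ d := by positivity
  have h4 : (r + 2) ^ d * (r + 1) ≤ #(ev Q) * (r + 1) := by
    rw [show r + 1 = r + 2 - 1 from rfl, h1]
    refine Nat.le_sub_of_add_le ?_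
    rw [show r + 2 - 1 = r + 1 from rfl]
    nlinarith
  exact_mod_cast Nat.le_of_mul_le_mul_right h4 (Nat.succ_pos r)

end Orth
end

section
section
open Pool.Agent.MP_1609a8_nt.H76

theorem rh_newton2 (a S : ℕ → ℂ) (N : ℕ) (h0 : a 0 = 1) (hN : ∀ n, N ≤ n → a n = 0)
    (h : ∀ n, a (n + 1) * (n + 1) = ∑ x ∈ antidiagonal n, S x.1 * a x.2) :
    ∃ ω : Multiset ℂ, ω.card ≤ N - 1 ∧ (∀ r, S r = -(ω.map (· ^ (r + 1))).sum) ∧
      ∀ n, ((ω.map fun w => (1 - C w * X : ℂ[X])).prod).coeff n = a n := by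
  set L : ℂ[X] := PowerSeries.trunc N (PowerSeries.mk a)
  have hL : ∀ n, L.coeff n = a n := fun n => by
    rw [PowerSeries.coeff_trunc]
    split_ifs with c
    · simp
    · exact (hN n (by omega)).symm
  have e0 : (L : PowerSeries ℂ) = PowerSeries.mk a := by ext n; simp [hL]
  have e1 : (L : PowerSeries ℂ) = PowerSeries.C L.leadingCoeff *
      (L.roots.map fun a => (PowerSeries.X - PowerSeries.C a : PowerSeries ℂ)).prod := by
    conv_lhs => rw [(IsAlgClosed.splits L).eq_prod_roots]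
    rw [← coeToPowerSeries.ringHom_apply, map_mul, map_multiset_prod, Multiset.map_map]
    simp
  have h1 : (0 : ℂ) ∉ L.roots := fun c => one_ne_zero (by
    rw [← h0, ← hL, coeff_zero_eq_eval_zero]
    exact isRoot_of_mem_roots c)
  refine ⟨L.roots.map (·⁻¹), ?_, fun r => ?_, fun n => ?_⟩
  · rw [Multiset.card_map]
    exact (card_roots' L).trans (natDegree_le_iff_coeff_eq_zero.2 fun n hn => by
      rw [hL, hN n (by omega)])
  · have e2 : PowerSeries.derivative ℂ (L : PowerSeries ℂ) = PowerSeries.mk S * L := by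
      ext n
      rw [e0, PowerSeries.coeff_derivative, PowerSeries.coeff_mul]
      simpa using h n
    have e3 : PowerSeries.derivative ℂ (L : PowerSeries ℂ) =
        -(PowerSeries.mk fun r => (L.roots.map (·⁻¹ ^ (r + 1))).sum) * L := by
      rw [e1, Derivation.leibniz, newton _ h1]
      simp only [PowerSeries.derivative_C, smul_eq_mul]
      ring
    have e4 : (L : PowerSeries ℂ) ≠ 0 := fun c => one_ne_zero (α := ℂ) (by
      simpa [e0, h0] using congrArg (PowerSeries.coeff 0) (e0.symm.trans c))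
    simpa [Multiset.map_map] using
      congrArg (PowerSeries.coeff r) (mul_right_cancel₀ e4 (e2.symm.trans e3))
  · set P : ℂ[X] := ((L.roots.map (·⁻¹)).map fun w => (1 - C w * X : ℂ[X])).prod with hP
    have e5 : (L.roots.map fun a => (X - C a : ℂ[X])).prod =
        C (L.roots.map fun a => -a).prod * P := by
      rw [hP, map_multiset_prod, Multiset.map_map, Multiset.map_map, ← Multiset.prod_map_mul]
      refine congrArg _ (Multiset.map_congr rfl fun a ha => ?_)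
      have : a ≠ 0 := fun e => h1 (e ▸ ha)
      have e : (C a * C a⁻¹ : ℂ[X]) = 1 := by rw [← C_mul, mul_inv_cancel₀ this, C_1]
      simp only [Function.comp, C_neg]
      linear_combination (-X) * e
    have e6 : L = C (L.leadingCoeff * (L.roots.map fun a => -a).prod) * P := by
      rw [C_mul, mul_assoc, ← e5]
      exact (IsAlgClosed.splits L).eq_prod_roots
    have e7 : P.coeff 0 = 1 := by
      rw [coeff_zero_eq_eval_zero, hP, eval_multiset_prod, Multiset.map_map]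
      simp
    have e8 := congrArg (coeff · 0) e6
    simp only [coeff_C_mul, hL, h0, e7, mul_one] at e8
    rw [← e8, C_1, one_mul] at e6
    rw [← e6, hL]

theorem rh_lfun2 {K : Type} [Field K] [Fintype K] (l : K[X] →* ℂ) {f g0 : K[X]} (hf : f.Monic)
    (per : ∀ g h, l (g + f * h) = l g) (g1 : IsCoprime f g0) (g2 : l g0 ≠ 1) (r : ℕ) (hr : 0 < r)
    (B : ℝ) (H : ∀ (E : Type) [Field E] [Fintype E] [Algebra K E], r ∣ Module.finrank K E →
      ‖∑ x : E, l (ch K x)‖ ≤ B * √(Fintype.card E)) :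
    ∃ ω : Multiset ℂ, ω.card ≤ f.natDegree - 1 ∧ (∀ w ∈ ω, ‖w‖ ≤ √(Fintype.card K)) ∧
      ∀ n, ((ω.map fun w => (1 - C w * X : ℂ[X])).prod).coeff n = ∑ g ∈ Mon K n, l g := by
  classical
  obtain ⟨p, hp⟩ := CharP.exists K
  have : Fact p.Prime := ⟨CharP.char_is_prime K p⟩
  obtain ⟨F, _, _, _, hF⟩ : ∃ (F : ℕ → Type) (_ : ∀ r, Field (F r)) (_ : ∀ r, Fintype (F r))
      (_ : ∀ r, Algebra K (F r)), ∀ r, Module.finrank K (F r) = r + 1 :=
    ⟨fun r => FiniteField.Extension K p (r + 1), inferInstance, fun _ => Fintype.ofFinite _,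
      inferInstance, fun r => FiniteField.finrank_extension K p (r + 1)⟩
  set R := √(Fintype.card K : ℝ)
  have R1 : 1 < R := Real.lt_sqrt_of_sq_lt (by simpa using Fintype.one_lt_card)
  have hs : ∀ s, r * (s + 1) - 1 + 1 = r * (s + 1) := fun s =>
    Nat.sub_add_cancel (Nat.mul_pos hr s.succ_pos)
  have hc : ∀ s, (Fintype.card (F (r * (s + 1) - 1)) : ℝ) = (R ^ (r * (s + 1))) ^ 2 := fun s => by
    rw [Module.card_eq_pow_finrank (K := K), hF, hs, ← pow_mul, mul_comm _ 2, pow_mul R 2,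
      Real.sq_sqrt (by positivity), Nat.cast_pow]
  have H1 : ∀ s, ‖∑ x : F (r * (s + 1) - 1), l (ch K x)‖ ≤ B * R ^ (r * (s + 1)) := fun s => by
    have := H (F (r * (s + 1) - 1)) (by rw [hF, hs]; exact dvd_mul_right _ _)
    rwa [hc, Real.sqrt_sq (by positivity)] at this
  have a0 : Mon K 0 = {1} := by
    ext g
    simp +contextual [mem_Mon, iff_def, Monic.natDegree_eq_zero]
  obtain ⟨ω, w1, w2, w4⟩ := rh_newton2 (fun n => ∑ g ∈ Mon K n, l g)
    (fun r => ∑ x : F r, l (ch K x)) f.natDegree (by simp [a0])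
    (fun n => mon_zero l hf per g1 g2) (recur hF l)
  have w3 := powsum' (ω.map fun w => (w / R) ^ r) B fun s => by
    have := H1 s
    rw [w2, hs, norm_neg, ← div_le_iff₀ (by positivity)] at this
    simpa [Multiset.map_map, ← pow_mul, div_pow, Multiset.sum_map_div, abs_of_pos,
      zero_lt_one.trans R1] using this
  refine ⟨ω, w1, fun w hw => ?_, w4⟩
  have := w3 _ (Multiset.mem_map_of_mem _ hw)
  rwa [norm_pow, pow_le_one_iff_of_nonneg (norm_nonneg _) hr.ne', norm_div, Complex.norm_real,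
    Real.norm_of_nonneg (by positivity), div_le_one (by positivity)] at this

open Classical in
theorem rh_weil_gen2 {K F J : Type} [Field K] [Fintype K] [Field F] [Fintype F] [Algebra K F]
    [Fintype J] (a : J → F) (n : J → ℕ) (χ : F →* ℂ) {f : K[X]} (hf : f.Monic)
    (f0 : ∀ j, aeval (a j) f = 0) (b : F) {u : F} (hu : u ≠ 0)
    (h1 : χ u ^ (∑ z ∈ univ ×ˢ range (Module.finrank K F) with b ^ Fintype.card K ^ z.2 = a z.1,
      n z.1 * Fintype.card K ^ z.2) ≠ 1) {g0 : K[X]} (g1 : IsCoprime f g0)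
    (g2 : ∏ j, χ (aeval (a j) g0) ^ n j ≠ 1) :
    ∃ ω : Multiset ℂ, ω.card ≤ f.natDegree - 1 ∧ (∀ w ∈ ω, ‖w‖ ≤ √(Fintype.card K)) ∧
      ∀ d, ((ω.map fun w => (1 - C w * X : ℂ[X])).prod).coeff d =
        ∑ g ∈ Mon K d, ∏ j, χ (aeval (a j) g) ^ n j := by
  obtain ⟨p, hp⟩ := CharP.exists K
  have : Fact p.Prime := ⟨CharP.char_is_prime K p⟩
  have : CharP F p := charP_of_injective_algebraMap (algebraMap K F).injective p
  obtain ⟨ν, -, hν⟩ := FiniteField.card K p
  set q := Fintype.card K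
  set t := Module.finrank K F with ht
  have t0 : 0 < t := Module.finrank_pos
  set m : F → ℕ := fun b => ∑ z ∈ univ ×ˢ range t with b ^ q ^ z.2 = a z.1, n z.1 * q ^ z.2
  obtain ⟨B, hB⟩ := ext_bound F p m 0 χ 1 (by simp) (Or.inl ⟨b, u, hu, h1⟩)
  set l : K[X] →* ℂ := ∏ j, (powMonoidHom (n j)).comp (χ.comp (aeval (a j) : K[X] →ₐ[K] F))
  have hl : ∀ g, l g = ∏ j, χ (aeval (a j) g) ^ n j := fun g => by simp [l]
  have lb : ∀ g, ‖l g‖ ≤ 1 := fun g => by
    rw [hl, norm_prod]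
    exact prod_le_one (by simp) fun j _ => by
      rw [norm_pow]
      exact pow_le_one₀ (norm_nonneg _) (chi_le χ _)
  have := rh_lfun2 l hf (fun g h => ?_) g1 (by rwa [hl]) (t * 2) (by omega) (B + Fintype.card F) ?_
  · simpa only [hl] using this
  · simp only [hl, map_add, map_mul, f0, zero_mul, add_zero]
  intro E _ _ _ hE
  obtain ⟨φ⟩ := FiniteField.nonempty_algHom_of_finrank_dvd ((dvd_mul_right _ _).trans hE)
  let := φ.toRingHom.toAlgebra
  have : IsScalarTower K F E := .of_algebraMap_eq fun x => (φ.commutes x).symm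
  have : CharP E p := charP_of_injective_algebraMap (algebraMap K E).injective p
  have e1 := Module.finrank_mul_finrank K F E
  refine split_sum (algebraMap F E) (fun x => lb _) (fun x _ => ?_)
    (hB E (Nat.dvd_of_mul_dvd_mul_left t0 (e1 ▸ hE)))
  set i := algebraMap F E
  have fr : ∀ (k : ℕ) (y z : E), (y - z) ^ q ^ k = y ^ q ^ k - z ^ q ^ k := fun k y z => by
    rw [hν, ← pow_mul, sub_pow_char_pow]
  have e2 : ∏ b, (i b - x) ^ m b = ∏ j, (∏ k ∈ range t, (i (a j) - x ^ q ^ k)) ^ n j := by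
    simp only [m, ← prod_pow_eq_pow_sum, prod_filter]
    rw [Finset.prod_comm, Finset.prod_product]
    refine prod_congr rfl fun j _ => ?_
    rw [← prod_pow]
    refine prod_congr rfl fun k _ => ?_
    obtain ⟨b, hb⟩ := (bijective_iterateFrobenius F p (ν * k)).2 (a j)
    rw [prod_eq_single b (fun c _ hc => if_neg fun e => hc ?_) (by simp)]
    · rw [iterateFrobenius_def, pow_mul, ← hν] at hb
      rw [if_pos hb, mul_comm, pow_mul, fr, ← map_pow, hb]
    · refine (bijective_iterateFrobenius F p (ν * k)).1 ?_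
      rw [hb, iterateFrobenius_def, pow_mul, ← hν, e]
  simp only [hl, e2, map_prod, map_pow, AddChar.one_apply, mul_one]
  refine prod_congr rfl fun j _ => ?_
  rw [← map_prod, ← map_prod]
  congr 2
  apply i.injective
  rw [FiniteField.algebraMap_norm_eq_prod_pow, ← aeval_algebraMap_apply, ← eval_map_algebraMap,
    ch_map, eval_prod, ← e1, prod_range_mul]
  refine prod_congr rfl fun k _ => ?_
  have e3 : Fintype.card F ^ k = q ^ (t * k) := by rw [pow_mul, ← Module.card_eq_pow_finrank]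
  rw [← prod_pow, Nat.card_eq_fintype_card]
  refine prod_congr rfl fun r _ => ?_
  rw [e3, fr, ← map_pow, ← e3, FiniteField.pow_card_pow, e3, ← pow_mul, ← pow_add, add_comm r]
  simp [i, q, t]

open Classical in
theorem rh_sum_decomp {K : Type} [Field K] [Fintype K] {Q : K[X]} (hQ : Q.Monic)
    [Fintype (AdjoinRoot Q)] (φ : AdjoinRoot Q → ℂ) :
    ∑ x, φ x = φ 0 + ∑ n ∈ range Q.natDegree, ∑ c ∈ univ.erase (0 : K), ∑ g ∈ Mon K n,
      φ (AdjoinRoot.mk Q (C c * g)) := by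
  rw [← add_sum_erase _ _ (mem_univ 0)]
  congr 1
  simp_rw [← sum_product']
  rw [sum_sigma']
  have dg : ∀ {c : K} {g : K[X]} {n : ℕ}, c ≠ 0 → g ∈ Mon K n →
      (C c * g).natDegree = n ∧ (C c * g).leadingCoeff = c ∧ C c * g ≠ 0 := fun c0 hg => by
    obtain ⟨g1, g2⟩ := mem_Mon.1 hg
    exact ⟨by rw [natDegree_C_mul c0, g2], by rw [leadingCoeff_mul, g1.leadingCoeff]; simp,
      mul_ne_zero (C_ne_zero.2 c0) g1.ne_zero⟩
  have lt : ∀ {g : K[X]}, g.natDegree < Q.natDegree → g.degree < Q.degree :=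
    fun h => degree_lt_degree h
  refine (sum_bij (fun z _ => AdjoinRoot.mk Q (C z.2.1 * z.2.2)) (fun z hz => ?_)
    (fun z hz y hy e => ?_) (fun x hx => ?_) fun _ _ => rfl).symm
  · simp only [mem_sigma, mem_range, mem_product, mem_erase, mem_univ, and_true] at hz ⊢
    obtain ⟨a1, -, a3⟩ := dg hz.2.1 hz.2.2
    exact AdjoinRoot.mk_ne_zero_of_natDegree_lt hQ a3 (a1 ▸ hz.1)
  · obtain ⟨n, c, g⟩ := z
    obtain ⟨m, e', h⟩ := y
    simp only [mem_sigma, mem_range, mem_product, mem_erase, mem_univ, and_true] at hz hy e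
    obtain ⟨a1, a2, -⟩ := dg hz.2.1 hz.2.2
    obtain ⟨b1, b2, -⟩ := dg hy.2.1 hy.2.2
    have e1 : C c * g = C e' * h := by
      by_contra ne
      refine AdjoinRoot.mk_ne_zero_of_degree_lt hQ (sub_ne_zero.2 ne) ((degree_sub_le _ _).trans_lt
        (max_lt (lt (a1 ▸ hz.1)) (lt (b1 ▸ hy.1)))) ?_
      rw [map_sub, e, sub_self]
    obtain rfl : n = m := by rw [← a1, e1, b1]
    obtain rfl : c = e' := by rw [← a2, e1, b2]
    obtain rfl : g = h := mul_left_cancel₀ (C_ne_zero.2 hz.2.1) e1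
    rfl
  · set p := AdjoinRoot.modByMonicHom hQ x with hp
    have p1 : AdjoinRoot.mk Q p = x := AdjoinRoot.mk_leftInverse hQ x
    have p0 : p ≠ 0 := fun e => (mem_erase.1 hx).1 (by rw [← p1, e, map_zero])
    have p2 : p.degree < Q.degree := by
      obtain ⟨f, rfl⟩ := AdjoinRoot.mk_surjective x
      rw [hp, AdjoinRoot.modByMonicHom_mk]
      exact degree_modByMonic_lt _ hQ
    have l0 := leadingCoeff_ne_zero.2 p0
    refine ⟨⟨p.natDegree, p.leadingCoeff, p * C p.leadingCoeff⁻¹⟩, ?_, ?_⟩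
    · simp only [mem_sigma, mem_range, mem_product, mem_erase, mem_univ, and_true, mem_Mon]
      exact ⟨natDegree_lt_natDegree p0 p2, l0, monic_mul_leadingCoeff_inv p0,
        natDegree_mul_C (inv_ne_zero l0)⟩
    · dsimp only
      rw [mul_left_comm, ← C_mul, mul_inv_cancel₀ l0, C_1, mul_one, p1]

theorem rh_gauss {K : Type} [Field K] [Fintype K] {Q : K[X]} (hQ : Q.Monic) [Fact (Irreducible Q)]
    (χ : MulChar (AdjoinRoot Q) ℂ) (h1 : χ ≠ 1)
    (ev : ∀ c : K, c ≠ 0 → χ (AdjoinRoot.mk Q (C c)) = 1) :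
    ∑ n ∈ range Q.natDegree, ∑ g ∈ Mon K n, χ (AdjoinRoot.mk Q g) = 0 ∧
      (Fintype.card K : ℝ) ^ 2 * ‖∑ g ∈ Mon K (Q.natDegree - 1), χ (AdjoinRoot.mk Q g)‖ ^ 2 =
        (Fintype.card K : ℝ) ^ Q.natDegree := by
  classical
  have d0 : 0 < Q.natDegree := (Fact.out : Irreducible Q).natDegree_pos
  have : Module.Finite K (AdjoinRoot Q) := hQ.finite_adjoinRoot
  have : Finite (AdjoinRoot Q) := Module.finite_of_finite K
  let : Fintype (AdjoinRoot Q) := Fintype.ofFinite _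
  set q := Fintype.card K with hq
  set a : ℕ → ℂ := fun n => ∑ g ∈ Mon K n, χ (AdjoinRoot.mk Q g) with ha
  have q1 : ((#(univ.erase (0 : K)) : ℕ) : ℂ) = q - 1 := by
    rw [card_erase_of_mem (mem_univ _), card_univ, Nat.cast_sub Fintype.card_pos, Nat.cast_one]
  have q2 : (q : ℂ) - 1 ≠ 0 := sub_ne_zero.2 (by exact_mod_cast Fintype.one_lt_card.ne')
  have s1 : ∀ n, ∑ c ∈ univ.erase (0 : K), ∑ g ∈ Mon K n, χ (AdjoinRoot.mk Q (C c * g)) =
      (q - 1) * a n := fun n => by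
    rw [sum_congr rfl fun c hc => (show _ = a n from sum_congr rfl fun g _ => by
      rw [map_mul, map_mul, ev c (mem_erase.1 hc).1, one_mul]), sum_const, nsmul_eq_mul, q1]
  have z : ∑ n ∈ range Q.natDegree, a n = 0 := by
    have := rh_sum_decomp hQ χ
    rw [MulChar.sum_eq_zero_of_ne_one h1, MulChar.map_zero, zero_add] at this
    simp only [s1, ← mul_sum] at this
    exact (mul_eq_zero.1 this.symm).resolve_left q2
  refine ⟨z, ?_⟩
  obtain ⟨d, hd⟩ : ∃ d, Q.natDegree = d + 1 := ⟨_, (Nat.sub_add_cancel d0).symm⟩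
  set ψ₀ := AddChar.FiniteField.primitiveChar_to_Complex K
  have p0 : ψ₀ ≠ 1 := by
    have := AddChar.FiniteField.primitiveChar_to_Complex_isPrimitive K one_ne_zero
    rwa [AddChar.mulShift_one] at this
  set τ : AdjoinRoot Q →+ K :=
    ((lcoeff K d).comp (AdjoinRoot.modByMonicHom hQ)).toAddMonoidHom with hτ
  have t1 : ∀ g : K[X], g.natDegree < d + 1 → τ (AdjoinRoot.mk Q g) = g.coeff d := fun g hg => by
    have : g %ₘ Q = g := (modByMonic_eq_self_iff hQ).2 (degree_lt_degree (hd ▸ hg))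
    simp [hτ, this]
  set ψ : AddChar (AdjoinRoot Q) ℂ := ψ₀.compAddMonoidHom τ with hψ
  have p1 : ψ ≠ 1 := fun e => p0 (AddChar.ext _ _ fun c => by
    have := DFunLike.congr_fun e (AdjoinRoot.mk Q (C c * X ^ d))
    rw [hψ, AddChar.compAddMonoidHom_apply, t1 _ ((natDegree_C_mul_X_pow_le c d).trans_lt
      d.lt_succ_self)] at this
    simpa using this)
  have g1 : gaussSum χ ψ = -q * a d := by
    have := rh_sum_decomp hQ fun x => χ x * ψ x
    rw [MulChar.map_zero, zero_mul, zero_add, hd, sum_range_succ] at this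
    rw [hd, sum_range_succ] at z
    have u1 : ∀ n ∈ range d, ∑ c ∈ univ.erase (0 : K), ∑ g ∈ Mon K n,
        χ (AdjoinRoot.mk Q (C c * g)) * ψ (AdjoinRoot.mk Q (C c * g)) = (q - 1) * a n := by
      intro n hn
      rw [← s1]
      refine sum_congr rfl fun c _ => sum_congr rfl fun g hg => ?_
      have b : (C c * g).natDegree < d :=
        (natDegree_C_mul_le c g).trans_lt ((mem_Mon.1 hg).2 ▸ mem_range.1 hn)
      rw [hψ, AddChar.compAddMonoidHom_apply, t1 _ (by omega), coeff_eq_zero_of_natDegree_lt b,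
        AddChar.map_zero_eq_one, mul_one]
    have u2 : ∑ c ∈ univ.erase (0 : K), ∑ g ∈ Mon K d,
        χ (AdjoinRoot.mk Q (C c * g)) * ψ (AdjoinRoot.mk Q (C c * g)) = -a d := by
      have v : ∑ c ∈ univ.erase (0 : K), ψ₀ c = -1 := by
        have := AddChar.sum_eq_zero_of_ne_one p0
        rw [← add_sum_erase _ _ (mem_univ 0), AddChar.map_zero_eq_one] at this
        linear_combination this
      rw [neg_eq_neg_one_mul, ← v, sum_mul]
      refine sum_congr rfl fun c hc => ?_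
      rw [ha, mul_sum]
      refine sum_congr rfl fun g hg => ?_
      obtain ⟨b1, b2⟩ := mem_Mon.1 hg
      have b3 : g.coeff d = 1 := b2 ▸ b1.coeff_natDegree
      rw [hψ, AddChar.compAddMonoidHom_apply, t1 _ ((natDegree_C_mul_le c g).trans_lt (by omega)),
        coeff_C_mul, b3, mul_one, map_mul, map_mul, ev c (mem_erase.1 hc).1, one_mul, mul_comm]
    rw [sum_congr rfl u1, u2, ← mul_sum] at this
    rw [gaussSum, this]
    linear_combination ((q : ℂ) - 1) * z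
  have g2 := gaussSum_mul_gaussSum_eq_card h1 (AddChar.IsPrimitive.of_ne_one p1)
  rw [← star_gaussSum_eq, g1] at g2
  have g3 := congrArg norm g2
  rw [norm_mul, norm_star, norm_mul, norm_neg, Complex.norm_natCast, Complex.norm_natCast,
    Module.card_eq_pow_finrank (K := K), (AdjoinRoot.powerBasis' hQ).finrank,
    AdjoinRoot.powerBasis'_dim, Nat.cast_pow] at g3
  rw [← g3, hd, Nat.add_sub_cancel]
  ring

theorem rh_all_eq {ω : Multiset ℝ} {R : ℝ} (hR : 0 < R) (h0 : ∀ w ∈ ω, 0 ≤ w) (h : ∀ w ∈ ω, w ≤ R)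
    (e : ω.prod = R ^ ω.card) : ∀ w ∈ ω, w = R := by
  intro w hw
  obtain ⟨s, rfl⟩ := Multiset.exists_cons_of_mem hw
  have key : ∀ s : Multiset ℝ, (∀ w ∈ s, 0 ≤ w) → (∀ w ∈ s, w ≤ R) → s.prod ≤ R ^ s.card := by
    intro s
    induction s using Multiset.induction_on with
    | empty => simp
    | cons a s ih =>
      intro a0 a1
      rw [Multiset.prod_cons, Multiset.card_cons, pow_succ']
      exact mul_le_mul (a1 a (by simp)) (ih (fun w hw => a0 w (by simp [hw]))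
        fun w hw => a1 w (by simp [hw])) (Multiset.prod_nonneg fun w hw => a0 w (by simp [hw]))
        hR.le
  have a := key s (fun w hw => h0 w (by simp [hw])) fun w hw => h w (by simp [hw])
  rw [Multiset.prod_cons, Multiset.card_cons, pow_succ'] at e
  refine le_antisymm (h w hw) (le_of_mul_le_mul_right ?_ (pow_pos hR s.card))
  rw [← e]
  exact mul_le_mul_of_nonneg_left a (h0 w hw)

/-- The Riemann Hypothesis for an even character modulo a prime polynomial. -/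
theorem rh_even {K : Type} [Field K] [Fintype K] {Q : K[X]} (hQ : Q.Monic) [Fact (Irreducible Q)]
    (χ : MulChar (AdjoinRoot Q) ℂ) (h1 : χ ≠ 1)
    (ev : ∀ c : K, c ≠ 0 → χ (AdjoinRoot.mk Q (C c)) = 1) :
    ∃ θ : Fin (Q.natDegree - 2) → ℝ, ∀ n, ((1 - X) * ∏ j, (1 - C ((√(Fintype.card K) : ℝ) *
      Complex.exp (θ j * Complex.I)) * X) : ℂ[X]).coeff n =
        ∑ g ∈ Mon K n, χ (AdjoinRoot.mk Q g) := by
  classical
  have hi : Irreducible Q := Fact.out
  have d0 : 0 < Q.natDegree := hi.natDegree_pos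
  have : Module.Finite K (AdjoinRoot Q) := hQ.finite_adjoinRoot
  have : Finite (AdjoinRoot Q) := Module.finite_of_finite K
  let : Fintype (AdjoinRoot Q) := Fintype.ofFinite _
  obtain ⟨z, gs⟩ := rh_gauss hQ χ h1 ev
  obtain ⟨u, hu⟩ := MulChar.ne_one_iff.1 h1
  obtain ⟨g0, hg⟩ := AdjoinRoot.mk_surjective (u : AdjoinRoot Q)
  have g1 : IsCoprime Q g0 := hi.coprime_iff_not_dvd.2 fun e =>
    u.ne_zero (hg ▸ AdjoinRoot.mk_eq_zero.2 e)
  obtain ⟨ω, w1, w2, w3⟩ := rh_weil_gen2 (fun _ : Unit => AdjoinRoot.root Q) (fun _ => 1)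
    χ.toMonoidHom hQ (fun _ => by rw [AdjoinRoot.aeval_eq, AdjoinRoot.mk_self]) (AdjoinRoot.root Q)
    u.ne_zero (by
      rw [sum_eq_single ((), 0) (fun z hz c => ?_) fun c => ?_]
      · simpa using hu
      · rw [mem_filter, mem_product, mem_range] at hz
        refine (c (Prod.ext rfl ?_)).elim
        have o := FiniteField.orderOf_frobeniusAlgHom K (AdjoinRoot Q)
        have e : FiniteField.frobeniusAlgHom K (AdjoinRoot Q) ^ z.2 = 1 := by
          refine AdjoinRoot.algHom_ext ?_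
          rw [AlgHom.coe_pow, FiniteField.coe_frobeniusAlgHom, pow_iterate]
          exact hz.2
        exact Nat.eq_zero_of_dvd_of_lt (o ▸ orderOf_dvd_of_pow_eq_one e) hz.1.2
      · simp [(Module.finrank_pos (R := K) (M := AdjoinRoot Q)).ne'] at c) g1
    (by simpa [AdjoinRoot.aeval_eq, hg] using hu)
  have w4 : ∀ n, ((ω.map fun w => (1 - C w * X : ℂ[X])).prod).coeff n =
      ∑ g ∈ Mon K n, χ (AdjoinRoot.mk Q g) := fun n => by
    simpa [AdjoinRoot.aeval_eq] using w3 n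
  set R := √(Fintype.card K : ℝ) with hR
  have R0 : 0 < R := Real.sqrt_pos.2 (by exact_mod_cast Fintype.card_pos)
  have R2 : (Fintype.card K : ℝ) = R ^ 2 := (Real.sq_sqrt (by positivity)).symm
  have d1 : ∀ a : ℂ, (1 - C a * X : ℂ[X]).natDegree ≤ 1 := fun a => by compute_degree
  have dp : ((ω.map fun w => (1 - C w * X : ℂ[X])).prod).natDegree ≤ ω.card :=
    (natDegree_multiset_prod_le _).trans ((Multiset.sum_le_card_nsmul _ 1 fun x hx => by
      simp only [Multiset.mem_map] at hx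
      obtain ⟨_, ⟨w, -, rfl⟩, rfl⟩ := hx
      exact d1 w).trans (by simp))
  have c1 : ω.card = Q.natDegree - 1 := by
    refine le_antisymm w1 (not_lt.1 fun c => ?_)
    rw [← w4, coeff_eq_zero_of_natDegree_lt (dp.trans_lt c), R2] at gs
    simp only [norm_zero, ne_eq, OfNat.ofNat_ne_zero, not_false_eq_true, zero_pow, mul_zero] at gs
    exact (by positivity : (0 : ℝ) < (R ^ 2) ^ Q.natDegree).ne gs
  have o1 : (1 : ℂ) ∈ ω := by
    have e : eval 1 ((ω.map fun w => (1 - C w * X : ℂ[X])).prod) = 0 := by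
      rw [eval_eq_sum_range' (n := Q.natDegree) (by omega)]
      simpa only [one_pow, mul_one, w4] using z
    rw [eval_multiset_prod, Multiset.prod_eq_zero_iff] at e
    simp only [Multiset.map_map, Multiset.mem_map, Function.comp, eval_sub, eval_one, eval_mul,
      eval_C, eval_X, mul_one] at e
    obtain ⟨w, hw, e⟩ := e
    rwa [sub_eq_zero.1 e]
  obtain ⟨s, rfl⟩ := Multiset.exists_cons_of_mem o1
  rw [Multiset.card_cons] at c1
  have c2 : s.card = Q.natDegree - 2 := by omega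
  have c3 : Q.natDegree = s.card + 2 := by omega
  have n1 : ‖∑ g ∈ Mon K (Q.natDegree - 1), χ (AdjoinRoot.mk Q g)‖ = (s.map norm).prod := by
    have := coeff_multiset_prod_of_natDegree_le ((1 ::ₘ s).map fun w => (1 - C w * X : ℂ[X])) 1
      fun p hp => by
        obtain ⟨w, -, rfl⟩ := Multiset.mem_map.1 hp
        exact d1 w
    rw [Multiset.card_map, Multiset.card_cons, mul_one, c1, w4] at this
    rw [this, ← normHom_apply, map_multiset_prod]
    simp [coeff_one]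
  have n2 : (s.map norm).prod = R ^ (s.map norm).card := by
    rw [n1, R2, c3] at gs
    rw [Multiset.card_map]
    refine (pow_left_inj₀ (Multiset.prod_nonneg fun x hx => ?_) (by positivity) two_ne_zero).1
      (mul_left_cancel₀ (show (R ^ 2) ^ 2 ≠ 0 by positivity) (gs.trans (by ring)))
    obtain ⟨w, -, rfl⟩ := Multiset.mem_map.1 hx
    exact norm_nonneg _
  have n3 := rh_all_eq R0 (fun x hx => by
    obtain ⟨w, -, rfl⟩ := Multiset.mem_map.1 hx
    exact norm_nonneg _) (fun x hx => by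
    obtain ⟨w, hw, rfl⟩ := Multiset.mem_map.1 hx
    exact w2 w (Multiset.mem_cons_of_mem hw)) n2
  have ex : ∃ f : Fin s.card → ℂ, (∀ j, f j ∈ s) ∧ ∀ φ : ℂ → ℂ[X], ∏ j, φ (f j) = (s.map φ).prod := by
    induction s using Quotient.inductionOn with | _ l => ?_
    refine ⟨l.get, fun j => l.get_mem j, fun φ => ?_⟩
    have : (l.map φ).prod = ∏ j, φ (l.get j) := by
      conv_lhs => rw [← List.ofFn_get l, List.map_ofFn, List.prod_ofFn]
      rfl
    exact this.symm
  obtain ⟨f, f1, f2⟩ := ex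
  rw [← c2]
  refine ⟨fun j => (f j).arg, fun n => ?_⟩
  rw [← w4, Multiset.map_cons, Multiset.prod_cons, C_1, one_mul, ← f2]
  congr 2
  refine prod_congr rfl fun j _ => ?_
  rw [← n3 _ (Multiset.mem_map_of_mem _ (f1 j)), Complex.norm_mul_exp_arg_mul_I]

open PowerSeries in
theorem rh_even' {K : Type} [Field K] [Fintype K] {Q : K[X]} (hQ : Q.Monic) [Fact (Irreducible Q)]
    (χ : MulChar (AdjoinRoot Q) ℂ) (h1 : χ ≠ 1)
    (ev : ∀ c : K, c ≠ 0 → χ (AdjoinRoot.mk Q (Polynomial.C c)) = 1) :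
    ∃ θ : Fin (Q.natDegree - 2) → ℝ,
      (PowerSeries.mk fun n => ∑ g ∈ Mon K n, χ (AdjoinRoot.mk Q g)) =
        (1 - PowerSeries.X) * ∏ j, (1 - PowerSeries.C ((√(Fintype.card K) : ℝ) *
          Complex.exp (θ j * Complex.I)) * PowerSeries.X) := by
  obtain ⟨θ, h⟩ := rh_even hQ χ h1 ev
  refine ⟨θ, ?_⟩
  have : (((1 - Polynomial.X) * ∏ j, (1 - Polynomial.C ((√(Fintype.card K) : ℝ) *
      Complex.exp (θ j * Complex.I)) * Polynomial.X) : ℂ[X]) : ℂ⟦X⟧) =
      PowerSeries.mk fun n => ∑ g ∈ Mon K n, χ (AdjoinRoot.mk Q g) := by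
    ext n
    rw [Polynomial.coeff_coe, h, coeff_mk]
  rw [← this, ← Polynomial.coeToPowerSeries.ringHom_apply]
  simp only [map_mul, map_prod, map_sub, map_one,
    Polynomial.coeToPowerSeries.ringHom_apply, Polynomial.coe_C, Polynomial.coe_X]

variable {k : Type} [Field k] [Fintype k]

theorem rh {Q : k[X]} (hQ : Q.Monic) (hi : Irreducible Q) {χ : MulChar (AdjoinRoot Q) ℂ}
    (hχ : χ ≠ 1) (he : χ ∈ ev Q) {N : ℕ} (hN : Q.natDegree = N + 2) :
    ∃ θ : Fin N → ℝ, PowerSeries.mk (AA Q χ) = (1 - PowerSeries.X) *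
      ∏ j, (1 - PowerSeries.C (((√(qq k) : ℝ) : ℂ) * Complex.exp (θ j * Complex.I)) *
        PowerSeries.X) := by
  have : Fact (Irreducible Q) := ⟨hi⟩
  obtain rfl : N = Q.natDegree - 2 := by omega
  have e : ∀ n, mon k n = Mon k n := fun n => by
    ext g
    rw [mem_mon, mem_Mon]
  obtain ⟨θ, h⟩ := rh_even' hQ χ hχ ((mem_ev hQ).1 he)
  refine ⟨θ, Eq.trans ?_ h⟩
  ext n
  rw [PowerSeries.coeff_mk, PowerSeries.coeff_mk, AA, e]

end
end

section
section
variable {k : Type} [Field k] [Fintype k]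

theorem var1_iff {Q f g : k[X]} {i j : ℕ} (hf : f ∈ mon k i) (hg : g ∈ mon k j)
    (hi : i < Q.natDegree) (hj : j < Q.natDegree) :
    (¬ Q ∣ g ∧ ∃ c : k, c ≠ 0 ∧ Q ∣ f - C c * g) ↔ f = g := by
  obtain ⟨f1, f2⟩ := mem_mon.1 hf
  obtain ⟨g1, g2⟩ := mem_mon.1 hg
  constructor
  · rintro ⟨-, c, hc, hd⟩
    have h0 : f - C c * g = 0 := by
      refine eq_zero_of_dvd_of_natDegree_lt hd ?_
      refine lt_of_le_of_lt (natDegree_sub_le _ _) (max_lt (by omega) ?_)
      exact lt_of_le_of_lt (natDegree_C_mul_le _ _) (by omega)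
    have h1 : f = C c * g := sub_eq_zero.1 h0
    have h2 : c = 1 := by
      have := congrArg leadingCoeff h1
      rw [leadingCoeff_mul, leadingCoeff_C, f1.leadingCoeff, g1.leadingCoeff, mul_one] at this
      exact this.symm
    rw [h1, h2, C_1, one_mul]
  · rintro rfl
    refine ⟨fun hd => ?_, 1, one_ne_zero, by simp⟩
    have := natDegree_le_of_dvd hd f1.ne_zero
    omega

theorem var1_cross {Q : k[X]} (hQ : Q.Monic) (hi : Irreducible Q) {i j : ℕ}
    (h1 : i < Q.natDegree) (h2 : j < Q.natDegree) :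
    ∑ χ ∈ ev Q, MM Q χ i * (starRingEnd ℂ) (MM Q χ j) =
      if i = j then (#(ev Q) : ℂ) * (sqf k i : ℝ) else 0 := by
  have e : ∑ χ ∈ ev Q, MM Q χ i * (starRingEnd ℂ) (MM Q χ j) =
      ∑ f ∈ mon k i, ∑ g ∈ mon k j, (mu f : ℂ) * (mu g : ℂ) *
        (if f = g then (#(ev Q) : ℂ) else 0) := by
    simp only [MM, map_sum, sum_mul_sum]
    rw [sum_comm]
    refine sum_congr rfl fun f hf => ?_
    rw [sum_comm]
    refine sum_congr rfl fun g hg => ?_
    have ho := orth hQ hi f g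
    rw [if_congr (var1_iff hf hg h1 h2) rfl rfl] at ho
    rw [← ho, mul_sum]
    refine sum_congr rfl fun χ _ => ?_
    rw [map_mul, Complex.conj_ofReal]
    ring
  rw [e]
  split_ifs with hij
  · subst hij
    rw [sqf, Complex.ofReal_sum, mul_sum]
    refine sum_congr rfl fun f hf => ?_
    simp only [mul_ite, mul_zero]
    rw [sum_ite_eq, if_pos hf]
    push_cast
    ring
  · refine sum_eq_zero fun f hf => sum_eq_zero fun g hg => ?_
    rw [if_neg, mul_zero]
    rintro rfl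
    exact hij ((mem_mon.1 hf).2.symm.trans (mem_mon.1 hg).2)

theorem var1_norm {Q : k[X]} (χ : MulChar (AdjoinRoot Q) ℂ) (n : ℕ) :
    ‖HH Q χ n‖ ^ 2 = ‖MM Q χ n - if n = 0 then 0 else MM Q χ (n - 1)‖ ^ 2 / qq k ^ n := by
  have hq : (0 : ℝ) ≤ qq k := le_trans zero_le_two two_le_qq
  rw [HH, norm_div, div_pow, norm_pow, Complex.norm_real, Real.norm_eq_abs,
    abs_of_nonneg (Real.sqrt_nonneg _), ← pow_mul, mul_comm n 2, pow_mul, Real.sq_sqrt hq]

theorem var_lt {Q : k[X]} (hQ : Q.Monic) (hi : Irreducible Q) {n : ℕ} (h3 : 3 ≤ n)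
    (hn : n < Q.natDegree) :
    ∑ χ ∈ ev Q, ‖HH Q χ n‖ ^ 2 = (#(ev Q) : ℝ) * (1 - 1 / qq k ^ 2) := by
  have hq : (0 : ℝ) < qq k := lt_of_lt_of_le zero_lt_two two_le_qq
  obtain ⟨m, rfl⟩ : ∃ m, n = m + 3 := ⟨n - 3, by omega⟩
  have e : ∑ χ ∈ ev Q, ‖MM Q χ (m + 3) - MM Q χ (m + 2)‖ ^ 2 =
      (#(ev Q) : ℝ) * (sqf k (m + 3) + sqf k (m + 2)) := by
    apply Complex.ofReal_injective
    have a1 := var1_cross hQ hi hn hn
    have a2 := var1_cross hQ hi hn (show m + 2 < Q.natDegree by omega)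
    have a3 := var1_cross hQ hi (show m + 2 < Q.natDegree by omega) hn
    have a4 := var1_cross hQ hi (show m + 2 < Q.natDegree by omega)
      (show m + 2 < Q.natDegree by omega)
    rw [if_pos rfl] at a1 a4
    rw [if_neg (by omega)] at a2 a3
    have : ∀ χ : MulChar (AdjoinRoot Q) ℂ,
        ((‖MM Q χ (m + 3) - MM Q χ (m + 2)‖ ^ 2 : ℝ) : ℂ) =
        MM Q χ (m + 3) * (starRingEnd ℂ) (MM Q χ (m + 3))
          - MM Q χ (m + 3) * (starRingEnd ℂ) (MM Q χ (m + 2))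
          - MM Q χ (m + 2) * (starRingEnd ℂ) (MM Q χ (m + 3))
          + MM Q χ (m + 2) * (starRingEnd ℂ) (MM Q χ (m + 2)) := fun χ => by
      rw [Complex.ofReal_pow, ← Complex.mul_conj', map_sub]
      ring
    rw [Complex.ofReal_sum]
    simp only [this, sum_add_distrib, sum_sub_distrib]
    rw [a1, a2, a3, a4]
    push_cast
    ring
  simp only [var1_norm]
  rw [← sum_div]
  have : m + 3 - 1 = m + 2 := by omega
  simp only [this, if_neg (show m + 3 ≠ 0 by omega)]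
  rw [e, sqf_eq (by omega), sqf_eq (by omega)]
  have h1 : m + 3 - 1 = m + 2 := by omega
  have h2 : m + 2 - 1 = m + 1 := by omega
  rw [h1, h2]
  field_simp
  ring

theorem var1_MM_le {Q : k[X]} (hQ : Q.Monic) (χ : MulChar (AdjoinRoot Q) ℂ) (n : ℕ) :
    ‖MM Q χ n‖ ≤ qq k ^ n := by
  rw [MM, ← card_mon]
  refine (norm_sum_le _ _).trans ?_
  refine (sum_le_card_nsmul _ _ 1 fun f _ => ?_).trans (by simp)
  rw [norm_mul, Complex.norm_real, Real.norm_eq_abs]
  exact mul_le_one₀ (abs_mu f) (norm_nonneg _) (norm_chi_le hQ χ _)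

theorem var1_two {Q : k[X]} (χ : MulChar (AdjoinRoot Q) ℂ) (n : ℕ) {B : ℝ} (hB : 0 ≤ B)
    (h1 : ‖MM Q χ n‖ ≤ B) (h2 : ‖MM Q χ (n - 1)‖ ≤ B) :
    ‖HH Q χ n‖ ^ 2 ≤ 4 * B ^ 2 / qq k ^ n := by
  have hq : (0 : ℝ) < qq k := lt_of_lt_of_le zero_lt_two two_le_qq
  rw [var1_norm]
  refine div_le_div_of_nonneg_right ?_ (pow_pos hq n).le
  have : ‖MM Q χ n - if n = 0 then 0 else MM Q χ (n - 1)‖ ≤ 2 * B := by
    refine (norm_sub_le _ _).trans ?_
    split_ifs
    · rw [norm_zero]; linarith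
    · linarith
  calc _ ≤ (2 * B) ^ 2 := pow_le_pow_left₀ (norm_nonneg _) this 2
    _ = _ := by ring

theorem HH_le {Q : k[X]} (hQ : Q.Monic) (χ : MulChar (AdjoinRoot Q) ℂ) (n : ℕ) :
    ‖HH Q χ n‖ ^ 2 ≤ 4 * qq k ^ n := by
  have hq1 : (1 : ℝ) ≤ qq k := le_trans one_le_two two_le_qq
  have hq : (0 : ℝ) < qq k := lt_of_lt_of_le zero_lt_one hq1
  refine (var1_two χ n (pow_pos hq n).le (var1_MM_le hQ χ n)
    ((var1_MM_le hQ χ _).trans (pow_le_pow_right₀ hq1 (Nat.sub_le _ _)))).trans (le_of_eq ?_)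
  field_simp

theorem var1_cnt {Q : k[X]} (hQ : Q.Monic) {n : ℕ} (hn : n ≤ 2 * Q.natDegree) :
    ∑ f ∈ mon k n, (if Q ∣ f then (1 : ℝ) else 0) ≤ √(qq k) ^ n := by
  have hq1 : (1 : ℝ) ≤ qq k := le_trans one_le_two two_le_qq
  have hq : (0 : ℝ) < qq k := lt_of_lt_of_le zero_lt_one hq1
  by_cases h : n < Q.natDegree
  · rw [sum_eq_zero]
    · positivity
    · intro f hf
      rw [if_neg]
      intro hd
      have := natDegree_le_of_dvd hd (mem_mon.1 hf).1.ne_zero
      have := (mem_mon.1 hf).2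
      omega
  · obtain ⟨m, rfl⟩ : ∃ m, n = m + Q.natDegree := ⟨n - Q.natDegree, by omega⟩
    have e := exp_mon_mul (n := m) hQ (fun _ => (1 : ℝ))
    rw [expect_const (mon_nonempty m), expect_eq_sum_div_card, card_mon, pow_add] at e
    have e2 : ∑ f ∈ mon k (m + Q.natDegree), (if Q ∣ f then (1 : ℝ) else 0) = qq k ^ m := by
      field_simp at e
      exact e.symm
    rw [e2]
    calc qq k ^ m = √(qq k) ^ (2 * m) := by rw [pow_mul, Real.sq_sqrt hq.le]
      _ ≤ _ := pow_le_pow_right₀ (Real.one_le_sqrt.2 hq1) (by omega)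

theorem var1_one {Q : k[X]} (hQ : Q.Monic) (hi : Irreducible Q) {n : ℕ}
    (hn : n ≤ 2 * Q.natDegree) : ‖MM Q 1 n‖ ≤ qq k * √(qq k) ^ n := by
  have hq1 : (1 : ℝ) ≤ qq k := le_trans one_le_two two_le_qq
  have hq : (0 : ℝ) < qq k := lt_of_lt_of_le zero_lt_one hq1
  have hs : (1 : ℝ) ≤ √(qq k) ^ n := one_le_pow₀ (Real.one_le_sqrt.2 hq1)
  by_cases h2 : 2 ≤ n
  · have : Fact (Irreducible Q) := ⟨hi⟩
    have e : MM Q 1 n = ((∑ f ∈ mon k n, mu f : ℝ) : ℂ) -
        ∑ f ∈ mon k n, (if Q ∣ f then (mu f : ℂ) else 0) := by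
      rw [MM, Complex.ofReal_sum, ← sum_sub_distrib]
      refine sum_congr rfl fun f _ => ?_
      split_ifs with hd
      · rw [AdjoinRoot.mk_eq_zero.2 hd, MulChar.map_zero, mul_zero, sub_self]
      · rw [MulChar.one_apply (Ne.isUnit fun h0 => hd (AdjoinRoot.mk_eq_zero.1 h0)), mul_one,
          sub_zero]
    rw [e, sum_mu h2, Complex.ofReal_zero, zero_sub, norm_neg]
    refine (norm_sum_le _ _).trans (le_trans ?_ ((var1_cnt hQ hn).trans
      (le_mul_of_one_le_left (by positivity) hq1)))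
    refine sum_le_sum fun f _ => ?_
    split_ifs
    · rw [Complex.norm_real, Real.norm_eq_abs]; exact abs_mu f
    · rw [norm_zero]
  · refine (var1_MM_le hQ 1 n).trans ?_
    calc qq k ^ n ≤ qq k ^ 1 := pow_le_pow_right₀ hq1 (by omega)
      _ = qq k * 1 := by ring
      _ ≤ _ := mul_le_mul_of_nonneg_left hs hq.le

theorem HH_one {Q : k[X]} (hQ : Q.Monic) (hi : Irreducible Q) {n : ℕ}
    (hn : n ≤ 2 * Q.natDegree) : ‖HH Q 1 n‖ ^ 2 ≤ 4 * qq k ^ 2 := by
  have hq1 : (1 : ℝ) ≤ qq k := le_trans one_le_two two_le_qq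
  have hq : (0 : ℝ) < qq k := lt_of_lt_of_le zero_lt_one hq1
  refine (var1_two 1 n (by positivity) (var1_one hQ hi hn)
    ((var1_one hQ hi (by omega)).trans (mul_le_mul_of_nonneg_left
      (pow_le_pow_right₀ (Real.one_le_sqrt.2 hq1) (Nat.sub_le _ _)) hq.le))).trans (le_of_eq ?_)
  rw [mul_pow, ← pow_mul, mul_comm n 2, pow_mul, Real.sq_sqrt hq.le]
  field_simp

end
end

section
variable {k : Type} [Field k] [Fintype k]
section VAR2

theorem var2_qpos : 0 < qq k := lt_of_lt_of_le two_pos two_le_qq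

theorem var2_sum_eq (n : ℕ) (F : k[X] → ℝ) :
    ∑ f ∈ mon k n, F f = qq k ^ n * 𝔼 f ∈ mon k n, F f := by
  rw [← card_mon, Finset.card_mul_expect]

theorem var2_sum_shift {n : ℕ} {t : k[X]} (ht : t.degree < n) (F : k[X] → ℝ) :
    ∑ f ∈ mon k n, F (f + t) = ∑ f ∈ mon k n, F f := by
  rw [var2_sum_eq n F, var2_sum_eq n fun f => F (f + t), exp_mon_shift ht]

theorem var2_cnt {Q : k[X]} (hQ : Q.Monic) {n : ℕ} {t : k[X]} (ht : t.natDegree ≤ n) :
    ∑ a ∈ mon k n, (if Q ∣ a - t ∧ a - t ≠ 0 then (1 : ℝ) else 0) ≤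
      qq k ^ n / qq k ^ Q.natDegree := by
  have hq : 0 < qq k := var2_qpos
  rcases le_or_gt Q.natDegree n with hn | hn
  · have h1 := exp_box_dvd (k := k) hQ.ne_zero hn (c := 1) isCoprime_one_left (X ^ n - t)
    calc ∑ a ∈ mon k n, (if Q ∣ a - t ∧ a - t ≠ 0 then (1 : ℝ) else 0)
        ≤ ∑ a ∈ mon k n, (if Q ∣ a - t then (1 : ℝ) else 0) := by
          refine Finset.sum_le_sum fun a _ => ?_
          by_cases h : Q ∣ a - t <;> by_cases h' : a - t = 0 <;> simp [h, h']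
      _ = ∑ s ∈ box k n, (if Q ∣ X ^ n - t + 1 * s then (1 : ℝ) else 0) := by
          unfold mon
          rw [Finset.sum_image (fun a _ b _ h => add_left_cancel h)]
          refine Finset.sum_congr rfl fun s _ => ?_
          rw [show X ^ n + s - t = X ^ n - t + 1 * s by ring]
      _ = qq k ^ n / qq k ^ Q.natDegree := by
          rw [← Finset.card_mul_expect, card_box, h1]; ring
  · have : ∑ a ∈ mon k n, (if Q ∣ a - t ∧ a - t ≠ 0 then (1 : ℝ) else 0) = 0 := by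
      refine Finset.sum_eq_zero fun a ha => ?_
      rw [if_neg]
      rintro ⟨h1, h2⟩
      have h3 := Polynomial.natDegree_le_of_dvd h1 h2
      have h4 : (a - t).natDegree ≤ n :=
        (Polynomial.natDegree_sub_le _ _).trans (max_le (mem_mon.1 ha).2.le ht)
      omega
    rw [this]; positivity

theorem var2_cnt0 {Q : k[X]} (hQ : Q.Monic) (n : ℕ) :
    ∑ a ∈ mon k n, (if Q ∣ a then (1 : ℝ) else 0) ≤ qq k ^ n / qq k ^ Q.natDegree := by
  refine le_trans (le_of_eq ?_) (var2_cnt hQ (n := n) (t := 0) (by simp))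
  refine Finset.sum_congr rfl fun a ha => ?_
  have := (mem_mon.1 ha).1.ne_zero
  simp [this]

theorem var2_trunc {Q : k[X]} (hQ : Q.Monic) (n : ℕ) (F : k[X] → ℝ) (hF : ∀ f, |F f| ≤ 1) :
    |(∑ b ∈ mon k n, (if ¬ Q ∣ b then F b else 0)) - ∑ b ∈ mon k n, F b| ≤
      qq k ^ n / qq k ^ Q.natDegree := by
  rw [← Finset.sum_sub_distrib]
  refine (Finset.abs_sum_le_sum_abs _ _).trans (le_trans ?_ (var2_cnt0 hQ n))
  refine Finset.sum_le_sum fun b _ => ?_
  by_cases h : Q ∣ b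
  · simpa [h] using hF b
  · simp [h]

theorem var2_ind (Q a b : k[X]) (x : ℝ) :
    (if ¬ Q ∣ b ∧ ∃ c : k, c ≠ 0 ∧ Q ∣ a - C c * b then x else 0) =
      ∑ c ∈ (univ : Finset k).erase 0, if ¬ Q ∣ b ∧ Q ∣ a - C c * b then x else 0 := by
  by_cases h : ¬ Q ∣ b ∧ ∃ c : k, c ≠ 0 ∧ Q ∣ a - C c * b
  · rw [if_pos h]
    obtain ⟨hb, c, hc, hd⟩ := h
    rw [Finset.sum_eq_single c, if_pos ⟨hb, hd⟩]
    · intro c' _ hne
      rw [if_neg]
      rintro ⟨-, hd'⟩
      have h1 : Q ∣ C (c' - c) * b := by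
        have := dvd_sub hd hd'
        rwa [show a - C c * b - (a - C c' * b) = C (c' - c) * b by rw [map_sub]; ring] at this
      have hu : IsUnit (C (c' - c) : k[X]) :=
        Polynomial.isUnit_C.2 (isUnit_iff_ne_zero.2 (sub_ne_zero.2 hne))
      exact hb ((hu.dvd_mul_left).1 h1)
    · intro hc'
      exact absurd (Finset.mem_erase.2 ⟨hc, Finset.mem_univ _⟩) hc'
  · rw [if_neg h]
    refine (Finset.sum_eq_zero fun c hc => ?_).symm
    rw [if_neg]
    rintro ⟨hb, hd⟩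
    exact h ⟨hb, c, (Finset.mem_erase.1 hc).1, hd⟩

theorem var2_orth {Q : k[X]} (hQ : Q.Monic) (hi : Irreducible Q) (n : ℕ) :
    ∑ χ ∈ ev Q, ‖MM Q χ n‖ ^ 2 = (#(ev Q) : ℝ) * ∑ b ∈ mon k n, ∑ a ∈ mon k n,
      (if ¬ Q ∣ b ∧ ∃ c : k, c ≠ 0 ∧ Q ∣ a - C c * b then mu b * mu a else 0) := by
  apply Complex.ofReal_injective
  have h1 : ∀ χ ∈ ev Q, ((‖MM Q χ n‖ ^ 2 : ℝ) : ℂ) = ∑ b ∈ mon k n, ∑ a ∈ mon k n,
      ((mu b * mu a : ℝ) : ℂ) *
        (χ (AdjoinRoot.mk Q a) * (starRingEnd ℂ) (χ (AdjoinRoot.mk Q b))) := by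
    intro χ _
    rw [← Complex.normSq_eq_norm_sq, Complex.normSq_eq_conj_mul_self]
    unfold MM
    rw [map_sum, Finset.sum_mul_sum]
    refine Finset.sum_congr rfl fun b _ => Finset.sum_congr rfl fun a _ => ?_
    rw [map_mul, Complex.conj_ofReal]
    push_cast
    ring
  rw [Complex.ofReal_sum, Finset.sum_congr rfl h1, Finset.sum_comm, Complex.ofReal_mul,
    Complex.ofReal_sum, Finset.mul_sum]
  refine Finset.sum_congr rfl fun b _ => ?_
  rw [Finset.sum_comm, Complex.ofReal_sum, Finset.mul_sum]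
  refine Finset.sum_congr rfl fun a _ => ?_
  rw [← Finset.mul_sum, orth hQ hi]
  split_ifs <;> simp [mul_comm]

theorem var2_deg {n : ℕ} {b : k[X]} (hb : b ∈ mon k n) (c : k) :
    (C c * (b - X ^ n)).degree < (n : WithBot ℕ) := by
  unfold mon at hb
  obtain ⟨s, hs, rfl⟩ := Finset.mem_image.1 hb
  rw [add_sub_cancel_left]
  refine lt_of_le_of_lt ?_ (mem_box.1 hs)
  rw [← smul_eq_C_mul]
  exact Polynomial.degree_smul_le _ _

theorem var2_split (Q : k[X]) (n : ℕ) :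
    ∑ b ∈ mon k n, ∑ a ∈ mon k n,
      (if ¬ Q ∣ b ∧ ∃ c : k, c ≠ 0 ∧ Q ∣ a - C c * b then mu b * mu a else 0) =
    ∑ c ∈ (univ : Finset k).erase 0, ∑ a ∈ mon k n, (if Q ∣ a - C c * X ^ n then
      ∑ b ∈ mon k n, (if ¬ Q ∣ b then mu b * mu (C c * b + (a - C c * X ^ n)) else 0) else 0) := by
  simp only [var2_ind Q]
  rw [Finset.sum_congr rfl fun b _ => Finset.sum_comm, Finset.sum_comm]
  refine Finset.sum_congr rfl fun c _ => ?_
  have h1 : ∀ b ∈ mon k n, ∑ a ∈ mon k n, (if ¬ Q ∣ b ∧ Q ∣ a - C c * b then mu b * mu a else 0) =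
      ∑ a ∈ mon k n, (if Q ∣ a - C c * X ^ n then
        (if ¬ Q ∣ b then mu b * mu (C c * b + (a - C c * X ^ n)) else 0) else 0) := by
    intro b hb
    rw [← var2_sum_shift (var2_deg hb c)]
    refine Finset.sum_congr rfl fun a _ => ?_
    rw [show a + C c * (b - X ^ n) - C c * b = a - C c * X ^ n by ring,
      show a + C c * (b - X ^ n) = C c * b + (a - C c * X ^ n) by ring]
    by_cases h : Q ∣ b <;> by_cases h' : Q ∣ a - C c * X ^ n <;> simp [h, h']
  rw [Finset.sum_congr rfl h1, Finset.sum_comm]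
  refine Finset.sum_congr rfl fun a _ => ?_
  split_ifs <;> simp

theorem var_ge {Q : k[X]} (hQ : Q.Monic) (hi : Irreducible Q) (n : ℕ) {ε : ℝ} (hε : 0 ≤ ε)
    (H : ∀ (c : k) (h : k[X]), c ≠ 0 → h ≠ 0 → C c * X ^ n + h ∈ mon k n →
      |𝔼 f ∈ mon k n, mu f * mu (C c * f + h)| ≤ ε) :
    |∑ χ ∈ ev Q, ‖MM Q χ n‖ ^ 2 - (#(ev Q) : ℝ) * sqf k n| ≤ (#(ev Q) : ℝ) *
      (qq k ^ n / qq k ^ Q.natDegree + qq k * (qq k ^ n / qq k ^ Q.natDegree) *
        (ε * qq k ^ n + qq k ^ n / qq k ^ Q.natDegree)) := by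
  have hq : 0 < qq k := var2_qpos
  rw [var2_orth hQ hi, var2_split Q, ← mul_sub, abs_mul, Nat.abs_cast]
  refine mul_le_mul_of_nonneg_left ?_ (Nat.cast_nonneg _)
  set r : ℝ := qq k ^ n / qq k ^ Q.natDegree with hr
  have hr0 : 0 ≤ r := by positivity
  set T : k → k[X] → ℝ := fun c h =>
    ∑ b ∈ mon k n, (if ¬ Q ∣ b then mu b * mu (C c * b + h) else 0) with hT
  have hmm : ∀ f g : k[X], |mu f * mu g| ≤ 1 := fun f g => by
    rw [abs_mul]
    exact mul_le_one₀ (abs_mu f) (abs_nonneg _) (abs_mu g)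
  have hX : (X ^ n : k[X]) ∈ mon k n := mem_mon.2 ⟨monic_X_pow n, natDegree_X_pow n⟩
  have hdiag : |T 1 0 - sqf k n| ≤ r := by
    have := var2_trunc hQ n (fun b => mu b * mu b) fun f => hmm f f
    simpa [hT, sqf, sq] using this
  have hoff : ∀ (c : k) (h : k[X]), c ≠ 0 → h ≠ 0 → C c * X ^ n + h ∈ mon k n →
      |T c h| ≤ ε * qq k ^ n + r := by
    intro c h hc hh hm
    have h1 := var2_trunc hQ n (fun b => mu b * mu (C c * b + h)) fun f => hmm _ _
    have h2 : |∑ b ∈ mon k n, mu b * mu (C c * b + h)| ≤ ε * qq k ^ n := by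
      rw [var2_sum_eq, abs_mul, abs_of_pos (pow_pos hq n), mul_comm]
      exact mul_le_mul_of_nonneg_right (H c h hc hh hm) (pow_pos hq n).le
    have h3 := abs_add_le (T c h - ∑ b ∈ mon k n, mu b * mu (C c * b + h))
      (∑ b ∈ mon k n, mu b * mu (C c * b + h))
    rw [sub_add_cancel] at h3
    linarith
  have hsplit : ∑ c ∈ (univ : Finset k).erase 0, ∑ a ∈ mon k n,
      (if Q ∣ a - C c * X ^ n then T c (a - C c * X ^ n) else 0) = T 1 0 +
      ∑ c ∈ (univ : Finset k).erase 0, ∑ a ∈ mon k n,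
        (if Q ∣ a - C c * X ^ n ∧ a - C c * X ^ n ≠ 0 then T c (a - C c * X ^ n) else 0) := by
    have h1 : T 1 0 = ∑ c ∈ (univ : Finset k).erase 0, ∑ a ∈ mon k n,
        (if a - C c * X ^ n = 0 then T c (a - C c * X ^ n) else 0) := by
      rw [Finset.sum_eq_single (1 : k), Finset.sum_eq_single (X ^ n : k[X])]
      · simp
      · intro a _ hne
        rw [if_neg]
        simpa [sub_eq_zero] using hne
      · intro h; exact absurd hX h
      · intro c _ hne
        refine Finset.sum_eq_zero fun a ha => ?_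
        rw [if_neg]
        intro h
        have h2 := (mem_mon.1 ha).1
        rw [sub_eq_zero.1 h, Monic, leadingCoeff_C_mul_X_pow] at h2
        exact hne h2
      · intro h
        exact absurd (Finset.mem_erase.2 ⟨one_ne_zero, Finset.mem_univ _⟩) h
    rw [h1, ← Finset.sum_add_distrib]
    refine Finset.sum_congr rfl fun c _ => ?_
    rw [← Finset.sum_add_distrib]
    refine Finset.sum_congr rfl fun a _ => ?_
    by_cases h : a - C c * X ^ n = 0
    · simp [h]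
    · simp [h]
  have hE : 0 ≤ ε * qq k ^ n + r := by positivity
  have hrest : |∑ c ∈ (univ : Finset k).erase 0, ∑ a ∈ mon k n,
      (if Q ∣ a - C c * X ^ n ∧ a - C c * X ^ n ≠ 0 then T c (a - C c * X ^ n) else 0)| ≤
      qq k * r * (ε * qq k ^ n + r) := by
    refine (Finset.abs_sum_le_sum_abs _ _).trans ?_
    have h1 : ∀ c ∈ (univ : Finset k).erase 0, |∑ a ∈ mon k n,
        (if Q ∣ a - C c * X ^ n ∧ a - C c * X ^ n ≠ 0 then T c (a - C c * X ^ n) else 0)| ≤
        r * (ε * qq k ^ n + r) := by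
      intro c hc
      refine (Finset.abs_sum_le_sum_abs _ _).trans ?_
      have h2 := var2_cnt hQ (n := n) (t := C c * X ^ n) (natDegree_C_mul_X_pow_le c n)
      refine le_trans ?_ (mul_le_mul_of_nonneg_right h2 hE)
      rw [Finset.sum_mul]
      refine Finset.sum_le_sum fun a ha => ?_
      split_ifs with h
      · rw [one_mul]
        exact hoff c _ (Finset.mem_erase.1 hc).1 h.2 (by simpa using ha)
      · simp
    refine (Finset.sum_le_card_nsmul _ _ _ h1).trans ?_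
    rw [nsmul_eq_mul, mul_assoc]
    refine mul_le_mul_of_nonneg_right ?_ (mul_nonneg hr0 hE)
    unfold qq
    exact_mod_cast Finset.card_le_univ _
  change |∑ c ∈ (univ : Finset k).erase 0, ∑ a ∈ mon k n,
      (if Q ∣ a - C c * X ^ n then T c (a - C c * X ^ n) else 0) - sqf k n| ≤ _
  rw [hsplit, add_sub_right_comm]
  exact (abs_add_le _ _).trans (add_le_add hdiag hrest)

end VAR2
end

end Pool.Agent.MP_f0209c_nt.FF
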