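import Pool.Agent.MP_f0209c_nt.FF.P3

/-! Two-point correlations of the Moebius function with a power saving. -/

set_option autoImplicit false

open Polynomial Finset Filter
open scoped Classical BigOperators

noncomputable section
namespace Pool.Agent.MP_f0209c_nt.FF
open Pool.Agent.MP_a4a062_nt.C2

section
variable {k : Type} [Field k] [Fintype k]
variable [CharP k 2]
section DIRA

omit [CharP k 2] in
theorem dira_prs {e : ℕ} {p : k[X]} (h : p ∈ prs k e) :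
    p.Monic ∧ p.natDegree = e ∧ Irreducible p := by
  have h' := Finset.mem_filter.1 h
  exact ⟨(mem_mon.1 h'.1).1, (mem_mon.1 h'.1).2, h'.2⟩

theorem dira_shift {g F : k[X]} (hi : Irreducible g) (hF : ¬ g ∣ F) (t : k[X]) :
    mu (F + g * t ^ 2) = - mu ((aa (F * g) + g * t) ^ 2 + X * bb (F * g) ^ 2) := by
  have h2 : (2 : k[X]) = 0 := by
    have := CharP.cast_eq_zero k[X] 2
    simpa using this
  have h1 : (aa (F * g) + g * t) ^ 2 + X * bb (F * g) ^ 2 = (F + g * t ^ 2) * g := by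
    have := ab_spec (F * g)
    linear_combination -this + (aa (F * g) * g * t) * h2
  have h3 : ¬ g ∣ F + g * t ^ 2 := fun hd =>
    hF ((dvd_add_left (dvd_mul_right g (t ^ 2))).1 hd)
  have h4 : IsCoprime (F + g * t ^ 2) g := ((hi.coprime_iff_not_dvd).2 h3).symm
  rw [h1, mu_mul h4, mu_irr hi]
  ring

theorem dir_good : ∃ c₀ : ℝ, ∀ (n m γ l : ℕ) (c : k) (h g f p p₂ : k[X]) (x : ℝ),
    n + γ = 2 * m + 1 → l + γ = m + 1 → 4 * γ + 2 ≤ l → 0 < γ → c ≠ 0 →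
    C c * X ^ n + h ∈ mon k n → g ∈ prs k γ → f ∈ mon k n → p ∈ prs k (2 * γ) →
    p₂ ∈ prs k (2 * γ + 1) → p ∣ bb (f * g) → p₂ ∣ bb ((C c * f + h) * g) → Good c h g f p p₂ →
    0 ≤ x → x ≤ 1 → 1 / qq k ^ γ ≤ x ^ 2 ^ 59 →
    |𝔼 s ∈ box k l, mu (f + g * s ^ 2) * mu (C c * (f + g * s ^ 2) + h)| ≤ c₀ * x := by
  obtain ⟨c₀, H⟩ := line (k := k)
  refine ⟨c₀, ?_⟩
  intro n m γ l c h g f p p₂ x hn hl hγ h0 hc hh hg hf hp hp₂ hd hd₂ hG hx0 hx1 hx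
  obtain ⟨hgm, hgd, hgi⟩ := dira_prs hg
  obtain ⟨hpm, hpd, hpi⟩ := dira_prs hp
  obtain ⟨hp₂m, hp₂d, hp₂i⟩ := dira_prs hp₂
  obtain ⟨G1, G2, G3, G4, G5⟩ := hG
  obtain ⟨ρ, -, rfl⟩ := exists_sqrt hc
  have hf' := lin_mem_mon hh hf
  have hmul : ∀ F ∈ mon k n, F * g ∈ mon k (2 * m + 1) := by
    intro F hF
    obtain ⟨F1, F2⟩ := mem_mon.1 hF
    refine mem_mon.2 ⟨F1.mul hgm, ?_⟩
    rw [F1.natDegree_mul hgm, F2, hgd, hn]
  obtain ⟨hB1, hA1⟩ := bb_mon (hmul f hf)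
  obtain ⟨hB2, hA2⟩ := bb_mon (hmul _ hf')
  obtain ⟨hB1m, hB1d⟩ := mem_mon.1 hB1
  obtain ⟨hB2m, hB2d⟩ := mem_mon.1 hB2
  have hnd : ¬ p ∣ bb ((C (ρ ^ 2) * f + h) * g) := by
    rw [bb_lin]
    exact fun hd' => G5 ((dvd_add_right (hd.mul_left _)).1 hd')
  obtain ⟨r₁, e₁⟩ := hd
  obtain ⟨r₂, e₂⟩ := hd₂
  have hr₁ : r₁.Monic := hpm.of_mul_monic_left (e₁ ▸ hB1m)
  have hr₂ : r₂.Monic := hp₂m.of_mul_monic_left (e₂ ▸ hB2m)
  have d₁ : (p * r₁).natDegree = m := e₁ ▸ hB1d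
  have d₂ : (p₂ * r₂).natDegree = m := e₂ ▸ hB2d
  have d₁' : 2 * γ + r₁.natDegree = m := by rw [← d₁, hpm.natDegree_mul hr₁, hpd]
  have d₂' : 2 * γ + 1 + r₂.natDegree = m := by rw [← d₂, hp₂m.natDegree_mul hr₂, hp₂d]
  have n₁ : ¬ p ∣ r₁ := fun hr => G3 (by rw [e₁, sq]; exact mul_dvd_mul_left p hr)
  have n₂ : ¬ p₂ ∣ r₂ := fun hr => G4 (by rw [e₂, sq]; exact mul_dvd_mul_left p₂ hr)
  have n₃ : ¬ p ∣ g := fun hr => by
    have := Polynomial.natDegree_le_of_dvd hr hgm.ne_zero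
    omega
  have key := H p r₁ p₂ r₂ g (aa (f * g)) (aa ((C (ρ ^ 2) * f + h) * g)) ρ m l γ x hpm hpi hp₂m
    hp₂i hr₁ hr₂ d₁ d₂ n₁ n₂ (e₂ ▸ hnd) n₃ hA1 hA2 (by omega) (by omega) (by omega) (by omega)
    (by omega) (by omega) hx0 hx1 hx
  have hfun : ∀ s : k[X], mu (f + g * s ^ 2) * mu (C (ρ ^ 2) * (f + g * s ^ 2) + h) =
      mu ((aa (f * g) + g * s) ^ 2 + X * (p * r₁) ^ 2) *
        mu ((aa ((C (ρ ^ 2) * f + h) * g) + C ρ * g * s) ^ 2 + X * (p₂ * r₂) ^ 2) := by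
    intro s
    have a1 : C (ρ ^ 2) * (f + g * s ^ 2) + h = (C (ρ ^ 2) * f + h) + g * (C ρ * s) ^ 2 := by
      rw [C_pow]; ring
    have a2 : C ρ * g * s = g * (C ρ * s) := by ring
    rw [a1, dira_shift hgi G1, dira_shift hgi G2, ← e₁, ← e₂, a2]
    ring
  simp only [hfun]
  exact key

end DIRA
end

section
variable {k : Type} [Field k] [Fintype k]
variable [CharP k 2]
section

theorem dirb_ind (P : Prop) : 0 ≤ (if P then (1 : ℝ) else 0) := by split_ifs <;> norm_num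

theorem dirb_pt {α : Type} (P Q : Finset α) (A A₂ A₃ B B₂ : α → Prop) (u v : Prop) {m : ℝ}
    (ha : ∑ p ∈ P, (if A p then (1 : ℝ) else 0) ≤ m)
    (hb : ∑ q ∈ Q, (if B q then (1 : ℝ) else 0) ≤ m) (T : α → α → ℝ)
    (hT : ∀ p q, T p q =
      if (A p ∧ B q) ∧ ¬ (¬ u ∧ ¬ v ∧ ¬ A₂ p ∧ ¬ B₂ q ∧ ¬ A₃ p) then (1 : ℝ) else 0) :
    ∑ p ∈ P, ∑ q ∈ Q, T p q ≤
      m ^ 2 * (if u then (1 : ℝ) else 0) + m ^ 2 * (if v then (1 : ℝ) else 0) +
      m * ∑ p ∈ P, (if A₂ p then (1 : ℝ) else 0) + m * ∑ q ∈ Q, (if B₂ q then (1 : ℝ) else 0) +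
      m * ∑ p ∈ P.filter A₃, (if A p then (1 : ℝ) else 0) := by
  have h1 : ∑ p ∈ P, ∑ q ∈ Q, T p q ≤ ∑ p ∈ P, ∑ q ∈ Q,
      (((if u then (1 : ℝ) else 0) + (if v then (1 : ℝ) else 0)) *
        ((if A p then (1 : ℝ) else 0) * (if B q then (1 : ℝ) else 0)) +
      (if A₂ p then (1 : ℝ) else 0) * (if B q then (1 : ℝ) else 0) +
      (if A p then (1 : ℝ) else 0) * (if B₂ q then (1 : ℝ) else 0) +
      (if A₃ p then (if A p then (1 : ℝ) else 0) else 0) * (if B q then (1 : ℝ) else 0)) := by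
    refine Finset.sum_le_sum fun p _ => Finset.sum_le_sum fun q _ => ?_
    rw [hT]
    by_cases h1 : A p <;> by_cases h2 : B q <;> by_cases h3 : u <;> by_cases h4 : v <;>
      by_cases h5 : A₂ p <;> by_cases h6 : B₂ q <;> by_cases h7 : A₃ p <;>
      simp only [h1, h2, h3, h4, h5, h6, h7, not_true_eq_false, not_false_eq_true, and_true,
        and_false, if_true, if_false] <;> norm_num
  refine h1.trans ?_
  simp only [Finset.sum_add_distrib, ← Finset.mul_sum, ← Finset.sum_mul]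
  rw [Finset.sum_filter]
  have a0 : 0 ≤ ∑ p ∈ P, (if A p then (1 : ℝ) else 0) := Finset.sum_nonneg fun _ _ => dirb_ind _
  have b0 : 0 ≤ ∑ q ∈ Q, (if B q then (1 : ℝ) else 0) := Finset.sum_nonneg fun _ _ => dirb_ind _
  have a2 : 0 ≤ ∑ p ∈ P, (if A₂ p then (1 : ℝ) else 0) := Finset.sum_nonneg fun _ _ => dirb_ind _
  have b2 : 0 ≤ ∑ q ∈ Q, (if B₂ q then (1 : ℝ) else 0) := Finset.sum_nonneg fun _ _ => dirb_ind _
  have a3 : 0 ≤ ∑ p ∈ P, (if A₃ p then (if A p then (1 : ℝ) else 0) else 0) :=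
    Finset.sum_nonneg fun _ _ => by split_ifs <;> norm_num
  have u0 := dirb_ind u
  have v0 := dirb_ind v
  have hab := mul_le_mul ha hb b0 (a0.trans ha)
  have e1 := mul_le_mul_of_nonneg_left hab (add_nonneg u0 v0)
  have e2 := mul_le_mul_of_nonneg_left hb a2
  have e3 := mul_le_mul_of_nonneg_right ha b2
  have e4 := mul_le_mul_of_nonneg_left hb a3
  nlinarith [e1, e2, e3, e4]

omit [CharP k 2] in
theorem dirb_prs {γ : ℕ} {g : k[X]} (hg : g ∈ prs k γ) :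
    g.Monic ∧ g.natDegree = γ ∧ Irreducible g :=
  ⟨(mem_mon.1 (Finset.mem_filter.1 hg).1).1, (mem_mon.1 (Finset.mem_filter.1 hg).1).2,
    (Finset.mem_filter.1 hg).2⟩

omit [CharP k 2] in
theorem dirb_mul_mon {a b : ℕ} {f g : k[X]} (hf : f ∈ mon k a) (hg : g ∈ prs k b) :
    f * g ∈ mon k (a + b) := by
  obtain ⟨h1, h2⟩ := mem_mon.1 hf
  obtain ⟨h3, h4, -⟩ := dirb_prs hg
  exact mem_mon.2 ⟨h1.mul h3, by rw [h1.natDegree_mul h3, h2, h4]⟩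

omit [CharP k 2] in
theorem dirb_cnt {m e : ℕ} {B : k[X]} (hB : B ∈ mon k m) (he : 0 < e) :
    ∑ p ∈ prs k e, (if p ∣ B then (1 : ℝ) else 0) ≤ m := by
  obtain ⟨h1, h2⟩ := mem_mon.1 hB
  have := cnt_prs h1.ne_zero he
  rw [Finset.sum_boole, ← h2]
  exact_mod_cast this

theorem dirb_pow {n γ l e j : ℕ} {g g' p : k[X]} (hg : g ∈ prs k γ) (hg' : g' ∈ prs k γ)
    (h : g ≠ g') (hn : γ + 2 * l ≤ n + 1) (hp : p ∈ prs k e) (he : γ ≤ e) (hl : j * e ≤ l)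
    (b : k[X]) :
    𝔼 f ∈ mon k n, (if p ^ j ∣ bb (f * g) - b then (1 : ℝ) else 0) = 1 / qq k ^ (j * e) := by
  obtain ⟨h1, h2, h3⟩ := dirb_prs hp
  have hd : (p ^ j).natDegree = j * e := by rw [h1.natDegree_pow, h2]
  rw [← hd]
  refine equi_mon hg hg' h hn (pow_ne_zero _ h1.ne_zero) (hd ▸ hl) (fun P hP hPp => ?_) b
  have h4 : P ∣ p := hP.prime.dvd_of_dvd_pow hPp
  have h5 : p ∣ P := (hP.associated_of_dvd h3 h4).symm.dvd
  have := natDegree_le_of_dvd h5 hP.ne_zero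
  omega

omit [CharP k 2] in
theorem dirb_sq {e γ : ℕ} (he : γ ≤ e) :
    ∑ _p ∈ prs k e, 1 / qq k ^ (2 * e) ≤ 1 / qq k ^ γ := by
  have hq : (1 : ℝ) ≤ qq k := le_trans (by norm_num) two_le_qq
  have hq0 : (0 : ℝ) < qq k := by linarith
  rw [Finset.sum_const, nsmul_eq_mul]
  calc (#(prs k e) : ℝ) * (1 / qq k ^ (2 * e)) ≤ qq k ^ e * (1 / qq k ^ (2 * e)) :=
        mul_le_mul_of_nonneg_right (card_prs_le e) (by positivity)
    _ = 1 / qq k ^ e := by rw [two_mul, pow_add]; field_simp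
    _ ≤ 1 / qq k ^ γ := one_div_le_one_div_of_le (by positivity) (pow_le_pow_right₀ hq he)

theorem dir_bad {n m γ l : ℕ} {c : k} {h g g' : k[X]} (hn : n + γ = 2 * m + 1)
    (hl : l + γ = m + 1) (hγ : 4 * γ + 2 ≤ l) (h0 : 0 < γ) (hc : c ≠ 0)
    (hh : C c * X ^ n + h ∈ mon k n) (hg : g ∈ prs k γ) (hg' : g' ∈ prs k γ) (hne : g ≠ g')
    (hb : bb (h * g) ≠ 0) :
    𝔼 f ∈ mon k n, ∑ p ∈ prs k (2 * γ), ∑ p₂ ∈ prs k (2 * γ + 1),
      (if (p ∣ bb (f * g) ∧ p₂ ∣ bb ((C c * f + h) * g)) ∧ ¬ Good c h g f p p₂ then (1 : ℝ) else 0)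
      ≤ 5 * ((m : ℝ) + 1) ^ 2 / qq k ^ γ := by
  obtain ⟨ρ, hρ0, hρ⟩ := exists_sqrt hc
  obtain ⟨g1, g2, -⟩ := dirb_prs hg
  have hq : (1 : ℝ) ≤ qq k := le_trans (by norm_num) two_le_qq
  have hq0 : (0 : ℝ) < qq k := by linarith
  have hn' : γ + 2 * l ≤ n + 1 := by omega
  have hm0 : (0 : ℝ) ≤ m := Nat.cast_nonneg m
  have key : ∀ f ∈ mon k n, ∑ p ∈ prs k (2 * γ), ∑ p₂ ∈ prs k (2 * γ + 1),
      (if (p ∣ bb (f * g) ∧ p₂ ∣ bb ((C c * f + h) * g)) ∧ ¬ Good c h g f p p₂ then (1 : ℝ) else 0)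
      ≤ (m : ℝ) ^ 2 * (if g ∣ C 1 * f + 0 then (1 : ℝ) else 0) +
        (m : ℝ) ^ 2 * (if g ∣ C c * f + h then (1 : ℝ) else 0) +
        m * ∑ p ∈ prs k (2 * γ), (if p ^ 2 ∣ bb (f * g) - 0 then (1 : ℝ) else 0) +
        m * ∑ p ∈ prs k (2 * γ + 1),
          (if p ^ 2 ∣ bb (f * g) - -(C ρ⁻¹ * bb (h * g)) then (1 : ℝ) else 0) +
        m * ∑ p ∈ (prs k (2 * γ)).filter (fun p => p ∣ bb (h * g)),
          (if p ^ 1 ∣ bb (f * g) - 0 then (1 : ℝ) else 0) := by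
    intro f hf
    have h1 := dirb_cnt (bb_mon (hn ▸ dirb_mul_mon hf hg)).1 (show 0 < 2 * γ by omega)
    have h2 := dirb_cnt (bb_mon (hn ▸ dirb_mul_mon (lin_mem_mon hh hf) hg)).1
      (show 0 < 2 * γ + 1 by omega)
    have e : ∀ p : k[X], (p ^ 2 ∣ bb (f * g) - -(C ρ⁻¹ * bb (h * g))) ↔
        p ^ 2 ∣ bb ((C c * f + h) * g) := by
      intro p
      have e1 : bb ((C c * f + h) * g) = C ρ * (bb (f * g) - -(C ρ⁻¹ * bb (h * g))) := by
        rw [← hρ, bb_lin, sub_neg_eq_add, mul_add, ← mul_assoc, ← C_mul, mul_inv_cancel₀ hρ0, C_1,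
          one_mul]
      rw [e1]
      exact ((isUnit_C.2 (Ne.isUnit hρ0)).dvd_mul_left).symm
    simp only [C_1, one_mul, add_zero, sub_zero, pow_one, e]
    convert dirb_pt (prs k (2 * γ)) (prs k (2 * γ + 1)) (fun p => p ∣ bb (f * g))
      (fun p => p ^ 2 ∣ bb (f * g)) (fun p => p ∣ bb (h * g))
      (fun p => p ∣ bb ((C c * f + h) * g)) (fun p => p ^ 2 ∣ bb ((C c * f + h) * g))
      (g ∣ f) (g ∣ C c * f + h) (by convert h1) (by convert h2) _ (fun p q => rfl) using 3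
    simp only [Good]
    congr
  refine (Finset.expect_le_expect key).trans ?_
  simp only [Finset.expect_add_distrib, ← Finset.mul_expect, Finset.expect_sum_comm]
  rw [exp_mon_dvd g1.ne_zero (by omega) one_ne_zero, exp_mon_dvd g1.ne_zero (by omega) hc, g2,
    Finset.sum_congr rfl fun p hp => dirb_pow hg hg' hne hn' hp (by omega) (by omega) 0,
    Finset.sum_congr rfl fun p hp => dirb_pow hg hg' hne hn' hp (by omega) (by omega)
      (-(C ρ⁻¹ * bb (h * g))),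
    Finset.sum_congr rfl fun p hp => dirb_pow hg hg' hne hn' (Finset.mem_filter.1 hp).1
      (by omega) (by omega) 0]
  have s1 := dirb_sq (k := k) (show γ ≤ 2 * γ by omega)
  have s2 := dirb_sq (k := k) (show γ ≤ 2 * γ + 1 by omega)
  have hd : (bb (h * g)).natDegree ≤ m := by
    have d1 : h.natDegree ≤ n := by
      have e : h = (C c * X ^ n + h) - C c * X ^ n := by ring
      rw [e]
      refine (natDegree_sub_le _ _).trans (max_le (mem_mon.1 hh).2.le ?_)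
      exact (natDegree_C_mul_le _ _).trans (natDegree_X_pow_le n)
    have d2 : (h * g).natDegree ≤ 2 * m + 1 := by
      have := natDegree_mul_le (p := h) (q := g)
      omega
    have d3 : (bb (h * g)).degree < (m + 1 : ℕ) := by
      apply bb_deg
      refine lt_of_le_of_lt degree_le_natDegree ?_
      exact_mod_cast (by omega)
    have := (natDegree_lt_iff_degree_lt hb).2 d3
    omega
  have s3 : ∑ _p ∈ (prs k (2 * γ)).filter (fun p => p ∣ bb (h * g)), 1 / qq k ^ (1 * (2 * γ)) ≤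
      m * (1 / qq k ^ γ) := by
    rw [Finset.sum_const, nsmul_eq_mul]
    refine mul_le_mul ?_ (one_div_le_one_div_of_le (by positivity)
      (pow_le_pow_right₀ hq (by omega))) (by positivity) hm0
    exact_mod_cast (cnt_prs hb (show 0 < 2 * γ by omega)).trans hd
  have t0 : (0 : ℝ) ≤ 1 / qq k ^ γ := by positivity
  have e1 := mul_le_mul_of_nonneg_left s1 hm0
  have e2 := mul_le_mul_of_nonneg_left s2 hm0
  have e3 := mul_le_mul_of_nonneg_left s3 hm0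
  rw [div_eq_mul_one_div (5 * ((m : ℝ) + 1) ^ 2)]
  nlinarith [mul_nonneg hm0 t0, mul_nonneg (mul_nonneg hm0 hm0) t0]

end
end

section
section DIR
variable {k : Type} [Field k] [Fintype k]

theorem dir_abs_exp {α : Type} (s : Finset α) (F : α → ℝ) (hF : ∀ a ∈ s, |F a| ≤ 1) :
    |𝔼 a ∈ s, F a| ≤ 1 := by
  rcases s.eq_empty_or_nonempty with hs | hs
  · rw [hs, expect_empty, abs_zero]
    exact zero_le_one
  · exact (Finset.abs_expect_le s F).trans (Finset.expect_le hs hF)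

variable [CharP k 2]

theorem dir : ∃ c₀ : ℝ, ∀ (n m γ l : ℕ) (c : k) (h g g' : k[X]) (x : ℝ),
    n + γ = 2 * m + 1 → l + γ = m + 1 → 4 * γ + 2 ≤ l → 0 < γ → c ≠ 0 →
    C c * X ^ n + h ∈ mon k n → g ∈ prs k γ → g' ∈ prs k γ → g ≠ g' → bb (h * g) ≠ 0 →
    0 ≤ x → x ≤ 1 → 1 / qq k ^ γ ≤ x ^ 2 ^ 59 →
    |𝔼 f ∈ mon k n, ww c h (2 * γ) g f * (mu f * mu (C c * f + h))| ≤
      c₀ * ((m : ℝ) + 1) ^ 2 * x := by
  obtain ⟨c₁, hc₁⟩ := dir_good (k := k)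
  have hN : (2 ^ 59 : ℕ) ≠ 0 := pow_ne_zero _ two_ne_zero
  generalize (2 ^ 59 : ℕ) = N at hc₁ hN ⊢
  refine ⟨|c₁| + 5, ?_⟩
  intro n m γ l c h g g' x hn hl hγ h0 hc hh hg hg' hne hb hx0 hx1 hx
  have hgd : g.natDegree = γ := (mem_mon.1 (mem_filter.1 hg).1).2
  have hne' : (mon k n).Nonempty := ⟨_, hh⟩
  have hcx : 0 ≤ |c₁| * x := mul_nonneg (abs_nonneg _) hx0
  rw [exp_line (n := n) (l := l) (g := g) (by omega)]
  have key : ∀ f ∈ mon k n,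
      |𝔼 s ∈ box k l, ww c h (2 * γ) g (f + g * s ^ 2) *
        (mu (f + g * s ^ 2) * mu (C c * (f + g * s ^ 2) + h))| ≤ (m : ℝ) ^ 2 * (|c₁| * x) +
      ∑ p ∈ prs k (2 * γ), ∑ p₂ ∈ prs k (2 * γ + 1),
        (if (p ∣ bb (f * g) ∧ p₂ ∣ bb ((C c * f + h) * g)) ∧ ¬ Good c h g f p p₂ then (1 : ℝ)
          else 0) := by
    intro f hf
    simp only [ww_line]
    rw [← Finset.mul_expect, abs_mul, abs_of_nonneg (ww_nonneg c h (2 * γ) g f)]
    have hL : |𝔼 s ∈ box k l, mu (f + g * s ^ 2) * mu (C c * (f + g * s ^ 2) + h)| ≤ 1 := by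
      refine dir_abs_exp _ _ fun s _ => ?_
      rw [abs_mul]
      exact mul_le_one₀ (abs_mu _) (abs_nonneg _) (abs_mu _)
    have hw := ww_le (e := 2 * γ) hn (by omega) hh hg hf
    refine le_trans ?_ (add_le_add_left (mul_le_mul_of_nonneg_right hw hcx) _)
    unfold ww
    rw [sum_mul, sum_mul, ← sum_add_distrib]
    refine sum_le_sum fun p hp => ?_
    rw [sum_mul, sum_mul, ← sum_add_distrib]
    refine sum_le_sum fun p₂ hp₂ => ?_
    by_cases h1 : p ∣ bb (f * g) ∧ p₂ ∣ bb ((C c * f + h) * g)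
    · by_cases h2 : Good c h g f p p₂
      · have h3 := hc₁ n m γ l c h g f p p₂ x hn hl hγ h0 hc hh hg hf hp hp₂ h1.1 h1.2 h2 hx0 hx1 hx
        rw [if_pos h1, if_neg (fun h4 => h4.2 h2), one_mul, one_mul, add_zero]
        exact h3.trans (mul_le_mul_of_nonneg_right (le_abs_self _) hx0)
      · rw [if_pos h1, if_pos ⟨h1, h2⟩, one_mul, one_mul]
        linarith
    · rw [if_neg h1, if_neg (fun h4 => h1 h4.1), zero_mul, zero_mul, add_zero]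
  refine (Finset.abs_expect_le _ _).trans ((Finset.expect_le_expect key).trans ?_)
  rw [Finset.expect_add_distrib, Finset.expect_const hne']
  have hbad := dir_bad hn hl hγ h0 hc hh hg hg' hne hb
  have hxx : x ^ N ≤ x := pow_le_of_le_one hx0 hx1 hN
  have h5 : 5 * ((m : ℝ) + 1) ^ 2 / qq k ^ γ ≤ 5 * ((m : ℝ) + 1) ^ 2 * x := by
    rw [div_eq_mul_one_div]
    exact mul_le_mul_of_nonneg_left (hx.trans hxx) (by positivity)
  have h6 : (m : ℝ) ^ 2 * (|c₁| * x) ≤ ((m : ℝ) + 1) ^ 2 * (|c₁| * x) := by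
    refine mul_le_mul_of_nonneg_right ?_ hcx
    have h7 : (0 : ℝ) ≤ m := Nat.cast_nonneg m
    nlinarith
  calc _ ≤ ((m : ℝ) + 1) ^ 2 * (|c₁| * x) + 5 * ((m : ℝ) + 1) ^ 2 * x :=
        add_le_add h6 (hbad.trans h5)
    _ = _ := by ring

end DIR
end

section
variable {k : Type} [Field k] [Fintype k]
variable [CharP k 2]
section CHOW1

theorem chow1_pow {γ : ℕ} (h : 4 ≤ γ) : 4 * γ ≤ 2 ^ γ := by
  induction γ, h using Nat.le_induction with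
  | base => norm_num
  | succ n hn ih => rw [pow_succ]; omega

theorem chow1_num {N M g P Q D c x y : ℝ} (hN : 1 ≤ N) (hM0 : 0 ≤ M) (hM : M + 1 ≤ N)
    (hg0 : 0 < g) (hg : 2 * g + 1 ≤ N) (hQ : 0 < Q) (hP : Q ≤ 4 * g * P)
    (hD : 1 / (4 * (2 * g) * (2 * g + 1)) ≤ D) (hc : 0 ≤ c) (hx : 0 ≤ x) (hy : 1 / Q ≤ y)
    (hyx : y ≤ x ^ 2) :
    √(M ^ 2 / (P * D)) + c * (M + 1) ^ 2 * x / D ≤ (4 + 4 * c) * N ^ 4 * x := by
  have hP0 : 0 < P := by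
    by_contra hn
    have : 4 * g * P ≤ 0 := mul_nonpos_of_nonneg_of_nonpos (by positivity) (not_lt.1 hn)
    linarith
  have hD0 : 0 < D := lt_of_lt_of_le (by positivity) hD
  have hD1 : 1 / D ≤ 4 * N ^ 2 := by
    have h1 : 1 / D ≤ 4 * (2 * g) * (2 * g + 1) := by
      rw [div_le_iff₀ hD0]
      rw [div_le_iff₀ (by positivity)] at hD
      linarith
    have h2 : (2 * g) * (2 * g + 1) ≤ N * N :=
      mul_le_mul (by linarith) hg (by positivity) (by linarith)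
    nlinarith
  have hP1 : 1 / P ≤ 2 * N * x ^ 2 := by
    have h1 : 1 / P ≤ 4 * g * (1 / Q) := by
      rw [mul_one_div, div_le_div_iff₀ hP0 hQ]
      linarith
    have h2 : 4 * g * (1 / Q) ≤ (2 * N) * x ^ 2 :=
      mul_le_mul (by linarith) (hy.trans hyx) (by positivity) (by linarith)
    linarith
  have hM2 : M ^ 2 ≤ N ^ 2 := pow_le_pow_left₀ hM0 (by linarith) 2
  have hM3 : (M + 1) ^ 2 ≤ N ^ 2 := pow_le_pow_left₀ (by linarith) hM 2
  have hA : √(M ^ 2 / (P * D)) ≤ 4 * N ^ 4 * x := by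
    refine Real.sqrt_le_iff.2 ⟨by positivity, ?_⟩
    have e1 : M ^ 2 / (P * D) = M ^ 2 * ((1 / P) * (1 / D)) := by field_simp
    have h1 : (1 / P) * (1 / D) ≤ (2 * N * x ^ 2) * (4 * N ^ 2) :=
      mul_le_mul hP1 hD1 (by positivity) (by positivity)
    have h2 : M ^ 2 * ((1 / P) * (1 / D)) ≤ N ^ 2 * ((2 * N * x ^ 2) * (4 * N ^ 2)) :=
      mul_le_mul hM2 h1 (by positivity) (by positivity)
    have h3 : N ^ 5 ≤ N ^ 8 := pow_le_pow_right₀ hN (by norm_num)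
    have h4 : N ^ 5 * x ^ 2 ≤ N ^ 8 * x ^ 2 := mul_le_mul_of_nonneg_right h3 (by positivity)
    have h5 : 0 ≤ N ^ 8 * x ^ 2 := by positivity
    rw [e1]
    calc _ ≤ N ^ 2 * ((2 * N * x ^ 2) * (4 * N ^ 2)) := h2
      _ = 8 * (N ^ 5 * x ^ 2) := by ring
      _ ≤ 16 * (N ^ 8 * x ^ 2) := by linarith
      _ = (4 * N ^ 4 * x) ^ 2 := by ring
  have hB : c * (M + 1) ^ 2 * x / D ≤ 4 * c * N ^ 4 * x := by
    have h1 : (M + 1) ^ 2 * (1 / D) ≤ N ^ 2 * (4 * N ^ 2) :=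
      mul_le_mul hM3 hD1 (by positivity) (by positivity)
    calc c * (M + 1) ^ 2 * x / D = (c * x) * ((M + 1) ^ 2 * (1 / D)) := by ring
      _ ≤ (c * x) * (N ^ 2 * (4 * N ^ 2)) := mul_le_mul_of_nonneg_left h1 (by positivity)
      _ = 4 * c * N ^ 4 * x := by ring
  calc _ ≤ 4 * N ^ 4 * x + 4 * c * N ^ 4 * x := add_le_add hA hB
    _ = _ := by ring

theorem chow1 : ∃ c₀ : ℝ, ∀ (n m γ l : ℕ) (c : k) (h : k[X]) (x : ℝ),
    n + γ = 2 * m + 1 → l + γ = m + 1 → 4 * γ + 2 ≤ l → 4 ≤ γ → c ≠ 0 → h ≠ 0 →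
    C c * X ^ n + h ∈ mon k n → 0 ≤ x → x ≤ 1 → 1 / qq k ^ γ ≤ x ^ 2 ^ 59 →
    |𝔼 f ∈ mon k n, mu f * mu (C c * f + h)| ≤ c₀ * ((n : ℝ) + 1) ^ 4 * x := by
  obtain ⟨c₀, H⟩ := dir (k := k)
  refine ⟨4 + 4 * |c₀|, ?_⟩
  intro n m γ l c h x hn hl hγ h4 hc h0 hh hx0 hx1 hx
  have hyx : x ^ 2 ^ 59 ≤ x ^ 2 := pow_le_pow_of_le_one hx0 hx1 (by norm_num)
  have H' := fun g g' a1 a2 a3 a4 =>
    H n m γ l c h g g' x hn hl hγ (by omega) hc hh a1 a2 a3 a4 hx0 hx1 hx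
  generalize x ^ 2 ^ 59 = y at hx hyx
  clear H
  have hq : (2 : ℝ) ≤ qq k := two_le_qq
  have hγ0 : (0 : ℝ) < γ := by exact_mod_cast (by omega : 0 < γ)
  have hP := card_prs (k := k) (e := γ) (by omega)
  have hP2 : 2 ≤ #(prs k γ) := by
    have h1 : (4 * γ : ℝ) ≤ 2 ^ γ := by exact_mod_cast chow1_pow h4
    have h2 : (2 : ℝ) ^ γ ≤ qq k ^ γ := pow_le_pow_left₀ (by norm_num) hq γ
    have h3 : (2 * γ : ℝ) * 2 ≤ (2 * γ) * (#(prs k γ) : ℝ) := by linarith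
    exact_mod_cast le_of_mul_le_mul_left h3 (by positivity)
  have hoth : ∀ g, ∃ g' ∈ prs k γ, g ≠ g' := fun g => by
    obtain ⟨g', h1, h2⟩ := Finset.exists_mem_ne (show 1 < #(prs k γ) by omega) g
    exact ⟨g', h1, h2.symm⟩
  obtain ⟨G, hG⟩ : ∃ G : Finset k[X], G = {g ∈ prs k γ | bb (h * g) ≠ 0} := ⟨_, rfl⟩
  have hGm : ∀ g ∈ G, g ∈ prs k γ ∧ bb (h * g) ≠ 0 := fun g hg => by
    rw [hG] at hg
    exact Finset.mem_filter.1 hg
  have hbad : #{g ∈ prs k γ | ¬ bb (h * g) ≠ 0} ≤ 1 := by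
    refine Finset.card_le_one.2 fun a ha b hb => ?_
    obtain ⟨a1, a2⟩ := Finset.mem_filter.1 ha
    obtain ⟨b1, b2⟩ := Finset.mem_filter.1 hb
    exact bb_bad h0 a1 b1 (not_not.1 a2) (not_not.1 b2)
  have hsum := Finset.card_filter_add_card_filter_not (s := prs k γ) (fun g => bb (h * g) ≠ 0)
  rw [← hG] at hsum
  have hGc : #(prs k γ) ≤ 2 * #G := by omega
  have hGne : G.Nonempty := Finset.card_pos.1 (by omega)
  have hD := DD_ge (k := k) (e := 2 * γ) (by omega)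
  have hD0 : 0 < DD k (2 * γ) := lt_of_lt_of_le (by positivity) hD
  have key := lln (s := mon k n) hGne (fun g f => ww c h (2 * γ) g f)
    (fun f => mu f * mu (C c * f + h)) (D := DD k (2 * γ)) (W := (m : ℝ) ^ 2)
    (ε := |c₀| * ((m : ℝ) + 1) ^ 2 * x) hD0 (fun g _ f _ => ww_nonneg c h _ g f)
    (fun g hg f hf => ww_le hn (by omega) hh (hGm g hg).1 hf)
    (fun g hg => by
      obtain ⟨g', a1, a2⟩ := hoth g
      exact ww_exp (l := l) hc (hGm g hg).1 a1 a2 (by omega) (by omega) (by omega) h)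
    (fun g hg g' hg' hne =>
      ww_pair (l := l) hc (hGm g hg).1 (hGm g' hg').1 hne (by omega) (by omega) (by omega) h)
    (fun f _ => by
      rw [abs_mul]
      exact mul_le_one₀ (abs_mu _) (abs_nonneg _) (abs_mu _))
    (fun g hg => by
      obtain ⟨g', a1, a2⟩ := hoth g
      refine (H' g g' (hGm g hg).1 a1 a2 (hGm g hg).2).trans ?_
      exact mul_le_mul_of_nonneg_right
        (mul_le_mul_of_nonneg_right (le_abs_self _) (by positivity)) hx0)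
  refine key.trans (chow1_num (g := (γ : ℝ)) (Q := qq k ^ γ) (y := y) (by linarith [Nat.cast_nonneg (α := ℝ) n])
    (Nat.cast_nonneg m) ?_ hγ0 ?_ (by positivity) ?_ ?_ (abs_nonneg _) hx0 hx hyx)
  · exact_mod_cast (by omega : m + 1 ≤ n + 1)
  · exact_mod_cast (by omega : 2 * γ + 1 ≤ n + 1)
  · have h1 : (#(prs k γ) : ℝ) ≤ 2 * #G := by exact_mod_cast hGc
    have h2 : (2 * γ : ℝ) * (#(prs k γ) : ℝ) ≤ (2 * γ) * (2 * #G) :=
      mul_le_mul_of_nonneg_left h1 (by positivity)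
    linarith
  · simpa using hD

end CHOW1
end

section
variable {k : Type} [Field k] [Fintype k]
variable [CharP k 2]
section CHOW

theorem chow_bdd {r : ℝ} (h0 : 0 < r) (h1 : r < 1) :
    ∃ B : ℝ, 0 ≤ B ∧ ∀ n : ℕ, ((n : ℝ) + 1) ^ 4 * r ^ n ≤ B := by
  have ht := tendsto_pow_const_mul_const_pow_of_abs_lt_one 4
    (r := r) (by rw [abs_of_pos h0]; exact h1)
  obtain ⟨B, hB⟩ := ht.bddAbove_range
  have hb : ∀ n : ℕ, (n : ℝ) ^ 4 * r ^ n ≤ B := fun n => hB ⟨n, rfl⟩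
  refine ⟨B / r, div_nonneg (le_trans (by positivity) (hb 0)) h0.le, fun n => ?_⟩
  rw [le_div_iff₀ h0]
  have := hb (n + 1)
  push_cast at this
  calc ((n : ℝ) + 1) ^ 4 * r ^ n * r = ((n : ℝ) + 1) ^ 4 * r ^ (n + 1) := by ring
    _ ≤ B := this

omit [CharP k 2] in
theorem chow_triv (n : ℕ) (c : k) (h : k[X]) :
    |𝔼 f ∈ mon k n, mu f * mu (C c * f + h)| ≤ 1 := by
  refine le_trans (Finset.abs_expect_le _ _) ?_
  refine Finset.expect_le (mon_nonempty n) (fun f _ => ?_)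
  rw [abs_mul]
  exact mul_le_one₀ (abs_mu f) (abs_nonneg _) (abs_mu _)

theorem chowla : ∃ c₀ : ℝ, ∀ (n : ℕ) (c : k) (h : k[X]), c ≠ 0 → h ≠ 0 →
    C c * X ^ n + h ∈ mon k n →
    |𝔼 f ∈ mon k n, mu f * mu (C c * f + h)| ≤ c₀ * qq k ^ (-(n : ℝ) / 2 ^ 63) := by
  obtain ⟨c₁, H⟩ := chow1 (k := k)
  have hq2 : 2 ≤ qq k := two_le_qq
  have hq1 : 1 < qq k := by linarith
  have hq0 : 0 < qq k := by linarith
  obtain ⟨B, hB0, hB⟩ := chow_bdd (r := qq k ^ (-(1 : ℝ) / 2 ^ 64)) (Real.rpow_pos_of_pos hq0 _)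
    (Real.rpow_lt_one_of_one_lt_of_neg hq1 (by norm_num))
  refine ⟨|c₁| * B + qq k, fun n c h hc hh hm => ?_⟩
  have hp : 0 < qq k ^ (-(n : ℝ) / 2 ^ 63) := Real.rpow_pos_of_pos hq0 _
  have hcB : 0 ≤ |c₁| * B := mul_nonneg (abs_nonneg _) hB0
  by_cases hn : n < 150
  · refine le_trans (chow_triv n c h) ?_
    have hn' : (n : ℝ) ≤ 150 := by exact_mod_cast hn.le
    have h1 : (1 : ℝ) ≤ qq k * qq k ^ (-(n : ℝ) / 2 ^ 63) := by
      have : qq k * qq k ^ (-(n : ℝ) / 2 ^ 63) = qq k ^ (1 + -(n : ℝ) / 2 ^ 63) := by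
        rw [Real.rpow_add hq0, Real.rpow_one]
      rw [this]
      refine Real.one_le_rpow hq1.le ?_
      have : (n : ℝ) / 2 ^ 63 ≤ 1 := by
        rw [div_le_one (by positivity)]
        refine le_trans hn' (by norm_num)
      rw [neg_div]
      linarith
    nlinarith [mul_nonneg hcB hp.le]
  · obtain ⟨γ, m, l, e1, e2, e3, e4, e5⟩ : ∃ γ m l : ℕ, n + γ = 2 * m + 1 ∧ l + γ = m + 1 ∧
        4 * γ + 2 ≤ l ∧ 4 ≤ γ ∧ 3 * n ≤ 32 * γ := by
      by_cases hpar : (n + n / 10) % 2 = 1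
      · exact ⟨n / 10, (n + n / 10) / 2, (n + n / 10) / 2 + 1 - n / 10, by omega, by omega,
          by omega, by omega, by omega⟩
      · exact ⟨n / 10 + 1, (n + n / 10) / 2, (n + n / 10) / 2 - n / 10, by omega, by omega,
          by omega, by omega, by omega⟩
    have hx0 : 0 < qq k ^ (-(γ : ℝ) / 2 ^ 59) := Real.rpow_pos_of_pos hq0 _
    have hx1 : qq k ^ (-(γ : ℝ) / 2 ^ 59) ≤ 1 := Real.rpow_le_one_of_one_le_of_nonpos hq1.le (by
      rw [neg_div]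
      exact neg_nonpos.mpr (by positivity))
    have hx2 : 1 / qq k ^ γ ≤ (qq k ^ (-(γ : ℝ) / 2 ^ 59)) ^ 2 ^ 59 := by
      rw [← Real.rpow_natCast (qq k ^ (-(γ : ℝ) / 2 ^ 59)), ← Real.rpow_mul hq0.le]
      have : -(γ : ℝ) / 2 ^ 59 * ((2 ^ 59 : ℕ) : ℝ) = -(γ : ℝ) := by
        rw [Nat.cast_pow, Nat.cast_ofNat]
        exact div_mul_cancel₀ _ (by positivity)
      rw [this, Real.rpow_neg hq0.le, Real.rpow_natCast, one_div]
    have key := H n m γ l c h _ e1 e2 e3 e4 hc hh hm hx0.le hx1 hx2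
    clear hx2 H
    have hx3 : qq k ^ (-(γ : ℝ) / 2 ^ 59) ≤
        (qq k ^ (-(1 : ℝ) / 2 ^ 64)) ^ n * qq k ^ (-(n : ℝ) / 2 ^ 63) := by
      rw [← Real.rpow_natCast (qq k ^ (-(1 : ℝ) / 2 ^ 64)), ← Real.rpow_mul hq0.le,
        ← Real.rpow_add hq0]
      refine Real.rpow_le_rpow_of_exponent_le hq1.le ?_
      have e5' : 3 * (n : ℝ) ≤ 32 * (γ : ℝ) := by exact_mod_cast e5
      have a1 : -(γ : ℝ) / 2 ^ 59 = -(32 * (γ : ℝ)) / 2 ^ 64 := by ring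
      have a2 : -(1 : ℝ) / 2 ^ 64 * n + -(n : ℝ) / 2 ^ 63 = -(3 * (n : ℝ)) / 2 ^ 64 := by ring
      rw [a1, a2]
      exact div_le_div_of_nonneg_right (by linarith) (by positivity)
    calc _ ≤ c₁ * ((n : ℝ) + 1) ^ 4 * qq k ^ (-(γ : ℝ) / 2 ^ 59) := key
      _ ≤ |c₁| * ((n : ℝ) + 1) ^ 4 * qq k ^ (-(γ : ℝ) / 2 ^ 59) := by
        gcongr
        exact le_abs_self _
      _ ≤ |c₁| * ((n : ℝ) + 1) ^ 4 *
          ((qq k ^ (-(1 : ℝ) / 2 ^ 64)) ^ n * qq k ^ (-(n : ℝ) / 2 ^ 63)) := by gcongr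
      _ = |c₁| * (((n : ℝ) + 1) ^ 4 * (qq k ^ (-(1 : ℝ) / 2 ^ 64)) ^ n) *
          qq k ^ (-(n : ℝ) / 2 ^ 63) := by ring
      _ ≤ |c₁| * B * qq k ^ (-(n : ℝ) / 2 ^ 63) := by
        gcongr
        exact hB n
      _ ≤ (|c₁| * B + qq k) * qq k ^ (-(n : ℝ) / 2 ^ 63) := by
        gcongr
        linarith

end CHOW
end

end Pool.Agent.MP_f0209c_nt.FF
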