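import Pool.Agent.MP_f0209c_nt.FF.P4

/-! Small gaps between zeros. -/

set_option autoImplicit false

open Polynomial Finset Filter
open scoped Classical BigOperators

noncomputable section
namespace Pool.Agent.MP_f0209c_nt.FF
open Pool.Agent.MP_a4a062_nt.C2

section
section
variable {k : Type} [Field k] [Fintype k]

theorem low_sq (a b : ℂ) : ‖a‖ ^ 2 / 4 - ‖b‖ ^ 2 / 3 ≤ ‖a - b‖ ^ 2 := by
  have h : ‖a‖ ≤ ‖a - b‖ + ‖b‖ := by
    have := norm_add_le (a - b) b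
    rwa [sub_add_cancel] at this
  have h2 : ‖a‖ ^ 2 ≤ (‖a - b‖ + ‖b‖) ^ 2 := pow_le_pow_left₀ (norm_nonneg _) h 2
  nlinarith [sq_nonneg (3 * ‖a - b‖ - ‖b‖)]

theorem low_err {q c : ℝ} (hq : 2 ≤ q) (hc : 0 ≤ c) : ∀ᶠ d : ℕ in atTop, ∀ m : ℕ, d ≤ m + 1 →
    (m : ℝ) ≤ d + 1 / 2 ^ 64 * d →
      q ^ m / q ^ d + q * (q ^ m / q ^ d) * (c * q ^ (-(m : ℝ) / 2 ^ 63) * q ^ m + q ^ m / q ^ d)
        ≤ q ^ m / 120 := by
  have hq0 : 0 < q := by linarith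
  have hq1 : 1 ≤ q := by linarith
  have hr : q ^ (-(1 : ℝ) / 2 ^ 64) < 1 :=
    Real.rpow_lt_one_of_one_lt_of_neg (by linarith) (by norm_num)
  have ht := (tendsto_pow_atTop_nhds_zero_of_lt_one (Real.rpow_nonneg hq0.le _) hr).mul_const
    (1 + q * (c * q + 1))
  rw [zero_mul] at ht
  filter_upwards [ht.eventually (ge_mem_nhds (show (0 : ℝ) < 1 / 120 by norm_num))] with d hd m h1 h2
  rw [← Real.rpow_natCast, ← Real.rpow_mul hq0.le] at hd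
  obtain ⟨y, hy⟩ : ∃ y : ℝ, y = q ^ (-(1 : ℝ) / 2 ^ 64 * d) := ⟨_, rfl⟩
  rw [← hy] at hd
  have hy0 : 0 < y := hy ▸ Real.rpow_pos_of_pos hq0 _
  have hd0 : (0 : ℝ) ≤ d := Nat.cast_nonneg d
  have h1' : (d : ℝ) ≤ m + 1 := by exact_mod_cast h1
  have hyy : y * y = q ^ (-(1 : ℝ) / 2 ^ 64 * d + -(1 : ℝ) / 2 ^ 64 * d) := by
    rw [Real.rpow_add hq0, ← hy]
  have ed : 1 / q ^ d = q ^ (-(d : ℝ)) := by
    rw [Real.rpow_neg hq0.le, Real.rpow_natCast, one_div]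
  have a1 : 1 / q ^ d ≤ y := by
    rw [ed, hy]
    exact Real.rpow_le_rpow_of_exponent_le hq1 (by linarith)
  have a2 : 1 / q ^ d ≤ y * y := by
    rw [ed, hyy]
    exact Real.rpow_le_rpow_of_exponent_le hq1 (by linarith)
  have a3 : q ^ (-(m : ℝ) / 2 ^ 63) ≤ q * (y * y) := by
    rw [hyy]
    nth_rewrite 2 [← Real.rpow_one q]
    rw [← Real.rpow_add hq0]
    exact Real.rpow_le_rpow_of_exponent_le hq1 (by linarith)
  have a4 : q ^ m / q ^ d * y ≤ 1 := by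
    rw [hy, ← Real.rpow_natCast, ← Real.rpow_natCast, ← Real.rpow_sub hq0, ← Real.rpow_add hq0]
    exact Real.rpow_le_one_of_one_le_of_nonpos hq1 (by linarith)
  have hm : 0 < q ^ m := pow_pos hq0 m
  have hz : 0 ≤ q ^ m / q ^ d := by positivity
  have b1 : q ^ m / q ^ d ≤ y * q ^ m := by
    rw [div_eq_mul_one_div, mul_comm]
    exact mul_le_mul_of_nonneg_right a1 hm.le
  have b2 : q ^ m / q ^ d ≤ y * y * q ^ m := by
    rw [div_eq_mul_one_div, mul_comm]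
    exact mul_le_mul_of_nonneg_right a2 hm.le
  have b3 : c * q ^ (-(m : ℝ) / 2 ^ 63) * q ^ m ≤ c * (q * (y * y)) * q ^ m := by gcongr
  have b4 : q * (q ^ m / q ^ d) * (c * q ^ (-(m : ℝ) / 2 ^ 63) * q ^ m + q ^ m / q ^ d)
      ≤ q * (q ^ m / q ^ d) * (c * (q * (y * y)) * q ^ m + y * y * q ^ m) :=
    mul_le_mul_of_nonneg_left (add_le_add b3 b2) (by positivity)
  have b5 : q * (q ^ m / q ^ d) * (c * (q * (y * y)) * q ^ m + y * y * q ^ m)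
      = (q ^ m / q ^ d * y) * (y * (q * (c * q + 1)) * q ^ m) := by ring
  have b6 : (q ^ m / q ^ d * y) * (y * (q * (c * q + 1)) * q ^ m)
      ≤ y * (q * (c * q + 1)) * q ^ m := mul_le_of_le_one_left (by positivity) a4
  have b7 : y * (1 + q * (c * q + 1)) * q ^ m ≤ 1 / 120 * q ^ m :=
    mul_le_mul_of_nonneg_right hd hm.le
  nlinarith

variable [CharP k 2]

theorem low : ∀ᶠ d : ℕ in atTop, ∀ Q : k[X], Q.Monic → Irreducible Q → Q.natDegree = d →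
    ∀ n : ℕ, d ≤ n → (n : ℝ) ≤ d + 1 / 2 ^ 64 * d →
      (#(ev Q) : ℝ) / 30 ≤ ∑ χ ∈ ev Q, ‖HH Q χ n‖ ^ 2 := by
  obtain ⟨c, hc⟩ := chowla (k := k)
  have hq : 2 ≤ qq k := two_le_qq
  have hq0 : 0 < qq k := by linarith
  filter_upwards [low_err hq (abs_nonneg c), eventually_ge_atTop 3] with d hd h3 Q hQ hi hQd n h1 h2
  have hv : ∀ m : ℕ, d ≤ m + 1 → (m : ℝ) ≤ d + 1 / 2 ^ 64 * d →
      |∑ χ ∈ ev Q, ‖MM Q χ m‖ ^ 2 - (#(ev Q) : ℝ) * sqf k m| ≤ (#(ev Q) : ℝ) * (qq k ^ m / 120) := by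
    intro m a1 a2
    have hp : 0 ≤ qq k ^ (-(m : ℝ) / 2 ^ 63) := Real.rpow_nonneg hq0.le _
    refine (var_ge hQ hi m (ε := |c| * qq k ^ (-(m : ℝ) / 2 ^ 63)) (mul_nonneg (abs_nonneg c) hp)
      fun e h he hh hm => (hc m e h he hh hm).trans
        (mul_le_mul_of_nonneg_right (le_abs_self c) hp)).trans ?_
    rw [hQd]
    exact mul_le_mul_of_nonneg_left (hd m a1 a2) (Nat.cast_nonneg _)
  obtain ⟨m, rfl⟩ : ∃ m, n = m + 2 := ⟨n - 2, by omega⟩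
  have v1 := (abs_le.1 (hv (m + 2) (by omega) h2)).1
  have v2 := (abs_le.1 (hv (m + 1) (by omega) (by push_cast at h2 ⊢; linarith))).2
  rw [sqf_eq (by omega)] at v1 v2
  simp only [Nat.add_one_sub_one, show m + 2 - 1 = m + 1 from rfl] at v1 v2
  have hn : ∀ χ, ‖HH Q χ (m + 2)‖ ^ 2
      = ‖MM Q χ (m + 2) - MM Q χ (m + 1)‖ ^ 2 / qq k ^ (m + 2) := by
    intro χ
    unfold HH
    rw [if_neg (by omega), norm_div, div_pow, norm_pow, Complex.norm_real, Real.norm_eq_abs,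
      abs_of_nonneg (Real.sqrt_nonneg _), ← pow_mul, mul_comm (m + 2) 2, pow_mul,
      Real.sq_sqrt hq0.le]
    rfl
  simp only [hn]
  rw [← Finset.sum_div, le_div_iff₀ (pow_pos hq0 _)]
  have hs : ∑ χ ∈ ev Q, (‖MM Q χ (m + 2)‖ ^ 2 / 4 - ‖MM Q χ (m + 1)‖ ^ 2 / 3)
      ≤ ∑ χ ∈ ev Q, ‖MM Q χ (m + 2) - MM Q χ (m + 1)‖ ^ 2 := sum_le_sum fun χ _ => low_sq _ _
  rw [sum_sub_distrib, ← Finset.sum_div, ← Finset.sum_div] at hs
  refine le_trans ?_ hs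
  have hE : (0 : ℝ) ≤ (#(ev Q) : ℝ) * qq k ^ m := by positivity
  have key : qq k ^ 2 / 30 ≤ (qq k ^ 2 - qq k - qq k ^ 2 / 120) / 4
      - (qq k - 1 + qq k / 120) / 3 := by nlinarith
  have key2 := mul_le_mul_of_nonneg_left key hE
  simp only [pow_succ] at v1 v2 key2 ⊢
  nlinarith

end
end

section
section MAIN
variable {k : Type} [Field k] [Fintype k]

theorem gap_sign {Q : k[X]} {χ : MulChar (AdjoinRoot Q) ℂ} {N : ℕ} {t : ℝ} (ht : 0 < t)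
    (ht' : t ≤ Real.pi) {θ : Fin N → ℝ}
    (hθ : PowerSeries.mk (AA Q χ) = (1 - PowerSeries.X) *
      ∏ j, (1 - PowerSeries.C (((√(qq k) : ℝ) : ℂ) * Complex.exp (θ j * Complex.I)) *
        PowerSeries.X))
    (h : ∀ θ : Fin N → ℝ, PowerSeries.mk (AA Q χ) = (1 - PowerSeries.X) *
      ∏ j, (1 - PowerSeries.C (((√(qq k) : ℝ) : ℂ) * Complex.exp (θ j * Complex.I)) *
        PowerSeries.X) → ∀ i j, i ≠ j → t < |θ i - θ j|) (Y : ℕ) :
    0 ≤ ∑ n ∈ range Y, ‖HH Q χ n‖ ^ 2 * Real.sin (((n : ℝ) + (N : ℝ) / 2) * t) := by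
  have hR : ((√(qq k) : ℝ) : ℂ) ≠ 0 := by
    have h2 := two_le_qq (k := k)
    exact_mod_cast (Real.sqrt_pos.2 (by linarith)).ne'
  refine sign θ ht ht' (fun i j hij m => ?_) (HH Q χ) (inv_ser hR hθ
    (mu_conv (χ.toMonoidHom.comp (AdjoinRoot.mk Q).toMonoidHom))) Y
  have h1 := h (Function.update θ i (θ i - 2 * Real.pi * m)) ?_ i j hij
  · rwa [Function.update_self, Function.update_of_ne hij.symm, sub_right_comm] at h1
  · rw [hθ]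
    congr 1
    refine prod_congr rfl fun l _ => ?_
    by_cases hl : l = i
    · rw [hl, Function.update_self, show (((θ i - 2 * Real.pi * m : ℝ) : ℂ) * Complex.I) =
        θ i * Complex.I - m * (2 * Real.pi * Complex.I) by push_cast; ring, Complex.exp_sub,
        Complex.exp_int_mul_two_pi_mul_I, div_one]
    · rw [Function.update_of_ne hl]

variable [CharP k 2]

theorem gap : ∀ᶠ N : ℕ in atTop, ∀ Q : k[X], Q.Monic → Irreducible Q → Q.natDegree = N + 2 →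
    ∃ χ ∈ ev Q, χ ≠ 1 ∧ ∃ θ : Fin N → ℝ, PowerSeries.mk (AA Q χ) = (1 - PowerSeries.X) *
      ∏ j, (1 - PowerSeries.C (((√(qq k) : ℝ) : ℂ) * Complex.exp (θ j * Complex.I)) *
        PowerSeries.X) ∧
      ∃ i j, i ≠ j ∧ |θ i - θ j| ≤ (1 / 2 - 1 / 2 ^ 64 / 1000) * (2 * Real.pi / N) := by
  have hq := two_le_qq (k := k)
  obtain ⟨τ, hτ⟩ : ∃ τ : ℝ, τ = 1 / 2 ^ 64 := ⟨_, rfl⟩
  have τ0 : 0 < τ := by rw [hτ]; positivity
  have τ1 : τ ≤ 1 / 10 := by rw [hτ]; norm_num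
  have hl := low (k := k)
  rw [← hτ] at hl ⊢
  filter_upwards [(tendsto_add_atTop_nat 2).eventually (num τ0 τ1 (4 * qq k ^ 2)),
    (tendsto_add_atTop_nat 2).eventually hl, eventually_ge_atTop 1,
    ((tendsto_pow_atTop_atTop_of_one_lt (by linarith : 1 < qq k)).comp
      (tendsto_add_atTop_nat 1)).eventually_gt_atTop (1600 * qq k ^ 2 / τ)]
    with N h1 h2 hN h3 Q hQ hi hd
  by_contra hcon
  push Not at hcon
  obtain ⟨t, ht⟩ : ∃ t : ℝ, t = (1 / 2 - τ / 1000) * (2 * Real.pi / N) := ⟨_, rfl⟩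
  obtain ⟨Y, hY⟩ : ∃ Y : ℕ, Y = N + 2 + ⌊τ * ((N + 2 : ℕ) : ℝ)⌋₊ := ⟨_, rfl⟩
  have hN1 : (1 : ℝ) ≤ N := by exact_mod_cast hN
  have hpi := Real.pi_pos
  have hd0 : (0 : ℝ) < ((N + 2 : ℕ) : ℝ) := by positivity
  have t0 : 0 < t := by
    rw [ht]
    exact mul_pos (by linarith) (by positivity)
  have t1 : t ≤ Real.pi := by
    have h4 : 2 * Real.pi / N ≤ 2 * Real.pi := div_le_self (by positivity) hN1
    have h5 : 0 ≤ 2 * Real.pi / N := by positivity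
    rw [ht]
    nlinarith
  have hYle : Y ≤ 2 * (N + 2) := by
    have h4 : ⌊τ * ((N + 2 : ℕ) : ℝ)⌋₊ ≤ N + 2 := Nat.floor_le_of_le (by nlinarith)
    omega
  have hc := card_ev hQ hi
  rw [hd, show N + 2 - 1 = N + 1 from rfl] at hc
  have h3' : 1600 * qq k ^ 2 < (#(ev Q) : ℝ) * τ := (div_lt_iff₀ τ0).1 (lt_of_lt_of_le h3 hc)
  have c0 : (0 : ℝ) < #(ev Q) := lt_of_lt_of_le (by positivity) hc
  have hq2 : 1 ≤ qq k ^ 2 := one_le_pow₀ (by linarith)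
  have a1 := h1 (fun n => (∑ χ ∈ ev Q, ‖HH Q χ n‖ ^ 2) / (#(ev Q) : ℝ)) (1 - 1 / qq k ^ 2)
    (sub_nonneg.2 ((div_le_one (by positivity)).2 hq2)) (sub_le_self _ (by positivity))
    (fun n hn => by
      rw [abs_of_nonneg (by positivity), div_le_iff₀ c0, mul_comm, ← nsmul_eq_mul]
      exact sum_le_card_nsmul _ _ _ fun χ _ => (HH_le hQ χ n).trans
        (mul_le_mul_of_nonneg_left (pow_le_pow_right₀ (by linarith) hn) (by norm_num)))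
    (fun n hn hn' => by
      rw [var_lt hQ hi hn (by omega), mul_div_cancel_left₀ _ c0.ne'])
    (fun n hn hn' => by
      have h4 := h2 Q hQ hi hd n hn hn'
      rw [le_div_iff₀ c0]
      linarith)
  rw [← hY, Nat.add_sub_cancel, show (((N + 2 : ℕ) : ℝ) - 2) = N by push_cast; ring, ← ht] at a1
  have a2 : ∑ χ ∈ ev Q, ∑ n ∈ range Y, ‖HH Q χ n‖ ^ 2 * Real.sin (((n : ℝ) + (N : ℝ) / 2) * t) ≤
      -(τ * ((N + 2 : ℕ) : ℝ) / 200) * (#(ev Q) : ℝ) := by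
    rw [sum_comm, ← div_le_iff₀ c0, sum_div]
    refine le_trans (le_of_eq (sum_congr rfl fun n _ => ?_)) a1
    rw [← sum_mul, mul_div_right_comm]
  rw [← add_sum_erase _ _ (one_mem_ev hQ)] at a2
  have a3 : 0 ≤ ∑ χ ∈ (ev Q).erase 1,
      ∑ n ∈ range Y, ‖HH Q χ n‖ ^ 2 * Real.sin (((n : ℝ) + (N : ℝ) / 2) * t) := by
    refine sum_nonneg fun χ hχ => ?_
    obtain ⟨x1, x2⟩ := mem_erase.1 hχ
    obtain ⟨θ, hθ⟩ := rh hQ hi x1 x2 hd
    exact gap_sign t0 t1 hθ (fun θ' h' i j hij => ht ▸ hcon χ x2 x1 θ' h' i j hij) Y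
  have a4 : (#(range Y)) • (-(4 * qq k ^ 2)) ≤
      ∑ n ∈ range Y, ‖HH Q 1 n‖ ^ 2 * Real.sin (((n : ℝ) + (N : ℝ) / 2) * t) := by
    refine card_nsmul_le_sum _ _ _ fun n hn => ?_
    have h4 := HH_one hQ hi (n := n) (by rw [mem_range] at hn; omega)
    nlinarith [Real.neg_one_le_sin (((n : ℝ) + (N : ℝ) / 2) * t), sq_nonneg ‖HH Q 1 n‖]
  rw [card_range, nsmul_eq_mul] at a4
  have a5 : (Y : ℝ) ≤ 2 * ((N + 2 : ℕ) : ℝ) := by exact_mod_cast hYle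
  nlinarith [mul_lt_mul_of_pos_left h3' hd0, mul_le_mul_of_nonneg_right a5
    (show 0 ≤ 4 * qq k ^ 2 by positivity)]

end MAIN
end

section
section

theorem main : ∃ η : ℝ, 0 < η ∧ ∀ (k : Type) [Field k] [Finite k] [CharP k 2], ∃ d₀ : ℕ,
    ∀ Q : k[X], Q.Monic → Irreducible Q → d₀ ≤ Q.natDegree →
      ∃ χ : MulChar (AdjoinRoot Q) ℂ, χ ≠ 1 ∧
        (∀ c : k, c ≠ 0 → χ (AdjoinRoot.mk Q (C c)) = 1) ∧
        ∃ θ : Fin (Q.natDegree - 2) → ℝ,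
          (∀ u : ℂ, ∑ n ∈ Finset.range Q.natDegree,
              (∑ᶠ f ∈ {f : k[X] | f.Monic ∧ f.natDegree = n}, χ (AdjoinRoot.mk Q f)) * u ^ n =
            (1 - u) * ∏ j, (1 - ((√(Nat.card k) : ℝ) : ℂ) * Complex.exp (θ j * Complex.I) * u)) ∧
          ∃ i j, i ≠ j ∧
            |θ i - θ j| ≤ (1 / 2 - η) * (2 * Real.pi / ((Q.natDegree : ℝ) - 2)) := by
  refine ⟨1 / 2 ^ 64 / 1000, by positivity, fun k _ _ _ => ?_⟩
  have := Fintype.ofFinite k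
  obtain ⟨N₀, h⟩ := eventually_atTop.1 (gap (k := k))
  refine ⟨N₀ + 2, fun Q hQ hi hd => ?_⟩
  obtain ⟨N, hN⟩ : ∃ N, Q.natDegree = N + 2 := ⟨Q.natDegree - 2, by omega⟩
  obtain ⟨χ, he, h1, θ, hA, hg⟩ := h N (by omega) Q hQ hi hN
  refine ⟨χ, h1, (mem_ev hQ).1 he, ?_⟩
  rw [hN]
  have e : ((N + 2 : ℕ) : ℝ) - 2 = N := by
    push_cast
    ring
  refine ⟨θ, fun u => ?_, by rw [e]; exact hg⟩
  rw [Nat.card_eq_fintype_card]
  refine Eq.trans (sum_congr rfl fun n _ => ?_) (eval_ser hA u)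
  rw [AA, ← finsum_mem_coe_finset]
  congr 2
  ext f
  simp [mem_mon]

end
end

end Pool.Agent.MP_f0209c_nt.FF
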