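import Pool.Agent.MP_f0209c_nt.FF.P5

/-! Many characters with a small gap. -/

set_option autoImplicit false

open Polynomial Finset Filter
open scoped Classical BigOperators

noncomputable section
namespace Pool.Agent.MP_f0209c_nt.FF
open Pool.Agent.MP_a4a062_nt.C2

section MANY

theorem mny_newton {N : ℕ} (z : Fin N → ℂ) {H : ℕ → ℂ} (hH : PowerSeries.mk H *
    ∏ j, (1 - PowerSeries.C (z j) * PowerSeries.X) = 1) : H 0 = 1 ∧ ∀ n,
    H (n + 1) * (n + 1) = ∑ x ∈ antidiagonal n, (∑ j, z j ^ (x.1 + 1)) * H x.2 := by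
  have e : ∀ s : Finset (Fin N), PowerSeries.derivative ℂ
      (∏ j ∈ s, (1 - PowerSeries.C (z j) * PowerSeries.X)) =
      -(PowerSeries.mk fun r => ∑ j ∈ s, z j ^ (r + 1)) *
        ∏ j ∈ s, (1 - PowerSeries.C (z j) * PowerSeries.X) := by
    intro s
    induction s using Finset.induction_on with
    | empty => ext n; simp
    | insert a s ha ih =>
      have e1 : (PowerSeries.mk fun r => z a ^ (r + 1)) *
          (1 - PowerSeries.C (z a) * PowerSeries.X) = PowerSeries.C (z a) := by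
        ext n
        cases n <;> simp [mul_sub, ← mul_assoc, PowerSeries.coeff_succ_mul_X, pow_succ,
          PowerSeries.coeff_C]
      have e2 : (PowerSeries.mk fun r => ∑ j ∈ insert a s, z j ^ (r + 1)) =
          (PowerSeries.mk fun r => z a ^ (r + 1)) +
            PowerSeries.mk fun r => ∑ j ∈ s, z j ^ (r + 1) := by
        ext n; simp [ha]
      rw [e2, prod_insert ha, Derivation.leibniz, ih]
      simp only [map_sub, Derivation.leibniz, PowerSeries.derivative_X,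
        PowerSeries.derivative_C, smul_eq_mul, Derivation.map_one_eq_zero]
      linear_combination (∏ j ∈ s, (1 - PowerSeries.C (z j) * PowerSeries.X)) * e1
  refine ⟨by simpa [map_prod] using congrArg PowerSeries.constantCoeff hH, fun n => ?_⟩
  have h1 := congrArg (PowerSeries.derivative ℂ) hH
  rw [Derivation.leibniz, e, Derivation.map_one_eq_zero, smul_eq_mul, smul_eq_mul] at h1
  have h2 : PowerSeries.derivative ℂ (PowerSeries.mk H) =
      (PowerSeries.mk fun r => ∑ j, z j ^ (r + 1)) * PowerSeries.mk H := by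
    linear_combination PowerSeries.mk H * h1 + ((PowerSeries.mk fun r => ∑ j, z j ^ (r + 1)) *
      PowerSeries.mk H - PowerSeries.derivative ℂ (PowerSeries.mk H)) * hH
  simpa [PowerSeries.coeff_derivative, PowerSeries.coeff_mul] using
    congrArg (PowerSeries.coeff n) h2

theorem mny_p {q : ℝ} (hq : 1 ≤ q) (m : ℕ) : ∃ c : ℝ, 0 ≤ c ∧ ∀ p H : ℕ → ℂ, H 0 = 1 →
    (∀ n, ‖H n‖ ≤ 2 * q ^ n) →
    (∀ n, H (n + 1) * (n + 1) = ∑ x ∈ antidiagonal n, p x.1 * H x.2) → ∀ i < m, ‖p i‖ ≤ c := by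
  induction m with
  | zero => exact ⟨0, le_rfl, fun _ _ _ _ _ i hi => absurd hi i.not_lt_zero⟩
  | succ m ih =>
    obtain ⟨c, c0, hc⟩ := ih
    refine ⟨c + (2 * q ^ (m + 1) * (m + 1) + m * (c * (2 * q ^ m))), by positivity,
      fun p H h0 hb hr i hi => ?_⟩
    rcases (Nat.le_of_lt_succ hi).eq_or_lt with rfl | h
    · have e := hr i
      rw [Nat.sum_antidiagonal_eq_sum_range_succ (fun a b => p a * H b), sum_range_succ,
        Nat.sub_self, h0, mul_one, ← sub_eq_iff_eq_add'] at e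
      rw [← e]
      refine le_add_of_nonneg_of_le c0 ((norm_sub_le _ _).trans (add_le_add ?_
        ((norm_sum_le _ _).trans ((sum_le_card_nsmul _ _ _ fun j hj => ?_).trans_eq
          (by rw [card_range, nsmul_eq_mul])))))
      · rw [norm_mul, ← Nat.cast_add_one, Complex.norm_natCast, Nat.cast_add_one]
        exact mul_le_mul_of_nonneg_right (hb _) (by positivity)
      · rw [norm_mul]
        exact mul_le_mul (hc p H h0 hb hr j (mem_range.1 hj)) ((hb _).trans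
          (mul_le_mul_of_nonneg_left (pow_le_pow_right₀ hq (Nat.sub_le _ _)) two_pos.le))
          (norm_nonneg _) c0
    · exact le_add_of_le_of_nonneg (hc p H h0 hb hr i h) (by positivity)

theorem mny_geo (s : ℝ) (n : ℕ) : (s - 1) * ∑ x ∈ antidiagonal n, s ^ (x.1 + 1) * s ^ (2 * x.2) =
    s ^ (2 * (n + 1)) - s ^ (n + 1) := by
  induction n with
  | zero => simp; ring
  | succ n ih =>
    rw [Nat.sum_antidiagonal_succ' (f := fun x => s ^ (x.1 + 1) * s ^ (2 * x.2))]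
    have : ∑ x ∈ antidiagonal n, s ^ (x.1 + 1) * s ^ (2 * (x.2 + 1)) =
        s ^ 2 * ∑ x ∈ antidiagonal n, s ^ (x.1 + 1) * s ^ (2 * x.2) := by
      rw [mul_sum]
      exact sum_congr rfl fun x _ => by ring
    dsimp only
    rw [this]
    linear_combination s ^ 2 * ih

theorem mny_h {s K : ℝ} (hs : 1 < s) {n₀ : ℕ} {p H : ℕ → ℂ}
    (hp : ∀ i, ‖p i‖ ≤ (s - 1) * n₀ * s ^ (i + 1)) (hK : ∀ n ≤ n₀, ‖H n‖ ≤ K)
    (hr : ∀ n, H (n + 1) * (n + 1) = ∑ x ∈ antidiagonal n, p x.1 * H x.2) (n : ℕ) :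
    ‖H n‖ ≤ K * s ^ (2 * n) := by
  have K0 : 0 ≤ K := (norm_nonneg _).trans (hK 0 n₀.zero_le)
  have s0 : 0 < s := by linarith
  induction n using Nat.strong_induction_on with
  | _ n ih =>
    rcases le_or_gt n n₀ with h | h
    · exact (hK n h).trans (le_mul_of_one_le_right K0 (one_le_pow₀ hs.le))
    obtain ⟨n, rfl⟩ : ∃ m, n = m + 1 := ⟨n - 1, by omega⟩
    have e := congrArg norm (hr n)
    rw [norm_mul, ← Nat.cast_add_one, Complex.norm_natCast] at e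
    have e1 : ‖∑ x ∈ antidiagonal n, p x.1 * H x.2‖ ≤
        K * n₀ * ((s - 1) * ∑ x ∈ antidiagonal n, s ^ (x.1 + 1) * s ^ (2 * x.2)) := by
      rw [← mul_assoc, mul_sum]
      refine (norm_sum_le _ _).trans (sum_le_sum fun x hx => ?_)
      rw [norm_mul]
      refine (mul_le_mul (hp _) (ih _ (by have := mem_antidiagonal.1 hx; omega)) (norm_nonneg _)
        ((norm_nonneg _).trans (hp _))).trans_eq (by ring)
    rw [mny_geo, ← e] at e1
    have e2 : (n₀ : ℝ) ≤ (n + 1 : ℕ) := by exact_mod_cast h.le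
    refine le_of_mul_le_mul_right (e1.trans ?_) (by positivity : (0 : ℝ) < (n + 1 : ℕ))
    rw [mul_right_comm]
    exact mul_le_mul (mul_le_mul_of_nonneg_left (sub_le_self _ (by positivity)) K0) e2
      (by positivity) (by positivity)

theorem mny_bnd {q A : ℝ} (hq : 1 ≤ q) (hA : 1 < A) : ∀ᶠ N : ℕ in atTop, ∀ (θ : Fin N → ℝ)
    (H : ℕ → ℂ), PowerSeries.mk H *
      ∏ j, (1 - PowerSeries.C (Complex.exp (θ j * Complex.I)) * PowerSeries.X) = 1 →
    (∀ n, ‖H n‖ ^ 2 ≤ 4 * q ^ n) → ∀ n ≤ 3 * N, ‖H n‖ ≤ A ^ N := by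
  obtain ⟨s, hs, rfl⟩ : ∃ s : ℝ, 1 < s ∧ s ^ 8 = A := ⟨A ^ ((8 : ℕ) : ℝ)⁻¹,
    Real.one_lt_rpow hA (by positivity), Real.rpow_inv_natCast_pow (by linarith) (by norm_num)⟩
  have s1 : 0 < s - 1 := by linarith
  obtain ⟨J, hJ⟩ := pow_unbounded_of_one_lt q hs
  have J0 : 0 < J := Nat.pos_of_ne_zero fun c => by
    rw [c, pow_zero] at hJ
    linarith
  obtain ⟨M, hM⟩ := pow_unbounded_of_one_lt (J / (s - 1)) hs
  obtain ⟨c, c0, hc⟩ := mny_p hq M
  filter_upwards [(tendsto_pow_atTop_atTop_of_one_lt hs).eventually_ge_atTop (2 * s ^ J),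
    tendsto_natCast_atTop_atTop.eventually_ge_atTop (c / (s - 1) * J)] with N h1 h2 θ H hH hb n hn
  obtain ⟨h0, hr⟩ := mny_newton _ hH
  have hb' : ∀ n, ‖H n‖ ≤ 2 * q ^ n := fun n => abs_le_of_sq_le_sq' ((hb n).trans (by
    have := one_le_pow₀ (n := n) hq
    nlinarith)) (by positivity) |>.2
  have e0 : N ≤ (N / J + 1) * J := by
    have := Nat.div_add_mod N J
    have := Nat.mod_lt N J0
    nlinarith
  have e1 : (N : ℝ) ≤ (N / J + 1 : ℕ) * J := by exact_mod_cast e0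
  have J1 : (0 : ℝ) < J := by exact_mod_cast J0
  refine (mny_h hs (n₀ := N / J + 1) (K := s ^ (2 * N)) (p := fun i =>
    ∑ j, Complex.exp (θ j * Complex.I) ^ (i + 1)) (fun i => ?_) (fun m hm => ?_) hr n).trans ?_
  · rcases lt_or_ge i M with h | h
    · refine (hc (fun i => ∑ j, Complex.exp (θ j * Complex.I) ^ (i + 1)) H h0 hb' hr i h).trans (le_trans ?_
        (le_mul_of_one_le_right (by positivity) (one_le_pow₀ hs.le)))
      rw [← div_le_iff₀' s1]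
      exact le_of_mul_le_mul_right (h2.trans e1) J1
    · refine (norm_sum_le _ _).trans ?_
      simp only [norm_pow, Complex.norm_exp_ofReal_mul_I, one_pow, sum_const, card_univ,
        Fintype.card_fin, nsmul_one]
      rw [div_lt_iff₀' s1] at hM
      refine e1.trans ((mul_le_mul_of_nonneg_left (hM.le.trans (mul_le_mul_of_nonneg_left
        (pow_le_pow_right₀ hs.le (by omega : M ≤ i + 1)) s1.le)) (by positivity)).trans_eq ?_)
      ring
  · have e2 : q ^ m ≤ s ^ (J + N) := (pow_le_pow_left₀ (by linarith) hJ.le m).trans (by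
      rw [← pow_mul]
      refine pow_le_pow_right₀ hs.le ((Nat.mul_le_mul_left J hm).trans ?_)
      have := Nat.mul_div_le N J
      nlinarith)
    refine (hb' m).trans ((mul_le_mul_of_nonneg_left e2 two_pos.le).trans ?_)
    rw [pow_add, ← mul_assoc, two_mul N, pow_add]
    exact mul_le_mul_of_nonneg_right h1 (by positivity)
  · rw [← pow_add, ← pow_mul]
    exact pow_le_pow_right₀ hs.le (by omega)

variable {k : Type} [Field k] [Fintype k] [CharP k 2]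

theorem many {A : ℝ} (hA : 1 < A) : ∀ᶠ N : ℕ in atTop, ∀ Q : k[X], Q.Monic → Irreducible Q →
    Q.natDegree = N + 2 → qq k ^ (N + 2) ≤ A ^ N * #{χ ∈ (ev Q).erase 1 |
      ∃ θ : Fin N → ℝ, PowerSeries.mk (AA Q χ) = (1 - PowerSeries.X) *
      ∏ j, (1 - PowerSeries.C (((√(qq k) : ℝ) : ℂ) * Complex.exp (θ j * Complex.I)) *
        PowerSeries.X) ∧
      ∃ i j, i ≠ j ∧ |θ i - θ j| ≤ (1 / 2 - 1 / 2 ^ 64 / 1000) * (2 * Real.pi / N)} := by
  have hq := two_le_qq (k := k)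
  obtain ⟨a, ha, rfl⟩ : ∃ s : ℝ, 1 < s ∧ s ^ 3 = A := ⟨A ^ ((3 : ℕ) : ℝ)⁻¹,
    Real.one_lt_rpow hA (by positivity), Real.rpow_inv_natCast_pow (by linarith) (by norm_num)⟩
  obtain ⟨τ, hτ⟩ : ∃ τ : ℝ, τ = 1 / 2 ^ 64 := ⟨_, rfl⟩
  have τ0 : 0 < τ := by rw [hτ]; positivity
  have τ1 : τ ≤ 1 / 10 := by rw [hτ]; norm_num
  have hl := low (k := k)
  rw [← hτ] at hl ⊢
  filter_upwards [(tendsto_add_atTop_nat 2).eventually (num τ0 τ1 (4 * qq k ^ 2)),
    (tendsto_add_atTop_nat 2).eventually hl, eventually_ge_atTop 4,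
    mny_bnd (by linarith : 1 ≤ qq k) ha,
    (tendsto_pow_atTop_atTop_of_one_lt ha).eventually_ge_atTop (800 * qq k / τ),
    ((tendsto_pow_atTop_atTop_of_one_lt (by linarith : 1 < qq k)).comp
      (tendsto_add_atTop_nat 1)).eventually_gt_atTop (3200 * qq k ^ 2 / τ)]
    with N h1 h2 hN hbd h5 h3 Q hQ hi hd
  obtain ⟨t, ht⟩ : ∃ t : ℝ, t = (1 / 2 - τ / 1000) * (2 * Real.pi / N) := ⟨_, rfl⟩
  obtain ⟨Y, hY⟩ : ∃ Y : ℕ, Y = N + 2 + ⌊τ * ((N + 2 : ℕ) : ℝ)⌋₊ := ⟨_, rfl⟩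
  have hN1 : (1 : ℝ) ≤ N := by exact_mod_cast (by omega : 1 ≤ N)
  have hpi := Real.pi_pos
  have hd0 : (0 : ℝ) < ((N + 2 : ℕ) : ℝ) := by positivity
  have t0 : 0 < t := by
    rw [ht]
    exact mul_pos (by linarith) (by positivity)
  have t1 : t ≤ Real.pi := by
    have h4 : 2 * Real.pi / N ≤ 2 * Real.pi := div_le_self (by positivity) hN1
    have h5 : 0 ≤ 2 * Real.pi / N := by positivity
    rw [ht]
    nlinarith
  have hYle : Y ≤ 2 * (N + 2) := by
    have h4 : ⌊τ * ((N + 2 : ℕ) : ℝ)⌋₊ ≤ N + 2 := Nat.floor_le_of_le (by nlinarith)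
    omega
  have hc := card_ev hQ hi
  rw [hd, show N + 2 - 1 = N + 1 from rfl] at hc
  have h3' : 3200 * qq k ^ 2 < (#(ev Q) : ℝ) * τ := (div_lt_iff₀ τ0).1 (lt_of_lt_of_le h3 hc)
  have c0 : (0 : ℝ) < #(ev Q) := lt_of_lt_of_le (by positivity) hc
  have hq2 : 1 ≤ qq k ^ 2 := one_le_pow₀ (by linarith)
  have a1 := h1 (fun n => (∑ χ ∈ ev Q, ‖HH Q χ n‖ ^ 2) / (#(ev Q) : ℝ)) (1 - 1 / qq k ^ 2)
    (sub_nonneg.2 ((div_le_one (by positivity)).2 hq2)) (sub_le_self _ (by positivity))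
    (fun n hn => by
      rw [abs_of_nonneg (by positivity), div_le_iff₀ c0, mul_comm, ← nsmul_eq_mul]
      exact sum_le_card_nsmul _ _ _ fun χ _ => (HH_le hQ χ n).trans
        (mul_le_mul_of_nonneg_left (pow_le_pow_right₀ (by linarith) hn) (by norm_num)))
    (fun n hn hn' => by
      rw [var_lt hQ hi hn (by omega), mul_div_cancel_left₀ _ c0.ne'])
    (fun n hn hn' => by
      have h4 := h2 Q hQ hi hd n hn hn'
      rw [le_div_iff₀ c0]
      linarith)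
  rw [← hY, Nat.add_sub_cancel, show (((N + 2 : ℕ) : ℝ) - 2) = N by push_cast; ring, ← ht] at a1
  have a2 : ∑ χ ∈ ev Q, ∑ n ∈ range Y, ‖HH Q χ n‖ ^ 2 * Real.sin (((n : ℝ) + (N : ℝ) / 2) * t) ≤
      -(τ * ((N + 2 : ℕ) : ℝ) / 200) * (#(ev Q) : ℝ) := by
    rw [sum_comm, ← div_le_iff₀ c0, sum_div]
    refine le_trans (le_of_eq (sum_congr rfl fun n _ => ?_)) a1
    rw [← sum_mul, mul_div_right_comm]
  rw [← add_sum_erase _ _ (one_mem_ev hQ)] at a2
  rw [← ht]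
  generalize hB : ({χ ∈ (ev Q).erase 1 | ∃ θ : Fin N → ℝ, PowerSeries.mk (AA Q χ) =
      (1 - PowerSeries.X) * ∏ j, (1 - PowerSeries.C (((√(qq k) : ℝ) : ℂ) *
        Complex.exp (θ j * Complex.I)) * PowerSeries.X) ∧
      ∃ i j, i ≠ j ∧ |θ i - θ j| ≤ t} : Finset _) = B
  have a3 : ∑ χ ∈ (ev Q).erase 1, (if χ ∈ B then -(Y * (a ^ N) ^ 2) else 0) ≤
      ∑ χ ∈ (ev Q).erase 1,
      ∑ n ∈ range Y, ‖HH Q χ n‖ ^ 2 * Real.sin (((n : ℝ) + (N : ℝ) / 2) * t) := by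
    refine sum_le_sum fun χ hχ => ?_
    obtain ⟨x1, x2⟩ := mem_erase.1 hχ
    obtain ⟨θ, hθ⟩ := rh hQ hi x1 x2 hd
    split_ifs with c
    · have hR : ((√(qq k) : ℝ) : ℂ) ≠ 0 := by
        exact_mod_cast (Real.sqrt_pos.2 (by linarith)).ne'
      have b1 := hbd θ (HH Q χ) (inv_ser hR hθ
        (mu_conv (χ.toMonoidHom.comp (AdjoinRoot.mk Q).toMonoidHom))) (HH_le hQ χ)
      refine le_trans (le_of_eq ?_) (card_nsmul_le_sum _ _ (-(a ^ N) ^ 2) fun n hn => ?_)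
      · rw [card_range, nsmul_eq_mul, mul_neg]
      · have h4 := pow_le_pow_left₀ (norm_nonneg _) (b1 n (by rw [mem_range] at hn; omega)) 2
        nlinarith [Real.neg_one_le_sin (((n : ℝ) + (N : ℝ) / 2) * t), sq_nonneg ‖HH Q χ n‖]
    · refine gap_sign t0 t1 hθ (fun θ' h' i j hij => lt_of_not_ge fun e => c ?_) Y
      exact hB ▸ mem_filter.2 ⟨hχ, θ', h', i, j, hij, e⟩
  rw [sum_ite_mem, inter_eq_right.2 (hB ▸ filter_subset _ _), sum_const, nsmul_eq_mul] at a3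
  have a4 : (#(range Y)) • (-(4 * qq k ^ 2)) ≤
      ∑ n ∈ range Y, ‖HH Q 1 n‖ ^ 2 * Real.sin (((n : ℝ) + (N : ℝ) / 2) * t) := by
    refine card_nsmul_le_sum _ _ _ fun n hn => ?_
    have h4 := HH_one hQ hi (n := n) (by rw [mem_range] at hn; omega)
    nlinarith [Real.neg_one_le_sin (((n : ℝ) + (N : ℝ) / 2) * t), sq_nonneg ‖HH Q 1 n‖]
  rw [card_range, nsmul_eq_mul] at a4
  have a5 : (Y : ℝ) ≤ 2 * ((N + 2 : ℕ) : ℝ) := by exact_mod_cast hYle
  have a6 : τ * (#(ev Q) : ℝ) ≤ 800 * ((a ^ N) ^ 2 * #B) := by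
    refine le_of_mul_le_mul_left ?_ hd0
    nlinarith [mul_lt_mul_of_pos_left h3' hd0, mul_le_mul_of_nonneg_right a5
      (show 0 ≤ 4 * qq k ^ 2 by positivity), mul_le_mul_of_nonneg_right a5
      (show 0 ≤ (a ^ N) ^ 2 * #B by positivity)]
  rw [div_le_iff₀ τ0] at h5
  refine le_of_mul_le_mul_left ?_ τ0
  calc τ * qq k ^ (N + 2) = qq k * (τ * qq k ^ (N + 1)) := by ring
    _ ≤ qq k * (800 * ((a ^ N) ^ 2 * #B)) := mul_le_mul_of_nonneg_left
      ((mul_le_mul_of_nonneg_left hc τ0.le).trans a6) (by positivity)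
    _ = 800 * qq k * ((a ^ N) ^ 2 * #B) := by ring
    _ ≤ a ^ N * τ * ((a ^ N) ^ 2 * #B) := mul_le_mul_of_nonneg_right h5 (by positivity)
    _ = _ := by ring

end MANY

theorem main2 : ∃ η : ℝ, 0 < η ∧ ∀ (k : Type) [Field k] [Finite k] [CharP k 2] (ε : ℝ), 0 < ε →
    ∃ d₀ : ℕ, ∀ Q : k[X], Q.Monic → Irreducible Q → d₀ ≤ Q.natDegree →
      (Nat.card k : ℝ) ^ ((1 - ε) * Q.natDegree) ≤ Set.ncard {χ : MulChar (AdjoinRoot Q) ℂ |
        χ ≠ 1 ∧ (∀ c : k, c ≠ 0 → χ (AdjoinRoot.mk Q (C c)) = 1) ∧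
        ∃ θ : Fin (Q.natDegree - 2) → ℝ,
          (∀ u : ℂ, ∑ n ∈ Finset.range Q.natDegree,
              (∑ᶠ f ∈ {f : k[X] | f.Monic ∧ f.natDegree = n}, χ (AdjoinRoot.mk Q f)) * u ^ n =
            (1 - u) * ∏ j, (1 - ((√(Nat.card k) : ℝ) : ℂ) * Complex.exp (θ j * Complex.I) * u)) ∧
          ∃ i j, i ≠ j ∧
            |θ i - θ j| ≤ (1 / 2 - η) * (2 * Real.pi / ((Q.natDegree : ℝ) - 2))} := by
  refine ⟨1 / 2 ^ 64 / 1000, by positivity, fun k _ _ _ ε hε => ?_⟩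
  have := Fintype.ofFinite k
  have hq := two_le_qq (k := k)
  have hA : 1 < qq k ^ ε := Real.one_lt_rpow (by linarith) hε
  obtain ⟨N₀, h⟩ := eventually_atTop.1 (many (k := k) hA)
  refine ⟨N₀ + 2, fun Q hQ hi hd => ?_⟩
  obtain ⟨N, hN⟩ : ∃ N, Q.natDegree = N + 2 := ⟨Q.natDegree - 2, by omega⟩
  have h1 := h N (by omega) Q hQ hi hN
  have e : ((N + 2 : ℕ) : ℝ) - 2 = N := by
    push_cast
    ring
  rw [hN, Nat.card_eq_fintype_card, e]
  refine le_of_mul_le_mul_left (le_trans (le_of_eq ?_) (h1.trans (mul_le_mul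
    (pow_le_pow_right₀ hA.le (Nat.le_add_right N 2)) ?_ (by positivity) (by positivity))))
    (by positivity : 0 < (qq k ^ ε) ^ (N + 2))
  · rw [← Real.rpow_mul_natCast (by linarith), ← qq, ← Real.rpow_add (by linarith),
      ← Real.rpow_natCast]
    congr 1
    ring
  rw [← Set.ncard_coe_finset]
  refine Nat.cast_le.2 (Set.ncard_le_ncard (fun χ hχ => ?_)
    ((ev Q).finite_toSet.subset fun χ hχ => (mem_ev hQ).2 hχ.2.1))
  obtain ⟨h2, θ, hA, hg⟩ := mem_filter.1 hχ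
  obtain ⟨h3, he⟩ := mem_erase.1 h2
  refine ⟨h3, (mem_ev hQ).1 he, θ, fun u => ?_, hg⟩
  refine Eq.trans (sum_congr rfl fun n _ => ?_) (eval_ser hA u)
  rw [AA, ← finsum_mem_coe_finset]
  congr 2
  ext f
  simp [mem_mon]

end Pool.Agent.MP_f0209c_nt.FF
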